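import Pool.Agent.Y746.OA.Num

set_option autoImplicit false

/-! The truncated moments of all orders: choice of the parameters. -/

namespace Pool.Agent.Y746.OA

open Finset MeasureTheory Filter

noncomputable section

/-- the truncated moments of all orders -/
theorem mainA (α : ℝ) : ∃ c : ℝ, 0 < c ∧ ∀ B : ℕ, ∃ (A : ℕ) (C T0 : ℝ), 0 < C ∧ ∀ T : ℝ, T0 ≤ T → ∀ δ : ℝ,
    C * Real.log (Real.log T) / Real.log T ≤ δ → δ ≤ 1 / 16 → ∀ V : ℝ, Real.log T ^ A ≤ V → V ≤ T ^ (c * δ) →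
    |(∫ t in (0:ℝ)..T, clip V ‖riemannZeta (sp δ t)‖ ^ (2 * α)) - T * SS α δ| ≤ T * SS α δ / Real.log T ^ B := by
  obtain ⟨m, hm⟩ := exists_nat_ge (|α| + 1)
  set b : ℝ := (m : ℝ) with hb
  set k : ℕ := 2 * m with hk
  set Q : ℕ := 2 * (4 * k + 3) with hQ
  set D : ℕ := (2 * k) ^ 2 with hD
  set θ : ℝ := 1 / (4 * Q) with hθ
  have hQ0 : (0:ℝ) < Q := by rw [hQ]; positivity
  have hQ6 : (6:ℝ) ≤ Q := by
    rw [hQ]; push_cast
    have : (0:ℝ) ≤ k := Nat.cast_nonneg k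
    linarith
  have hθ0 : 0 < θ := by positivity
  have hθ1 : θ ≤ 1 / 24 := by
    rw [hθ, div_le_div_iff₀ (by positivity) (by norm_num)]; linarith
  have hb1 : 1 ≤ b := by have := abs_nonneg α; linarith
  have hkb : (k:ℝ) = 2 * b := by rw [hk, hb]; push_cast; ring
  obtain ⟨C1, T1, hC1, hT1, hz⟩ := zeta_ms
  refine ⟨θ / (16 * (|2 * α| + 1)), by positivity, fun B => ?_⟩
  set c : ℝ := θ / (16 * (|2 * α| + 1)) with hc
  set P : ℕ := D + B + 3 with hP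
  set C : ℝ := 16 * P / θ with hC
  have hP3 : (3:ℝ) ≤ P := by
    rw [hP]; push_cast
    have h1 : (0:ℝ) ≤ D := Nat.cast_nonneg D
    have h2 : (0:ℝ) ≤ B := Nat.cast_nonneg B
    linarith
  have hC0 : 0 < C := by positivity
  have hC2 : 2 ≤ C := by
    rw [hC, le_div_iff₀ hθ0]; nlinarith
  -- large T
  have hev : ∀ᶠ L : ℝ in atTop, 24 ≤ L ∧ 112 * (b + 1) + 38 + (360 + 2 * C1) ≤ L ∧
      L ^ (B + 3) * Real.exp (-(L / 2)) ≤ 1 ∧ 4 * ((Q:ℝ) + 2) ≤ L := by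
    have h1 : Tendsto (fun L : ℝ => L ^ (B + 3) * Real.exp (-(L / 2))) atTop (nhds 0) := by
      have h2 := (Real.tendsto_pow_mul_exp_neg_atTop_nhds_zero (B + 3)).comp
        (tendsto_id.atTop_div_const (by norm_num : (0:ℝ) < 2))
      have h3 := h2.const_mul ((2:ℝ) ^ (B + 3))
      rw [mul_zero] at h3
      refine h3.congr fun L => ?_
      simp only [Function.comp, id]
      rw [div_pow]
      field_simp
    filter_upwards [eventually_ge_atTop 24, eventually_ge_atTop (112 * (b + 1) + 38 + (360 + 2 * C1)),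
      h1.eventually (ge_mem_nhds (show (0:ℝ) < 1 by norm_num)), eventually_ge_atTop (4 * ((Q:ℝ) + 2))] with L h1 h2 h3 h4
    exact ⟨h1, h2, h3, h4⟩
  have hev2 := (Real.tendsto_log_atTop.eventually hev).and (eventually_ge_atTop (max T1 4))
  rw [eventually_atTop] at hev2
  obtain ⟨T0, hT0⟩ := hev2
  refine ⟨D + B + 1, C, T0, hC0, fun T hT δ hδ hδ1 V hV1 hV2 => ?_⟩
  obtain ⟨⟨hL24, hbig, hexp, hLQ⟩, hTT⟩ := hT0 T hT
  have hTT1 : T1 ≤ T := (le_max_left _ _).trans hTT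
  have hT4 : 4 ≤ T := (le_max_right _ _).trans hTT
  have hTp : 0 < T := by linarith
  set L := Real.log T with hL
  have hL0 : 0 < L := by linarith
  have hL1 : 1 ≤ L := by linarith
  have hTe : T = Real.exp L := (Real.exp_log hTp).symm
  have hlL : 1 ≤ Real.log L := by
    rw [Real.le_log_iff_exp_le hL0]
    linarith [Real.exp_one_lt_d9]
  have hδC : C * Real.log L ≤ δ * L := by rwa [div_le_iff₀ hL0] at hδ
  have hδ2 : 2 ≤ δ * L := by nlinarith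
  have hδ0 : 0 < δ := by
    by_contra h
    push Not at h
    nlinarith
  have h2δ : 2 / δ ≤ L := by rw [div_le_iff₀ hδ0]; linarith
  have h1L : 1 / L ≤ δ := by rw [div_le_iff₀ hL0]; linarith
  set H : ℝ := L ^ D with hH
  have hH1 : 1 ≤ H := one_le_pow₀ hL1
  have hHδ : (2 / δ) ^ D ≤ H := pow_le_pow_left₀ (by positivity) h2δ D
  set X : ℝ := Real.exp (θ * δ * L / 16) with hX
  have hX0 : 0 < X := Real.exp_pos _
  have hLpow : ∀ n : ℕ, L ^ n = Real.exp (n * Real.log L) := by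
    intro n
    rw [mul_comm, Real.exp_mul, Real.exp_log hL0, Real.rpow_natCast]
  have hXP : L ^ P ≤ X := by
    rw [hLpow, hX]
    refine Real.exp_le_exp.mpr ?_
    have h1 : θ * (C * Real.log L) ≤ θ * (δ * L) := mul_le_mul_of_nonneg_left hδC hθ0.le
    have h2 : θ * C = 16 * P := by rw [hC]; field_simp
    rw [← mul_assoc, h2] at h1
    linarith
  have hX16 : X ^ 16 = Real.exp (θ * δ * L) := by
    rw [hX, ← Real.exp_nat_mul]; congr 1; push_cast; ring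
  have hXT : X ^ 16 ≤ Real.exp (L / 2) := by
    rw [hX16]
    refine Real.exp_le_exp.mpr ?_
    have : θ * δ ≤ 1 / 2 := by nlinarith
    nlinarith
  -- the length
  set N : ℕ := ⌈T ^ θ⌉₊ with hN
  have hTθ : 1 ≤ T ^ θ := Real.one_le_rpow (by linarith) hθ0.le
  have hNle : T ^ θ ≤ N := Nat.le_ceil _
  have hN1r : (1:ℝ) ≤ N := hTθ.trans hNle
  have hN1 : 1 ≤ N := by exact_mod_cast hN1r
  have hN2 : (N:ℝ) ≤ 2 * T ^ θ := by
    have := (Nat.ceil_lt_add_one (by linarith : 0 ≤ T ^ θ)).le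
    linarith
  have hTθe : T ^ θ = Real.exp (θ * L) := by
    rw [hTe, ← Real.exp_mul]; congr 1; ring
  have hNQ : 4 * (N:ℝ) ^ Q ≤ Real.exp (L / 2) := by
    have h1 : (N:ℝ) ^ Q ≤ 2 ^ Q * Real.exp (L / 4) := by
      calc (N:ℝ) ^ Q ≤ (2 * T ^ θ) ^ Q := pow_le_pow_left₀ (by positivity) hN2 Q
        _ = 2 ^ Q * Real.exp (L / 4) := by
          rw [mul_pow, hTθe, ← Real.exp_nat_mul]
          congr 2
          rw [hθ]; field_simp
    have h2 : (2:ℝ) ^ (Q + 2) ≤ Real.exp (L / 4) := by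
      calc (2:ℝ) ^ (Q + 2) ≤ (Real.exp 1) ^ (Q + 2) :=
            pow_le_pow_left₀ (by norm_num) (by linarith [Real.add_one_le_exp (1:ℝ)]) _
        _ = Real.exp ((Q:ℝ) + 2) := by rw [← Real.exp_nat_mul]; push_cast; ring_nf
        _ ≤ _ := Real.exp_le_exp.mpr (by linarith)
    calc 4 * (N:ℝ) ^ Q ≤ 4 * (2 ^ Q * Real.exp (L / 4)) := by linarith
      _ = 2 ^ (Q + 2) * Real.exp (L / 4) := by ring
      _ ≤ Real.exp (L / 4) * Real.exp (L / 4) := mul_le_mul_of_nonneg_right h2 (Real.exp_pos _).le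
      _ = _ := by rw [← Real.exp_add]; congr 1; ring
  have hNQT : 4 * (N:ℝ) ^ Q ≤ T * (X ^ 16)⁻¹ := by
    refine hNQ.trans ?_
    rw [le_mul_inv_iff₀ (by positivity)]
    calc Real.exp (L / 2) * X ^ 16 ≤ Real.exp (L / 2) * Real.exp (L / 2) := mul_le_mul_of_nonneg_left hXT (Real.exp_pos _).le
      _ = T := by rw [← Real.exp_add, hTe]; congr 1; ring
  have hN3 : (N:ℝ) ^ 3 ≤ T := by
    have h1 : (N:ℝ) ^ 3 ≤ (N:ℝ) ^ Q := pow_le_pow_right₀ hN1r (by rw [hQ]; omega)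
    have h2 : Real.exp (L / 2) ≤ T := by rw [hTe]; exact Real.exp_le_exp.mpr (by linarith)
    have h3 : (0:ℝ) ≤ (N:ℝ) ^ Q := by positivity
    linarith
  have hNδ : (N:ℝ) ^ (-δ) ≤ (X ^ 16)⁻¹ := by
    calc (N:ℝ) ^ (-δ) ≤ (T ^ θ) ^ (-δ) := Real.rpow_le_rpow_of_nonpos (by linarith) hNle (by linarith)
      _ = (X ^ 16)⁻¹ := by
        rw [hX16, hTθe, ← Real.exp_mul, ← Real.exp_neg]; congr 1; ring
  have hN2δ : (N:ℝ) ^ (-(2 * δ)) ≤ (X ^ 16)⁻¹ := by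
    refine le_trans ?_ hNδ
    exact Real.rpow_le_rpow_of_exponent_le hN1r (by linarith)
  obtain ⟨g1, g2, g3, g4⟩ := ms_all (k := k) hN1 hδ0 (by linarith : δ ≤ 1) hTp.le
  have hXi : 0 < (X ^ 16)⁻¹ := by positivity
  have hLP : ∀ n : ℕ, n ≤ P → L ^ n ≤ X := fun n hn => (pow_le_pow_right₀ hL1 hn).trans hXP
  have hX1 : 1 ≤ X := by have := hLP 0 (by omega); rwa [pow_zero] at this
  have hX8 : 8 ≤ X := by
    have := hLP 1 (by omega)
    rw [pow_one] at this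
    linarith
  have hX16' : (X ^ 16)⁻¹ ≤ 1 := inv_le_one_of_one_le₀ (one_le_pow₀ hX1)
  -- the error of multiplicativity
  have hρ : rho b X ((X ^ 3)⁻¹) ⌈L⌉₊ ≤ 28 * (b + 1) / L ^ (B + 1) := by
    have hq0 : 0 < L ^ (B + 1) := by positivity
    unfold rho
    have r1 : Real.log (2 * X) ≤ 2 * L := by
      rw [Real.log_mul (by norm_num) hX0.ne', hX, Real.log_exp]
      have h2 := Real.log_two_lt_d9
      have h3 : θ * δ * L / 16 ≤ L := by
        have : θ * δ ≤ 1 := by nlinarith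
        nlinarith
      linarith
    have r0 : 0 ≤ Real.log (2 * X) := Real.log_nonneg (by linarith)
    have r2 : (1 / 2 : ℝ) ^ ⌈L⌉₊ ≤ Real.exp (-(L / 2)) := by
      have h2 : (1 / 2 : ℝ) ≤ Real.exp (-(1 / 2)) := by
        have := Real.add_one_le_exp (-(1 / 2) : ℝ)
        linarith
      calc (1 / 2 : ℝ) ^ ⌈L⌉₊ ≤ (Real.exp (-(1 / 2))) ^ ⌈L⌉₊ := pow_le_pow_left₀ (by norm_num) h2 _
        _ = Real.exp ((⌈L⌉₊ : ℝ) * (-(1 / 2))) := by rw [Real.exp_nat_mul]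
        _ ≤ _ := Real.exp_le_exp.mpr (by have := Nat.le_ceil L; linarith)
    have r3 : (1 / 2 : ℝ) ^ ⌈L⌉₊ * (2 * Real.log (2 * X)) ≤ 4 / L ^ (B + 1) := by
      calc (1 / 2 : ℝ) ^ ⌈L⌉₊ * (2 * Real.log (2 * X)) ≤ Real.exp (-(L / 2)) * (2 * (2 * L)) := by gcongr
        _ ≤ 4 / L ^ (B + 1) := by
          rw [le_div_iff₀ hq0]
          have : Real.exp (-(L / 2)) * (2 * (2 * L)) * L ^ (B + 1) = 4 * (L ^ (B + 2) * Real.exp (-(L / 2))) := by ring
          rw [this]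
          have h4 : L ^ (B + 2) ≤ L ^ (B + 3) := pow_le_pow_right₀ hL1 (by omega)
          have h5 := mul_le_mul_of_nonneg_right h4 (Real.exp_pos (-(L / 2))).le
          linarith
    have r4 : 3 * (8 * X ^ 2 * (X ^ 3)⁻¹) ≤ 24 / L ^ (B + 1) := by
      have e1 : 3 * (8 * X ^ 2 * (X ^ 3)⁻¹) = 24 / X := by field_simp; norm_num
      rw [e1]
      exact div_le_div_of_nonneg_left (by norm_num) hq0 (hLP (B + 1) (by omega))
    calc (b + 1) * ((1 / 2) ^ ⌈L⌉₊ * (2 * Real.log (2 * X)) + 3 * (8 * X ^ 2 * (X ^ 3)⁻¹)) ≤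
        (b + 1) * (4 / L ^ (B + 1) + 24 / L ^ (B + 1)) :=
          mul_le_mul_of_nonneg_left (add_le_add r3 r4) (by linarith)
      _ = _ := by ring
  have hVX : V ^ |2 * α| ≤ X := by
    have hV0 : 0 ≤ V := le_trans (by positivity) hV1
    calc V ^ |2 * α| ≤ (T ^ (c * δ)) ^ |2 * α| := Real.rpow_le_rpow hV0 hV2 (abs_nonneg _)
      _ = Real.exp (c * |2 * α| * (δ * L)) := by
        rw [hTe, ← Real.exp_mul, ← Real.exp_mul]; congr 1; ring
      _ ≤ X := by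
        rw [hX]
        refine Real.exp_le_exp.mpr ?_
        have h1 : c * |2 * α| ≤ θ / 16 := by
          rw [hc, div_mul_eq_mul_div, div_le_div_iff₀ (by positivity) (by norm_num)]
          have := abs_nonneg (2 * α)
          nlinarith
        have h2 : 0 ≤ δ * L := by positivity
        nlinarith
  refine assemble (N := N) (b := b) (H := H) (X := X) (C1 := C1) hN1 hm hTp hδ0 hδ1 hL24 hH1 hX8 hC1.le
    ((one_le_pow₀ hL1).trans hV1) ?_ ?_ hVX hρ ?_ ?_ ?_ ?_ ?_ hbig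
  · rw [hH, ← pow_add]
    exact hLP _ (by omega)
  · rw [hH, ← pow_add]
    exact hV1
  · intro a b' ha hb'
    rw [← hkb] at ha hb'
    refine (g1 a b' ha hb').trans ?_
    have e1 : (N:ℝ) ^ (-δ) * (2 / δ) ^ D ≤ (X ^ 16)⁻¹ * H := mul_le_mul hNδ hHδ (by positivity) hXi.le
    have e2 : T * ((N:ℝ) ^ (-δ) * (2 / δ) ^ D) ≤ T * ((X ^ 16)⁻¹ * H) := mul_le_mul_of_nonneg_left e1 hTp.le
    have e3 : T * (X ^ 16)⁻¹ ≤ T * ((X ^ 16)⁻¹ * H) := by
      refine mul_le_mul_of_nonneg_left ?_ hTp.le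
      exact le_mul_of_one_le_right hXi.le hH1
    calc _ ≤ T * ((X ^ 16)⁻¹ * H) + T * ((X ^ 16)⁻¹ * H) := add_le_add e2 (hNQT.trans e3)
      _ = _ := by ring
  · intro a ha
    rw [← hkb] at ha
    refine (g2 a ha).trans ?_
    have e2 : T * (2 / δ) ^ D ≤ T * H := mul_le_mul_of_nonneg_left hHδ hTp.le
    have e3 : T * (X ^ 16)⁻¹ ≤ T * H := mul_le_mul_of_nonneg_left (hX16'.trans hH1) hTp.le
    calc _ ≤ T * H + T * H := add_le_add e2 (hNQT.trans e3)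
      _ = _ := by ring
  · refine (g3 α (by rw [hkb]; linarith)).trans ?_
    have e2 : T * (2 / δ) ^ D ≤ T * H := mul_le_mul_of_nonneg_left hHδ hTp.le
    have e3 : T * (X ^ 16)⁻¹ ≤ T * H := mul_le_mul_of_nonneg_left (hX16'.trans hH1) hTp.le
    calc _ ≤ T * H + T * H := add_le_add e2 (hNQT.trans e3)
      _ = _ := by ring
  · refine (g4 α (by rw [hkb]; linarith)).trans ?_
    have e1 : (N:ℝ) ^ (-δ) * (2 / δ) ^ D ≤ (X ^ 16)⁻¹ * H := mul_le_mul hNδ hHδ (by positivity) hXi.le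
    have e2 : T * ((N:ℝ) ^ (-δ) * (2 / δ) ^ D) ≤ T * ((X ^ 16)⁻¹ * H) := mul_le_mul_of_nonneg_left e1 hTp.le
    have e3 : T * (X ^ 16)⁻¹ ≤ T * ((X ^ 16)⁻¹ * H) := by
      refine mul_le_mul_of_nonneg_left ?_ hTp.le
      exact le_mul_of_one_le_right hXi.le hH1
    calc _ ≤ T * ((X ^ 16)⁻¹ * H) + T * ((X ^ 16)⁻¹ * H) := add_le_add e2 (hNQT.trans e3)
      _ = _ := by ring
  · have h1 := hz T hTT1 N hN1 hN3 δ h1L hδ1
    unfold ZZ sp
    refine h1.trans ?_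
    calc C1 * (N:ℝ) ^ (-(2 * δ)) * (T * L) ≤ C1 * (X ^ 16)⁻¹ * (T * L) := by gcongr
      _ = _ := by ring

end

end Pool.Agent.Y746.OA
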