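import Pool.Agent.Y746.OA.Asy
import Pool.Agent.Y746.OA.MainA

set_option autoImplicit false

/-! Large deviations near the line. -/

namespace Pool.Agent.Y746.OA

open Finset Filter Topology MeasureTheory

noncomputable section

/-- the set of large values -/
def LV (δ x T : ℝ) : Set ℝ := {t | t ∈ Set.Ioc 0 T ∧ x ≤ ‖riemannZeta (sp δ t)‖}

lemma LV_meas {δ : ℝ} (hδ : δ ≤ 1 / 16) (x T : ℝ) : MeasurableSet (LV δ x T) := by
  unfold LV
  exact measurableSet_Ioc.inter (measurableSet_le measurable_const (zeta_sp_cont hδ).norm.measurable)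

lemma LV_int {δ : ℝ} (hδ : δ ≤ 1 / 16) (x : ℝ) {T : ℝ} (hT : 0 ≤ T) :
    ∫ t in (0:ℝ)..T, (LV δ x T).indicator (fun _ => (1:ℝ)) t = volume.real (LV δ x T) := by
  rw [intervalIntegral.integral_of_le hT]
  have h1 := integral_indicator_one (μ := volume.restrict (Set.Ioc 0 T)) (LV_meas hδ x T)
  have h2 : (LV δ x T).indicator (fun _ => (1:ℝ)) = (LV δ x T).indicator 1 := rfl
  rw [h2, h1, measureReal_restrict_apply (LV_meas hδ x T)]
  congr 1
  ext t
  constructor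
  · intro h; exact h.1
  · intro h; exact ⟨h, h.1⟩

lemma LV_ii {δ : ℝ} (hδ : δ ≤ 1 / 16) (x T : ℝ) :
    IntervalIntegrable ((LV δ x T).indicator (fun _ => (1:ℝ))) volume 0 T := by
  rw [intervalIntegrable_iff]
  have : IntegrableOn (fun _ : ℝ => (1:ℝ)) (Set.uIoc 0 T) volume := by
    rw [integrableOn_const_iff]
    right
    rw [Set.uIoc]
    exact measure_Ioc_lt_top
  exact this.indicator (LV_meas hδ x T)

/-- moments of the truncated function, compared with the diagonal sum -/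
theorem mom_half (α : ℝ) (A1 : ℕ) : ∃ (A : ℕ) (C T0 : ℝ), A1 ≤ A ∧ 0 < C ∧ ∀ A' : ℕ, A ≤ A' → ∃ C' T0' : ℝ, C ≤ C' ∧
    T0 ≤ T0' ∧ ∀ T : ℝ, T0' ≤ T → ∀ δ : ℝ,
    C' * Real.log (Real.log T) / Real.log T ≤ δ → δ ≤ 1 / 16 →
    T * SS α δ / 2 ≤ (∫ t in (0:ℝ)..T, clip (Real.log T ^ A') ‖riemannZeta (sp δ t)‖ ^ (2 * α)) ∧
    (∫ t in (0:ℝ)..T, clip (Real.log T ^ A') ‖riemannZeta (sp δ t)‖ ^ (2 * α)) ≤ 2 * (T * SS α δ) := by
  obtain ⟨c, hc, h⟩ := mainA α
  obtain ⟨A, C, T0, hC, hm⟩ := h 1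
  refine ⟨max A A1, C, T0, le_max_right _ _, hC, fun A' hA' => ⟨max C (A' / c), max T0 (Real.exp (Real.exp 1)),
    le_max_left _ _, le_max_left _ _, fun T hT δ hδ hδ1 => ?_⟩⟩
  have hT0 : T0 ≤ T := (le_max_left _ _).trans hT
  have hTe : Real.exp (Real.exp 1) ≤ T := (le_max_right _ _).trans hT
  have hTp : 0 < T := lt_of_lt_of_le (Real.exp_pos _) hTe
  have hL : Real.exp 1 ≤ Real.log T := by rwa [Real.le_log_iff_exp_le hTp]
  have hL0 : 0 < Real.log T := lt_of_lt_of_le (Real.exp_pos _) hL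
  have hL2 : 2 ≤ Real.log T := by linarith [Real.add_one_le_exp (1:ℝ)]
  have hlL : 1 ≤ Real.log (Real.log T) := by rwa [Real.le_log_iff_exp_le hL0]
  have hlL0 : 0 ≤ Real.log (Real.log T) := by linarith
  have h1 : C * Real.log (Real.log T) / Real.log T ≤ δ := by
    refine le_trans ?_ hδ
    gcongr
    exact le_max_left _ _
  have h2 : A' / c * Real.log (Real.log T) / Real.log T ≤ δ := by
    refine le_trans ?_ hδ
    gcongr
    exact le_max_right _ _
  have hδ0 : 0 < δ := lt_of_lt_of_le (by positivity) h1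
  have hV : Real.log T ^ A' ≤ T ^ (c * δ) := by
    rw [← Real.exp_log (show 0 < T ^ (c * δ) by positivity), Real.log_rpow hTp,
      ← Real.exp_log (show 0 < Real.log T ^ A' by positivity), Real.log_pow]
    refine Real.exp_le_exp.mpr ?_
    rw [div_le_iff₀ hL0, div_mul_eq_mul_div, div_le_iff₀ hc] at h2
    linarith
  have h3 := hm T hT0 δ h1 hδ1 (Real.log T ^ A')
    (pow_le_pow_right₀ (by linarith) ((le_max_left _ _).trans hA')) hV
  rw [pow_one] at h3
  have hS := SS_ge_one α hδ0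
  have hTS : 0 < T * SS α δ := by positivity
  have h4 : T * SS α δ / Real.log T ≤ T * SS α δ / 2 := by gcongr
  obtain ⟨h5, h6⟩ := abs_le.mp (h3.trans h4)
  constructor <;> linarith

/-- large deviations -/
theorem LD {u ε : ℝ} (hu : 0 < u) (hε : 0 < ε) : ∃ C T0 δ0 : ℝ, 0 < C ∧ 0 < δ0 ∧ δ0 ≤ 1 / 16 ∧ ∀ T : ℝ, T0 ≤ T → ∀ δ : ℝ,
    C * Real.log (Real.log T) / Real.log T ≤ δ → δ ≤ δ0 →
    T * δ ^ (u ^ 2 + ε) ≤ volume.real (LV δ (δ ^ (-u)) T) ∧
    volume.real (LV δ (δ ^ (-u)) T) ≤ T * δ ^ (u ^ 2 - ε) := by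
  set η : ℝ := min 1 (ε / (2 * (4 * u + 3))) with hη
  have hη0 : 0 < η := lt_min one_pos (by positivity)
  have hη1 : η ≤ 1 := min_le_left _ _
  have hηε : (4 * u + 3) * η ≤ ε / 2 := by
    have h1 : η ≤ ε / (2 * (4 * u + 3)) := min_le_right _ _
    calc (4 * u + 3) * η ≤ (4 * u + 3) * (ε / (2 * (4 * u + 3))) := mul_le_mul_of_nonneg_left h1 (by positivity)
      _ = ε / 2 := by field_simp
  have hη8 : η ^ 2 / 4 ≤ ε / 8 := by nlinarith
  obtain ⟨A0, -⟩ := exists_nat_ge (0:ℝ)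
  obtain ⟨Au, hAu⟩ := exists_nat_ge u
  obtain ⟨A1, C1, T1, hA1, hC1, h1⟩ := mom_half u Au
  obtain ⟨A2, C2, T2, hA2, hC2, h2⟩ := mom_half (u + η) Au
  obtain ⟨A3, C3, T3, hA3, hC3, h3⟩ := mom_half (u + 2 * η) Au
  set A := max A1 (max A2 A3) with hA
  obtain ⟨C1', T1', hc1, ht1, h1⟩ := h1 A (le_max_left _ _)
  obtain ⟨C2', T2', hc2, ht2, h2⟩ := h2 A ((le_max_left _ _).trans (le_max_right _ _))
  obtain ⟨C3', T3', hc3, ht3, h3⟩ := h3 A ((le_max_right _ _).trans (le_max_right _ _))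
  have hη' : 0 < η ^ 2 / 4 := by positivity
  have hsm : ∀ (c e : ℝ), 0 < c → 0 < e → ∀ᶠ δ : ℝ in 𝓝[>] 0, δ ^ e ≤ c := by
    intro c e hc he
    have h1 : Tendsto (fun δ : ℝ => δ ^ e) (𝓝 0) (𝓝 (0 ^ e)) :=
      (Real.continuousAt_rpow_const 0 e (Or.inr he.le)).tendsto
    rw [Real.zero_rpow he.ne'] at h1
    exact (h1.mono_left nhdsWithin_le_nhds).eventually (ge_mem_nhds hc)
  have hev := (((SS_power hu hη').and (SS_power (by positivity : 0 < u + η) hη')).and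
    (SS_power (by positivity : 0 < u + 2 * η) hη')).and
    ((hsm (1 / 16) (η ^ 2 / 2) (by norm_num) (by positivity)).and (hsm (1 / 4) (ε / 8) (by norm_num) (by positivity)))
  rw [eventually_nhdsWithin_iff, Metric.eventually_nhds_iff] at hev
  obtain ⟨r, hr, hev⟩ := hev
  refine ⟨max 1 (max C1' (max C2' C3')), max (max T1' (max T2' T3')) (Real.exp (Real.exp 1)), min (r / 2) (1 / 16),
    lt_of_lt_of_le one_pos (le_max_left _ _), lt_min (by positivity) (by norm_num),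
    min_le_right _ _, fun T hT δ hδ hδ1 => ?_⟩
  have hTe : Real.exp (Real.exp 1) ≤ T := (le_max_right _ _).trans hT
  have hT123 := (le_max_left _ _).trans hT
  have hTp : 0 < T := lt_of_lt_of_le (Real.exp_pos _) hTe
  have hL : Real.exp 1 ≤ Real.log T := by rwa [Real.le_log_iff_exp_le hTp]
  have hL0 : 0 < Real.log T := lt_of_lt_of_le (Real.exp_pos _) hL
  have hL1 : 1 ≤ Real.log T := by linarith [Real.add_one_le_exp (1:ℝ)]
  have hlL : 1 ≤ Real.log (Real.log T) := by rwa [Real.le_log_iff_exp_le hL0]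
  have hC0 : 0 < max 1 (max C1' (max C2' C3')) := lt_of_lt_of_le one_pos (le_max_left _ _)
  have hδ0 : 0 < δ := lt_of_lt_of_le (by positivity) hδ
  have hδr : δ < r := by
    have := hδ1.trans (min_le_left _ _)
    linarith
  have hδ16 : δ ≤ 1 / 16 := hδ1.trans (min_le_right _ _)
  have hδlt1 : δ ≤ 1 := by linarith
  have hev' := hev (y := δ) (by rw [Real.dist_eq, sub_zero, abs_of_pos hδ0]; exact hδr) hδ0
  obtain ⟨⟨⟨⟨p1, p1'⟩, ⟨p2, p2'⟩⟩, ⟨p3, p3'⟩⟩, ⟨q1, q2⟩⟩ := hev'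
  have mono1 : ∀ C' : ℝ, C' ≤ max 1 (max C1' (max C2' C3')) → C' * Real.log (Real.log T) / Real.log T ≤ δ := by
    intro C' hC'
    refine le_trans ?_ hδ
    gcongr
  have mono : ∀ C' : ℝ, C' ≤ max C1' (max C2' C3') → C' * Real.log (Real.log T) / Real.log T ≤ δ :=
    fun C' hC' => mono1 C' (hC'.trans (le_max_right _ _))
  obtain ⟨a1, a1'⟩ := h1 T ((le_max_left _ _).trans hT123) δ (mono _ (le_max_left _ _)) hδ16
  obtain ⟨a2, a2'⟩ := h2 T (((le_max_left _ _).trans (le_max_right _ _)).trans hT123) δ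
    (mono _ ((le_max_left _ _).trans (le_max_right _ _))) hδ16
  obtain ⟨a3, a3'⟩ := h3 T (((le_max_right _ _).trans (le_max_right _ _)).trans hT123) δ
    (mono _ ((le_max_right _ _).trans (le_max_right _ _))) hδ16
  set V := Real.log T ^ A with hV
  have hV1 : 1 ≤ V := one_le_pow₀ hL1
  set x := δ ^ (-u) with hx
  have hx0 : 0 < x := by positivity
  have hx1 : 1 < x := by
    rw [hx]
    exact Real.one_lt_rpow_of_pos_of_lt_one_of_neg hδ0 (by linarith) (by linarith)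
  have hδL : 1 / Real.log T ≤ δ := by
    refine le_trans ?_ (mono1 1 (le_max_left _ _))
    gcongr
    linarith
  have hxV : x ≤ V := by
    have h1 : δ⁻¹ ≤ Real.log T := by
      rw [inv_le_comm₀ hδ0 hL0, ← one_div]; exact hδL
    calc x = (δ⁻¹) ^ u := by rw [hx, Real.rpow_neg hδ0.le, Real.inv_rpow hδ0.le]
      _ ≤ Real.log T ^ u := Real.rpow_le_rpow (by positivity) h1 hu.le
      _ ≤ Real.log T ^ ((A:ℕ):ℝ) := Real.rpow_le_rpow_of_exponent_le hL1 (by
        refine hAu.trans ?_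
        exact_mod_cast hA1.trans (le_max_left _ _))
      _ = V := by rw [Real.rpow_natCast]
  -- Chernoff
  set w : ℝ → ℝ := fun t => clip V ‖riemannZeta (sp δ t)‖ with hw
  have hw0 : ∀ t, 0 < w t := fun t => clip_pos hV1
  have hwc : Continuous w := by
    rw [hw]; unfold clip
    exact continuous_const.max ((zeta_sp_cont hδ16).norm.min continuous_const)
  have hwge : ∀ t, x ≤ ‖riemannZeta (sp δ t)‖ → x ≤ w t := by
    intro t ht
    rw [hw]
    exact (le_min ht hxV).trans (le_max_right _ _)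
  have hwge' : ∀ t, x ≤ w t → x ≤ ‖riemannZeta (sp δ t)‖ := by
    intro t ht
    rw [hw] at ht
    simp only [clip] at ht
    rcases le_max_iff.mp ht with h | h
    · exfalso
      have : V⁻¹ ≤ 1 := inv_le_one_of_one_le₀ hV1
      linarith
    · exact h.trans (min_le_left _ _)
  have hwp : ∀ γ : ℝ, Continuous fun t => w t ^ γ := fun γ => hwc.rpow_const fun t => Or.inl (hw0 t).ne'
  set m := volume.real (LV δ x T) with hm
  have hcher : x ^ (2 * u) * m ≤ ∫ t in (0:ℝ)..T, w t ^ (2 * u) := by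
    rw [hm, ← LV_int hδ16 x hTp.le, ← intervalIntegral.integral_const_mul]
    refine intervalIntegral.integral_mono_on hTp.le ((LV_ii hδ16 x T).const_mul _) ((hwp _).intervalIntegrable _ _)
      fun t _ => ?_
    by_cases ht : t ∈ LV δ x T
    · rw [Set.indicator_of_mem ht, mul_one]
      exact Real.rpow_le_rpow hx0.le (hwge t ht.2) (by positivity)
    · rw [Set.indicator_of_notMem ht, mul_zero]
      exact Real.rpow_nonneg (hw0 t).le _
  have hlow : ∫ t in (0:ℝ)..T, w t ^ (2 * (u + η)) ≤ x ^ (2 * η) * (∫ t in (0:ℝ)..T, w t ^ (2 * u)) +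
      δ ^ (2 * η * (u + 2 * η)) * (∫ t in (0:ℝ)..T, w t ^ (2 * (u + 2 * η))) +
      δ ^ (-(2 * (u + 2 * η) * (u + η))) * m := by
    rw [hm, ← LV_int hδ16 x hTp.le, ← intervalIntegral.integral_const_mul, ← intervalIntegral.integral_const_mul,
      ← intervalIntegral.integral_const_mul]
    have f1 : Continuous fun t => x ^ (2 * η) * w t ^ (2 * u) := continuous_const.mul (hwp _)
    have f2 : Continuous fun t => δ ^ (2 * η * (u + 2 * η)) * w t ^ (2 * (u + 2 * η)) := continuous_const.mul (hwp _)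
    have f12 : Continuous fun t => x ^ (2 * η) * w t ^ (2 * u) +
      δ ^ (2 * η * (u + 2 * η)) * w t ^ (2 * (u + 2 * η)) := f1.add f2
    have i3 := (LV_ii hδ16 x T).const_mul (δ ^ (-(2 * (u + 2 * η) * (u + η))))
    rw [← intervalIntegral.integral_add (f1.intervalIntegrable _ _) (f2.intervalIntegrable _ _),
      ← intervalIntegral.integral_add (f12.intervalIntegrable _ _) i3]
    refine intervalIntegral.integral_mono_on_of_le_Ioo hTp.le ((hwp _).intervalIntegrable _ _)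
      ((f12.intervalIntegrable _ _).add i3) fun t ht => ?_
    have n1 : 0 ≤ x ^ (2 * η) * w t ^ (2 * u) := by have := (hw0 t).le; positivity
    have n2 : 0 ≤ δ ^ (2 * η * (u + 2 * η)) * w t ^ (2 * (u + 2 * η)) := by have := (hw0 t).le; positivity
    have n3 : 0 ≤ δ ^ (-(2 * (u + 2 * η) * (u + η))) * (LV δ x T).indicator (fun _ => (1:ℝ)) t :=
      mul_nonneg (by positivity) (Set.indicator_nonneg (fun _ _ => zero_le_one) _)
    have hwt := hw0 t
    rcases lt_or_ge (w t) x with h | h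
    · have e1 : w t ^ (2 * (u + η)) = w t ^ (2 * η) * w t ^ (2 * u) := by
        rw [← Real.rpow_add hwt]; congr 1; ring
      have e2 : w t ^ (2 * η) ≤ x ^ (2 * η) := Real.rpow_le_rpow hwt.le h.le (by positivity)
      have e3 := mul_le_mul_of_nonneg_right e2 (Real.rpow_nonneg hwt.le (2 * u))
      rw [e1]
      linarith
    · have hmem : t ∈ LV δ x T := ⟨⟨ht.1, ht.2.le⟩, hwge' t h⟩
      rw [Set.indicator_of_mem hmem, mul_one]
      rcases le_or_gt (w t) (δ ^ (-(u + 2 * η))) with h2 | h2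
      · have e1 : w t ^ (2 * (u + η)) ≤ δ ^ (-(2 * (u + 2 * η) * (u + η))) := by
          calc w t ^ (2 * (u + η)) ≤ (δ ^ (-(u + 2 * η))) ^ (2 * (u + η)) :=
                Real.rpow_le_rpow hwt.le h2 (by positivity)
            _ = _ := by rw [← Real.rpow_mul hδ0.le]; congr 1; ring
        linarith
      · have e1 : w t ^ (2 * (u + η)) = w t ^ (-(2 * η)) * w t ^ (2 * (u + 2 * η)) := by
          rw [← Real.rpow_add hwt]; congr 1; ring
        have e2 : w t ^ (-(2 * η)) ≤ δ ^ (2 * η * (u + 2 * η)) := by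
          calc w t ^ (-(2 * η)) ≤ (δ ^ (-(u + 2 * η))) ^ (-(2 * η)) :=
                Real.rpow_le_rpow_of_nonpos (by positivity) h2.le (by linarith)
            _ = _ := by rw [← Real.rpow_mul hδ0.le]; congr 1; ring
        have e3 := mul_le_mul_of_nonneg_right e2 (Real.rpow_nonneg hwt.le (2 * (u + 2 * η)))
        have n4 : 0 ≤ δ ^ (-(2 * (u + 2 * η) * (u + η))) := by positivity
        rw [e1]
        linarith
  have hm0 : 0 ≤ m := measureReal_nonneg
  have anti : ∀ a b : ℝ, a ≤ b → δ ^ b ≤ δ ^ a := fun a b h => Real.rpow_le_rpow_of_exponent_ge hδ0 hδlt1 h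
  constructor
  · have b1 : T / 2 * δ ^ (-(u + η) ^ 2 + η ^ 2 / 4) ≤ ∫ t in (0:ℝ)..T, w t ^ (2 * (u + η)) := by
      refine le_trans ?_ a2
      have := mul_le_mul_of_nonneg_left p2 (by positivity : 0 ≤ T / 2)
      linarith
    have b2 : x ^ (2 * η) * (∫ t in (0:ℝ)..T, w t ^ (2 * u)) ≤ 2 * T * δ ^ (-(u + η) ^ 2 + 3 * η ^ 2 / 4) := by
      have h4 : (∫ t in (0:ℝ)..T, w t ^ (2 * u)) ≤ 2 * (T * δ ^ (-u ^ 2 - η ^ 2 / 4)) := by
        refine a1'.trans ?_
        have := mul_le_mul_of_nonneg_left p1' hTp.le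
        linarith
      calc x ^ (2 * η) * (∫ t in (0:ℝ)..T, w t ^ (2 * u)) ≤ x ^ (2 * η) * (2 * (T * δ ^ (-u ^ 2 - η ^ 2 / 4))) :=
            mul_le_mul_of_nonneg_left h4 (by positivity)
        _ = 2 * T * (x ^ (2 * η) * δ ^ (-u ^ 2 - η ^ 2 / 4)) := by ring
        _ = _ := by
          rw [hx, ← Real.rpow_mul hδ0.le, ← Real.rpow_add hδ0]
          congr 2; ring
    have b3 : δ ^ (2 * η * (u + 2 * η)) * (∫ t in (0:ℝ)..T, w t ^ (2 * (u + 2 * η))) ≤
        2 * T * δ ^ (-(u + η) ^ 2 + 3 * η ^ 2 / 4) := by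
      have h4 : (∫ t in (0:ℝ)..T, w t ^ (2 * (u + 2 * η))) ≤ 2 * (T * δ ^ (-(u + 2 * η) ^ 2 - η ^ 2 / 4)) := by
        refine a3'.trans ?_
        have := mul_le_mul_of_nonneg_left p3' hTp.le
        linarith
      calc δ ^ (2 * η * (u + 2 * η)) * (∫ t in (0:ℝ)..T, w t ^ (2 * (u + 2 * η))) ≤
            δ ^ (2 * η * (u + 2 * η)) * (2 * (T * δ ^ (-(u + 2 * η) ^ 2 - η ^ 2 / 4))) :=
            mul_le_mul_of_nonneg_left h4 (by positivity)
        _ = 2 * T * (δ ^ (2 * η * (u + 2 * η)) * δ ^ (-(u + 2 * η) ^ 2 - η ^ 2 / 4)) := by ring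
        _ = _ := by
          rw [← Real.rpow_add hδ0]
          congr 2; ring
    set Z := δ ^ (-(u + η) ^ 2 + η ^ 2 / 4) with hZ
    have hZ0 : 0 < Z := by positivity
    have e4 : δ ^ (-(u + η) ^ 2 + 3 * η ^ 2 / 4) = Z * δ ^ (η ^ 2 / 2) := by
      rw [hZ, ← Real.rpow_add hδ0]; congr 1; ring
    rw [e4] at b2 b3
    have b4 : Z * δ ^ (η ^ 2 / 2) ≤ Z * (1 / 16) := mul_le_mul_of_nonneg_left q1 hZ0.le
    have b5 : 2 * T * (Z * δ ^ (η ^ 2 / 2)) ≤ 2 * T * (Z * (1 / 16)) := mul_le_mul_of_nonneg_left b4 (by positivity)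
    have b6 : T / 4 * Z ≤ δ ^ (-(2 * (u + 2 * η) * (u + η))) * m := by nlinarith
    have b7 : T / 4 * (Z * δ ^ (2 * (u + 2 * η) * (u + η))) ≤ m := by
      have h5 := mul_le_mul_of_nonneg_right b6 (by positivity : 0 ≤ δ ^ (2 * (u + 2 * η) * (u + η)))
      have h6 : δ ^ (-(2 * (u + 2 * η) * (u + η))) * m * δ ^ (2 * (u + 2 * η) * (u + η)) = m := by
        have : δ ^ (-(2 * (u + 2 * η) * (u + η))) * δ ^ (2 * (u + 2 * η) * (u + η)) = 1 := by
          rw [← Real.rpow_add hδ0, neg_add_cancel, Real.rpow_zero]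
        calc _ = (δ ^ (-(2 * (u + 2 * η) * (u + η))) * δ ^ (2 * (u + 2 * η) * (u + η))) * m := by ring
          _ = m := by rw [this, one_mul]
      rw [h6] at h5
      calc _ = T / 4 * Z * δ ^ (2 * (u + 2 * η) * (u + η)) := by ring
        _ ≤ m := h5
    refine le_trans ?_ b7
    have e5 : Z * δ ^ (2 * (u + 2 * η) * (u + η)) = δ ^ (u ^ 2 + 4 * u * η + 3 * η ^ 2 + η ^ 2 / 4) := by
      rw [hZ, ← Real.rpow_add hδ0]; congr 1; ring
    rw [e5]
    have h8 : δ ^ (u ^ 2 + ε) ≤ δ ^ (ε / 8) * δ ^ (u ^ 2 + 4 * u * η + 3 * η ^ 2 + η ^ 2 / 4) := by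
      rw [← Real.rpow_add hδ0]
      refine anti _ _ ?_
      nlinarith
    have h9 : δ ^ (ε / 8) * δ ^ (u ^ 2 + 4 * u * η + 3 * η ^ 2 + η ^ 2 / 4) ≤
        1 / 4 * δ ^ (u ^ 2 + 4 * u * η + 3 * η ^ 2 + η ^ 2 / 4) := mul_le_mul_of_nonneg_right q2 (by positivity)
    calc T * δ ^ (u ^ 2 + ε) ≤ T * (1 / 4 * δ ^ (u ^ 2 + 4 * u * η + 3 * η ^ 2 + η ^ 2 / 4)) :=
          mul_le_mul_of_nonneg_left (h8.trans h9) hTp.le
      _ = _ := by ring
  · have c1 : x ^ (2 * u) * m ≤ 2 * (T * δ ^ (-u ^ 2 - η ^ 2 / 4)) := by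
      refine (hcher.trans a1').trans ?_
      have := mul_le_mul_of_nonneg_left p1' hTp.le
      linarith
    have c2 : m = δ ^ (2 * u ^ 2) * (x ^ (2 * u) * m) := by
      have : δ ^ (2 * u ^ 2) * x ^ (2 * u) = 1 := by
        rw [hx, ← Real.rpow_mul hδ0.le, ← Real.rpow_add hδ0,
          show 2 * u ^ 2 + -u * (2 * u) = 0 by ring, Real.rpow_zero]
      rw [← mul_assoc, this, one_mul]
    rw [c2]
    calc δ ^ (2 * u ^ 2) * (x ^ (2 * u) * m) ≤ δ ^ (2 * u ^ 2) * (2 * (T * δ ^ (-u ^ 2 - η ^ 2 / 4))) :=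
          mul_le_mul_of_nonneg_left c1 (by positivity)
      _ = T * (2 * (δ ^ (2 * u ^ 2) * δ ^ (-u ^ 2 - η ^ 2 / 4))) := by ring
      _ ≤ T * δ ^ (u ^ 2 - ε) := by
        refine mul_le_mul_of_nonneg_left ?_ hTp.le
        rw [← Real.rpow_add hδ0]
        have h8 : δ ^ (2 * u ^ 2 + (-u ^ 2 - η ^ 2 / 4)) ≤ δ ^ (ε / 8) * δ ^ (u ^ 2 - ε) := by
          rw [← Real.rpow_add hδ0]
          refine anti _ _ ?_
          nlinarith
        have h9 : δ ^ (ε / 8) * δ ^ (u ^ 2 - ε) ≤ 1 / 4 * δ ^ (u ^ 2 - ε) :=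
          mul_le_mul_of_nonneg_right q2 (by positivity)
        have h10 : 0 < δ ^ (u ^ 2 - ε) := by positivity
        linarith

end

end Pool.Agent.Y746.OA
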