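import Pool.Agent.Y746.OA.Core

set_option autoImplicit false

/-! The diagonal sums and the mean squares. -/

namespace Pool.Agent.Y746.OA

open Finset MeasureTheory
open Pool.Agent.H306R2

noncomputable section

/-- the sum `∑ d_α(n)^2 n^{-1-2δ}` -/
def SS (α δ : ℝ) : ℝ := ∑' n : ℕ, dv α n ^ 2 * (n:ℝ) ^ (-(2 * (1 / 2 + δ)))

lemma SS_term_nonneg (α δ : ℝ) (n : ℕ) : 0 ≤ dv α n ^ 2 * (n:ℝ) ^ (-(2 * (1 / 2 + δ))) := by positivity

lemma SS_summable (α : ℝ) {δ : ℝ} (hδ : 0 < δ) : Summable fun n : ℕ => dv α n ^ 2 * (n:ℝ) ^ (-(2 * (1 / 2 + δ))) := by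
  obtain ⟨K, hK⟩ := exists_nat_ge |α|
  refine Summable.of_nonneg_of_le (fun n => SS_term_nonneg α δ n) (fun n => ?_)
    (dvJ_summable (K ^ 2) (by positivity : 0 < 2 * δ))
  have h2 : dv α n ^ 2 ≤ dv ((K ^ 2 : ℕ) : ℝ) n := by
    have h3 : dv α n ^ 2 ≤ dv K n ^ 2 := by
      rw [← sq_abs]
      exact pow_le_pow_left₀ (abs_nonneg _) (dv_abs_le hK n) 2
    refine h3.trans ?_
    have := dv_sq_le (Nat.cast_nonneg K) n
    push_cast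
    exact this
  have e : -(2 * (1 / 2 + δ)) = -1 - 2 * δ := by ring
  rw [e]
  exact mul_le_mul_of_nonneg_right h2 (by positivity)

lemma SS_ge_one (α : ℝ) {δ : ℝ} (hδ : 0 < δ) : 1 ≤ SS α δ := by
  have h := (SS_summable α hδ).le_tsum 1 (fun n _ => SS_term_nonneg α δ n)
  simp only [dv_one, one_pow, Nat.cast_one, Real.one_rpow, mul_one] at h
  exact h

lemma SS_part_le (α : ℝ) {δ : ℝ} (hδ : 0 < δ) (F : Finset ℕ) :
    ∑ n ∈ F, dv α n ^ 2 * (n:ℝ) ^ (-(2 * (1 / 2 + δ))) ≤ SS α δ :=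
  (SS_summable α hδ).sum_le_tsum F fun n _ => SS_term_nonneg α δ n

lemma SS_tail {α : ℝ} {K : ℕ} (hK : |α| ≤ K) {δ : ℝ} (hδ : 0 < δ) (hδ1 : δ ≤ 1) {N : ℕ} (hN : 1 ≤ N) :
    SS α δ ≤ (∑ n ∈ Icc 1 N, dv α n ^ 2 * (n:ℝ) ^ (-(2 * (1 / 2 + δ)))) + (N:ℝ) ^ (-δ) * (2 / δ) ^ (K ^ 2) := by
  refine (SS_summable α hδ).tsum_le_of_sum_le fun F => ?_
  have h1 : ∑ n ∈ F, dv α n ^ 2 * (n:ℝ) ^ (-(2 * (1 / 2 + δ))) =
      ∑ n ∈ F.filter (fun n => n ∈ Icc 1 N), dv α n ^ 2 * (n:ℝ) ^ (-(2 * (1 / 2 + δ))) +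
      ∑ n ∈ F.filter (fun n => ¬ n ∈ Icc 1 N), dv α n ^ 2 * (n:ℝ) ^ (-(2 * (1 / 2 + δ))) :=
    (sum_filter_add_sum_filter_not _ _ _).symm
  rw [h1]
  refine add_le_add ?_ ?_
  · exact sum_le_sum_of_subset_of_nonneg (fun n hn => (mem_filter.mp hn).2) fun n _ _ => SS_term_nonneg α δ n
  · have h2 : ∑ n ∈ F.filter (fun n => ¬ n ∈ Icc 1 N), dv α n ^ 2 * (n:ℝ) ^ (-(2 * (1 / 2 + δ))) =
        ∑ n ∈ (F.filter (fun n => ¬ n ∈ Icc 1 N)).filter (fun n => n ≠ 0), dv α n ^ 2 * (n:ℝ) ^ (-(2 * (1 / 2 + δ))) := by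
      rw [sum_filter (fun n => n ≠ 0)]
      refine sum_congr rfl fun n _ => ?_
      split_ifs with h
      · rfl
      · push Not at h
        subst h
        simp [dv]
    rw [h2]
    refine tail_sq (fun n => dv_abs_le hK n) hN hδ hδ1 fun n hn => ?_
    rw [mem_filter, mem_filter, mem_Icc] at hn
    omega

lemma N_cast_sq (N : ℕ) : ((N * N : ℕ) : ℝ) = (N:ℝ) ^ 2 := by push_cast; ring

/-- all the mean squares, for exponents at most `k` in absolute value -/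
lemma ms_all {k : ℕ} {N : ℕ} (hN : 1 ≤ N) {δ : ℝ} (hδ : 0 < δ) (hδ1 : δ ≤ 1) {T : ℝ} (hT : 0 ≤ T) :
    (∀ a b : ℝ, |a| ≤ k → |b| ≤ k → GG N a b δ T ≤
      T * ((N:ℝ) ^ (-δ) * (2 / δ) ^ ((2 * k) ^ 2)) + 4 * (N:ℝ) ^ (2 * (4 * k + 3))) ∧
    (∀ a : ℝ, |a| ≤ k → I2 N a δ T ≤ T * (2 / δ) ^ ((2 * k) ^ 2) + 4 * (N:ℝ) ^ (2 * (4 * k + 3))) ∧
    (∀ a : ℝ, |a| ≤ k → I4 N a δ T ≤ T * (2 / δ) ^ ((2 * k) ^ 2) + 4 * (N:ℝ) ^ (2 * (4 * k + 3))) ∧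
    (∀ a : ℝ, |a| ≤ k → |I2 N a δ T - T * SS a δ| ≤
      T * ((N:ℝ) ^ (-δ) * (2 / δ) ^ ((2 * k) ^ 2)) + 4 * (N:ℝ) ^ (2 * (4 * k + 3))) := by
  have hN1 : (1:ℝ) ≤ N := by exact_mod_cast hN
  have hNN : 1 ≤ N * N := Nat.one_le_iff_ne_zero.mpr (by positivity)
  have h2δ : 1 ≤ 2 / δ := by rw [le_div_iff₀ hδ]; linarith
  have ec : ((k:ℝ) + k) = ((2 * k : ℕ) : ℝ) := by push_cast; ring
  have hkk : (k:ℝ) ≤ ((2 * k : ℕ) : ℝ) := by push_cast; linarith [(Nat.cast_nonneg k : (0:ℝ) ≤ k)]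
  have eM : (((N * N : ℕ)) : ℝ) ^ (2 * (2 * k) + 3) = (N:ℝ) ^ (2 * (4 * k + 3)) := by
    rw [N_cast_sq, ← pow_mul]; congr 1; ring
  have hsm : (N:ℝ) ^ (2 * (2 * k) + 3) ≤ (N:ℝ) ^ (2 * (4 * k + 3)) := pow_le_pow_right₀ hN1 (by omega)
  refine ⟨?_, ?_, ?_, ?_⟩
  · intro a b ha hb
    have h := ms_tail (K := 2 * k) (g := gd N a b) (fun n => by
      have := gd_abs (N := N) ha hb n
      rwa [ec] at this) (N := N) (M := N * N) hN (fun n hn => gd_low hn.le a b) hδ hδ1 hT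
    unfold GG sp
    simp_rw [gd_eval hN] at h
    rw [eM] at h
    exact h
  · intro a ha
    have h := ms_tail (K := 2 * k) (g := fun n => tr N (dA a) n) (fun n => by
      refine (tr_abs_le (B := dA (|a|)) (fun n => dv_abs a n) n).trans ?_
      exact dv_mono (abs_nonneg _) (ha.trans hkk) n) (N := 1) (M := N) le_rfl (fun n hn => by
        have : n = 0 := by omega
        subst this; simp) hδ hδ1 hT
    rw [Nat.cast_one, Real.one_rpow, one_mul] at h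
    unfold I2 sp Dy
    linarith
  · intro a ha
    have h := ms_tail (K := 2 * k) (g := fun n => (tr N (dA a) * tr N (dA a)) n) (fun n => by
      have := mul_abs_le (A := tr N (dA a)) (B := tr N (dA a)) (A' := dA k) (B' := dA k)
        (tr_abs_le (fun n => dv_abs_le ha n)) (tr_abs_le (fun n => dv_abs_le ha n)) n
      rw [dA_mul, ec] at this
      exact this) (N := 1) (M := N * N) le_rfl (fun n hn => by
        have : n = 0 := by omega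
        subst this; simp) hδ hδ1 hT
    rw [Nat.cast_one, Real.one_rpow, one_mul, eM] at h
    unfold I4
    have e1 : ∀ t : ℝ, ‖Dy N a (sp δ t)‖ ^ 4 =
        ‖Dp (fun n => (tr N (dA a) * tr N (dA a)) n) ((N * N : ℕ) : ℝ) (((1 / 2 + δ : ℝ) : ℂ) + (t : ℂ) * Complex.I)‖ ^ 2 := by
      intro t
      have h2 := (Dp_mul (tr N (dA a)) (tr N (dA a)) N N (by positivity) (by positivity) (tr_vanish N _)
        (tr_vanish N _) (sp δ t)).2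
      have h3 : Dp (fun n => (tr N (dA a) * tr N (dA a)) n) ((N * N : ℕ) : ℝ) (((1 / 2 + δ : ℝ) : ℂ) + (t : ℂ) * Complex.I) =
          Dy N a (sp δ t) * Dy N a (sp δ t) := by
        rw [Nat.cast_mul]
        exact h2
      rw [h3, norm_mul]
      ring
    simp_rw [e1]
    exact h
  · intro a ha
    have h := mvD (fun n => tr N (dA a) n) N (σ := 1 / 2 + δ) (by linarith) 0 T
    rw [sub_zero] at h
    have hg : ∀ n, |tr N (dA a) n| ≤ dv ((2 * k : ℕ) : ℝ) n := fun n => by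
      refine (tr_abs_le (B := dA (|a|)) (fun n => dv_abs a n) n).trans ?_
      exact dv_mono (abs_nonneg _) (ha.trans hkk) n
    have h6 := l1_poly hg N
    have h5 : 4 * (N:ℝ) * (∑ n ∈ Icc 1 N, |tr N (dA a) n|) ^ 2 ≤ 4 * (N:ℝ) ^ (2 * (4 * k + 3)) := by
      calc 4 * (N:ℝ) * (∑ n ∈ Icc 1 N, |tr N (dA a) n|) ^ 2 ≤ 4 * (N:ℝ) * ((N:ℝ) ^ (2 * k + 1)) ^ 2 := by gcongr
        _ = 4 * (N:ℝ) ^ (2 * (2 * k) + 3) := by ring
        _ ≤ _ := by linarith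
    have e2 : ∑ n ∈ Icc 1 N, tr N (dA a) n ^ 2 * (n:ℝ) ^ (-(2 * (1 / 2 + δ))) =
        ∑ n ∈ Icc 1 N, dv a n ^ 2 * (n:ℝ) ^ (-(2 * (1 / 2 + δ))) := by
      refine sum_congr rfl fun n hn => ?_
      rw [mem_Icc] at hn
      rw [tr_apply, if_pos hn.2, dA_apply]
    rw [e2] at h
    have h7 := SS_part_le a hδ (Icc 1 N)
    have h8 := SS_tail (K := 2 * k) (ha.trans hkk) hδ hδ1 hN
    have h9 := h.trans h5
    obtain ⟨h10, h11⟩ := abs_le.mp h9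
    have a1 := mul_le_mul_of_nonneg_left h7 hT
    have a2 := mul_le_mul_of_nonneg_left h8 hT
    have e3 : I2 N a δ T = ∫ t in (0:ℝ)..T, ‖Dp (fun n => tr N (dA a) n) N (((1 / 2 + δ : ℝ) : ℂ) + (t : ℂ) * Complex.I)‖ ^ 2 := rfl
    rw [← e3] at h10 h11
    have p1 : 0 ≤ T * ((N:ℝ) ^ (-δ) * (2 / δ) ^ ((2 * k) ^ 2)) := by positivity
    rw [abs_le]
    constructor <;> nlinarith

end

end Pool.Agent.Y746.OA
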