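import Pool.Agent.W184.MV

set_option autoImplicit false

/-! A bilinear mean value theorem for finite Dirichlet polynomials. -/

namespace Pool.Agent.Y746.OA

open MeasureTheory Finset Complex

lemma norm_int_exp {x : ℝ} (hx : x ≠ 0) (A B : ℝ) :
    ‖∫ t in A..B, Complex.exp (((x : ℂ) * Complex.I) * t)‖ ≤ 2 / |x| := by
  have hc : (x : ℂ) * Complex.I ≠ 0 := mul_ne_zero (by exact_mod_cast hx) Complex.I_ne_zero
  rw [integral_exp_mul_complex hc, norm_div, norm_mul, Complex.norm_I, mul_one, Complex.norm_real,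
    Real.norm_eq_abs]
  refine div_le_div_of_nonneg_right ?_ (abs_nonneg x)
  have h : ∀ y : ℝ, ‖Complex.exp ((x : ℂ) * Complex.I * y)‖ = 1 := by
    intro y
    rw [show (x : ℂ) * Complex.I * y = ((x * y : ℝ) : ℂ) * Complex.I by push_cast; ring]
    exact Complex.norm_exp_ofReal_mul_I _
  refine (norm_sub_le _ _).trans ?_
  rw [h, h]; norm_num

lemma log_gap2 {m n N : ℕ} (hm : 1 ≤ m) (hn : 1 ≤ n) (hnN : n ≤ N) (h : m ≠ n) :
    1 / (2 * (N:ℝ)) ≤ |Real.log n - Real.log m| := by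
  have m0 : (0:ℝ) < m := by exact_mod_cast hm
  have n0 : (1:ℝ) ≤ n := by exact_mod_cast hn
  have hN : (n:ℝ) ≤ N := by exact_mod_cast hnN
  rcases lt_or_gt_of_ne h with h1 | h1
  · have h2 := Pool.Agent.W184.log_gap hm h1
    have h3 : (1:ℝ) ≤ (n:ℝ) - m := by
      have : (m:ℝ) + 1 ≤ n := by exact_mod_cast h1
      linarith
    refine le_trans ?_ (le_abs_self _)
    refine le_trans ?_ h2
    exact div_le_div₀ (by linarith) h3 (by linarith) (by linarith)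
  · have h3 : (n:ℝ) + 1 ≤ m := by exact_mod_cast h1
    have h2 := Pool.Agent.W184.log_gap hn (Nat.lt_succ_self n)
    push_cast at h2
    have h4 : Real.log ((n:ℝ) + 1) ≤ Real.log m := Real.log_le_log (by linarith) h3
    rw [abs_sub_comm]
    refine le_trans ?_ (le_abs_self _)
    refine le_trans ?_ (h2.trans (by linarith))
    have e : ((n:ℝ) + 1 - n) = 1 := by ring
    rw [e]
    exact div_le_div₀ (by norm_num) le_rfl (by linarith) (by linarith)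

lemma cpow_it {m : ℕ} (hm : 1 ≤ m) (t : ℝ) :
    (m : ℂ) ^ (-((t : ℂ) * Complex.I)) = Complex.exp (((-(Real.log m) : ℝ) : ℂ) * Complex.I * t) := by
  have mc : (m:ℂ) ≠ 0 := by exact_mod_cast (by omega : m ≠ 0)
  rw [Complex.cpow_def_of_ne_zero mc, ← Complex.natCast_log]
  congr 1
  push_cast
  ring

lemma term_int {m n N : ℕ} (hm : 1 ≤ m) (hn : 1 ≤ n) (hnN : n ≤ N) (A B : ℝ) :
    ‖(∫ t in A..B, (m : ℂ) ^ (-((t : ℂ) * Complex.I)) * (starRingEnd ℂ) ((n : ℂ) ^ (-((t : ℂ) * Complex.I)))) -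
      (if m = n then ((B - A : ℝ) : ℂ) else 0)‖ ≤ 4 * N := by
  have hN0 : (0:ℝ) ≤ N := Nat.cast_nonneg N
  have e1 : ∀ t : ℝ, (m : ℂ) ^ (-((t : ℂ) * Complex.I)) * (starRingEnd ℂ) ((n : ℂ) ^ (-((t : ℂ) * Complex.I))) =
      Complex.exp ((((Real.log n - Real.log m) : ℝ) : ℂ) * Complex.I * t) := by
    intro t
    rw [cpow_it hm, cpow_it hn, ← Complex.exp_conj, ← Complex.exp_add]
    congr 1
    simp only [map_mul, Complex.conj_ofReal, Complex.conj_I]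
    push_cast
    ring
  simp_rw [e1]
  by_cases h : m = n
  · subst h
    simp
  · rw [if_neg h, sub_zero]
    have h4 := log_gap2 hm hn hnN h
    have hNp : (0:ℝ) < N := by exact_mod_cast (by omega : 0 < N)
    have h0 : Real.log n - Real.log m ≠ 0 := by
      intro h5
      rw [h5, abs_zero] at h4
      have : 0 < 1 / (2 * (N:ℝ)) := by positivity
      linarith
    refine (norm_int_exp h0 A B).trans ?_
    rw [div_le_iff₀ (by positivity)]
    calc (2:ℝ) = 4 * N * (1 / (2 * N)) := by field_simp; norm_num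
      _ ≤ _ := mul_le_mul_of_nonneg_left h4 (by positivity)

/-- the bilinear mean value theorem -/
theorem mvb (a b : ℕ → ℝ) (M N : ℕ) (A B : ℝ) :
    ‖(∫ t in A..B, (∑ m ∈ Icc 1 M, (a m : ℂ) * (m : ℂ) ^ (-((t : ℂ) * Complex.I))) *
        (starRingEnd ℂ) (∑ n ∈ Icc 1 N, (b n : ℂ) * (n : ℂ) ^ (-((t : ℂ) * Complex.I)))) -
      (((B - A) * ∑ n ∈ Icc 1 N, (if n ≤ M then a n * b n else 0) : ℝ) : ℂ)‖ ≤
    4 * N * ((∑ m ∈ Icc 1 M, |a m|) * ∑ n ∈ Icc 1 N, |b n|) := by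
  have hcont : ∀ m : ℕ, 1 ≤ m → Continuous fun t : ℝ => (m : ℂ) ^ (-((t : ℂ) * Complex.I)) := by
    intro m hm
    have : (fun t : ℝ => (m : ℂ) ^ (-((t : ℂ) * Complex.I))) =
        fun t : ℝ => Complex.exp (((-(Real.log m) : ℝ) : ℂ) * Complex.I * t) := by
      funext t; exact cpow_it hm t
    rw [this]
    fun_prop
  have e1 : ∀ t : ℝ, (∑ m ∈ Icc 1 M, (a m : ℂ) * (m : ℂ) ^ (-((t : ℂ) * Complex.I))) *
        (starRingEnd ℂ) (∑ n ∈ Icc 1 N, (b n : ℂ) * (n : ℂ) ^ (-((t : ℂ) * Complex.I))) =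
      ∑ n ∈ Icc 1 N, ∑ m ∈ Icc 1 M, ((a m * b n : ℝ) : ℂ) *
        ((m : ℂ) ^ (-((t : ℂ) * Complex.I)) * (starRingEnd ℂ) ((n : ℂ) ^ (-((t : ℂ) * Complex.I)))) := by
    intro t
    rw [map_sum, sum_mul_sum, sum_comm]
    refine sum_congr rfl fun n _ => sum_congr rfl fun m _ => ?_
    rw [map_mul, Complex.conj_ofReal]
    push_cast
    ring
  simp_rw [e1]
  have hc2 : ∀ n ∈ Icc 1 N, ∀ m ∈ Icc 1 M, Continuous (fun t : ℝ => ((a m * b n : ℝ) : ℂ) *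
        ((m : ℂ) ^ (-((t : ℂ) * Complex.I)) * (starRingEnd ℂ) ((n : ℂ) ^ (-((t : ℂ) * Complex.I))))) := by
    intro n hn m hm
    rw [mem_Icc] at hn hm
    exact continuous_const.mul ((hcont m hm.1).mul (Complex.continuous_conj.comp (hcont n hn.1)))
  have hint : ∀ n ∈ Icc 1 N, ∀ m ∈ Icc 1 M, IntervalIntegrable (fun t : ℝ => ((a m * b n : ℝ) : ℂ) *
        ((m : ℂ) ^ (-((t : ℂ) * Complex.I)) * (starRingEnd ℂ) ((n : ℂ) ^ (-((t : ℂ) * Complex.I))))) volume A B :=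
    fun n hn m hm => (hc2 n hn m hm).intervalIntegrable _ _
  rw [intervalIntegral.integral_finsetSum (fun n hn => Continuous.intervalIntegrable
    (continuous_finsetSum _ fun m hm => hc2 n hn m hm) _ _)]
  have e2 : ∀ n ∈ Icc 1 N, ∫ t in A..B, ∑ m ∈ Icc 1 M, ((a m * b n : ℝ) : ℂ) *
        ((m : ℂ) ^ (-((t : ℂ) * Complex.I)) * (starRingEnd ℂ) ((n : ℂ) ^ (-((t : ℂ) * Complex.I)))) =
      ∑ m ∈ Icc 1 M, ((a m * b n : ℝ) : ℂ) * ∫ t in A..B,
        ((m : ℂ) ^ (-((t : ℂ) * Complex.I)) * (starRingEnd ℂ) ((n : ℂ) ^ (-((t : ℂ) * Complex.I)))) := by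
    intro n hn
    rw [intervalIntegral.integral_finsetSum (fun m hm => hint n hn m hm)]
    exact sum_congr rfl fun m _ => intervalIntegral.integral_const_mul _ _
  rw [sum_congr rfl e2]
  have e3 : (((B - A) * ∑ n ∈ Icc 1 N, (if n ≤ M then a n * b n else 0) : ℝ) : ℂ) =
      ∑ n ∈ Icc 1 N, ∑ m ∈ Icc 1 M, ((a m * b n : ℝ) : ℂ) * (if m = n then ((B - A : ℝ) : ℂ) else 0) := by
    rw [mul_sum, Complex.ofReal_sum]
    refine sum_congr rfl fun n hn => ?_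
    rw [mem_Icc] at hn
    simp_rw [mul_ite, mul_zero]
    rw [sum_ite_eq' (Icc 1 M) n]
    by_cases h : n ≤ M
    · rw [if_pos h, if_pos (mem_Icc.mpr ⟨hn.1, h⟩)]
      push_cast; ring
    · rw [if_neg h, if_neg (by rw [mem_Icc]; omega)]
      simp
  rw [e3, ← sum_sub_distrib]
  simp_rw [← sum_sub_distrib, ← mul_sub]
  have e4 : 4 * (N:ℝ) * ((∑ m ∈ Icc 1 M, |a m|) * ∑ n ∈ Icc 1 N, |b n|) =
      ∑ n ∈ Icc 1 N, ∑ m ∈ Icc 1 M, |a m * b n| * (4 * N) := by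
    rw [sum_mul_sum, sum_comm, mul_sum]
    refine sum_congr rfl fun n _ => ?_
    rw [mul_sum]
    refine sum_congr rfl fun m _ => ?_
    rw [abs_mul]; ring
  rw [e4]
  refine (norm_sum_le _ _).trans (sum_le_sum fun n hn => ?_)
  refine (norm_sum_le _ _).trans (sum_le_sum fun m hm => ?_)
  rw [norm_mul, Complex.norm_real, Real.norm_eq_abs]
  rw [mem_Icc] at hn hm
  exact mul_le_mul_of_nonneg_left (term_int hm.1 hn.1 hn.2 A B) (abs_nonneg _)

/-- the mean value theorem -/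
theorem mvs (a : ℕ → ℝ) (N : ℕ) (A B : ℝ) :
    |(∫ t in A..B, ‖∑ m ∈ Icc 1 N, (a m : ℂ) * (m : ℂ) ^ (-((t : ℂ) * Complex.I))‖ ^ 2) -
      (B - A) * ∑ n ∈ Icc 1 N, a n ^ 2| ≤ 4 * N * (∑ m ∈ Icc 1 N, |a m|) ^ 2 := by
  have h := mvb a a N N A B
  have e1 : ∀ t : ℝ, (∑ m ∈ Icc 1 N, (a m : ℂ) * (m : ℂ) ^ (-((t : ℂ) * Complex.I))) *
        (starRingEnd ℂ) (∑ n ∈ Icc 1 N, (a n : ℂ) * (n : ℂ) ^ (-((t : ℂ) * Complex.I))) =
      ((‖∑ m ∈ Icc 1 N, (a m : ℂ) * (m : ℂ) ^ (-((t : ℂ) * Complex.I))‖ ^ 2 : ℝ) : ℂ) := by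
    intro t
    rw [Complex.mul_conj, Complex.normSq_eq_norm_sq]
  simp_rw [e1] at h
  have e2 : ∑ n ∈ Icc 1 N, (if n ≤ N then a n * a n else 0) = ∑ n ∈ Icc 1 N, a n ^ 2 := by
    refine sum_congr rfl fun n hn => ?_
    rw [mem_Icc] at hn
    rw [if_pos hn.2, sq]
  rw [e2, intervalIntegral.integral_ofReal, ← Complex.ofReal_sub, Complex.norm_real, Real.norm_eq_abs, ← sq] at h
  exact h

end Pool.Agent.Y746.OA
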