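import Pool.Agent.H306R2.EP
import Pool.Agent.Y705.QT0
import Pool.Agent.Y746.OA.MV

set_option autoImplicit false

/-! Truncated generalised divisor polynomials. -/

namespace Pool.Agent.Y746.OA

open Finset MeasureTheory
open Pool.Agent.H306R2

noncomputable section

lemma Dp_natCast (g : ℕ → ℝ) (N : ℕ) (s : ℂ) : Dp g N s = ∑ m ∈ Icc 1 N, (g m : ℂ) * (m : ℂ) ^ (-s) := by
  unfold Dp
  rw [Nat.floor_natCast]

lemma Dp_sub (g h : ℕ → ℝ) (X : ℝ) (s : ℂ) : Dp (fun n => g n - h n) X s = Dp g X s - Dp h X s := by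
  unfold Dp
  rw [← sum_sub_distrib]
  refine sum_congr rfl fun n _ => ?_
  push_cast; ring

lemma cpow_split {n : ℕ} (hn : 1 ≤ n) (σ t : ℝ) :
    (n : ℂ) ^ (-((σ : ℂ) + (t : ℂ) * Complex.I)) = (((n:ℝ) ^ (-σ) : ℝ) : ℂ) * (n : ℂ) ^ (-((t : ℂ) * Complex.I)) := by
  have hn0 : (n:ℂ) ≠ 0 := by exact_mod_cast (by omega : n ≠ 0)
  rw [Complex.ofReal_cpow (by positivity), neg_add, Complex.cpow_add _ _ hn0]
  push_cast
  rfl

lemma Dp_line (g : ℕ → ℝ) (N : ℕ) (σ t : ℝ) : Dp g N ((σ : ℂ) + (t : ℂ) * Complex.I) =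
    ∑ m ∈ Icc 1 N, ((g m * (m:ℝ) ^ (-σ) : ℝ) : ℂ) * (m : ℂ) ^ (-((t : ℂ) * Complex.I)) := by
  rw [Dp_natCast]
  refine sum_congr rfl fun m hm => ?_
  rw [mem_Icc] at hm
  rw [cpow_split hm.1]
  push_cast; ring

lemma rpow_neg_le1 {n : ℕ} (hn : 1 ≤ n) {σ : ℝ} (hσ : 0 ≤ σ) : (n:ℝ) ^ (-σ) ≤ 1 :=
  Real.rpow_le_one_of_one_le_of_nonpos (by exact_mod_cast hn) (by linarith)

/-- mean value theorem on a vertical line -/
theorem mvD (g : ℕ → ℝ) (N : ℕ) {σ : ℝ} (hσ : 0 ≤ σ) (A B : ℝ) :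
    |(∫ t in A..B, ‖Dp g N ((σ : ℂ) + (t : ℂ) * Complex.I)‖ ^ 2) -
      (B - A) * ∑ n ∈ Icc 1 N, g n ^ 2 * (n:ℝ) ^ (-(2 * σ))| ≤ 4 * N * (∑ n ∈ Icc 1 N, |g n|) ^ 2 := by
  simp_rw [Dp_line]
  have h := mvs (fun n => g n * (n:ℝ) ^ (-σ)) N A B
  have e1 : ∑ n ∈ Icc 1 N, (g n * (n:ℝ) ^ (-σ)) ^ 2 = ∑ n ∈ Icc 1 N, g n ^ 2 * (n:ℝ) ^ (-(2 * σ)) := by
    refine sum_congr rfl fun n _ => ?_
    rw [mul_pow, ← Real.rpow_natCast ((n:ℝ) ^ (-σ)), ← Real.rpow_mul (by positivity)]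
    congr 2
    push_cast; ring
  rw [e1] at h
  refine h.trans ?_
  refine mul_le_mul_of_nonneg_left ?_ (by positivity)
  refine pow_le_pow_left₀ (sum_nonneg fun _ _ => abs_nonneg _) (sum_le_sum fun n hn => ?_) 2
  rw [mem_Icc] at hn
  rw [abs_mul, abs_of_nonneg (by positivity : (0:ℝ) ≤ (n:ℝ) ^ (-σ))]
  exact mul_le_of_le_one_right (abs_nonneg _) (rpow_neg_le1 hn.1 hσ)

/-- truncation -/
def tr (N : ℕ) (A : ArithmeticFunction ℝ) : ArithmeticFunction ℝ := ⟨fun n => if n ≤ N then A n else 0, by simp⟩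

lemma tr_apply (N : ℕ) (A : ArithmeticFunction ℝ) (n : ℕ) : tr N A n = if n ≤ N then A n else 0 := rfl

lemma tr_vanish (N : ℕ) (A : ArithmeticFunction ℝ) : ∀ n : ℕ, (N:ℝ) < n → tr N A n = 0 := by
  intro n hn
  rw [tr_apply, if_neg (not_le.mpr (by exact_mod_cast hn))]

lemma tr_abs_le {N : ℕ} {A B : ArithmeticFunction ℝ} (h : ∀ n, |A n| ≤ B n) (n : ℕ) : |tr N A n| ≤ B n := by
  rw [tr_apply]
  split_ifs
  · exact h n
  · rw [abs_zero]; exact (abs_nonneg _).trans (h n)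

lemma div_le_of_mem {n : ℕ} {x : ℕ × ℕ} (hx : x ∈ n.divisorsAntidiagonal) : x.1 ≤ n ∧ x.2 ≤ n := by
  rw [Nat.mem_divisorsAntidiagonal] at hx
  have hn : 0 < n := Nat.pos_of_ne_zero hx.2
  exact ⟨Nat.le_of_dvd hn ⟨x.2, hx.1.symm⟩, Nat.le_of_dvd hn ⟨x.1, by rw [mul_comm]; exact hx.1.symm⟩⟩

lemma tr_mul_low {N n : ℕ} (hn : n ≤ N) (A B : ArithmeticFunction ℝ) : (tr N A * tr N B) n = (A * B) n := by
  rw [ArithmeticFunction.mul_apply, ArithmeticFunction.mul_apply]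
  refine sum_congr rfl fun x hx => ?_
  have := div_le_of_mem hx
  rw [tr_apply, tr_apply, if_pos (by omega), if_pos (by omega)]

lemma mul_abs_le {A B A' B' : ArithmeticFunction ℝ} (hA : ∀ n, |A n| ≤ A' n) (hB : ∀ n, |B n| ≤ B' n) (n : ℕ) :
    |(A * B) n| ≤ (A' * B') n := by
  rw [ArithmeticFunction.mul_apply, ArithmeticFunction.mul_apply]
  refine (abs_sum_le_sum_abs _ _).trans (sum_le_sum fun x _ => ?_)
  rw [abs_mul]
  exact mul_le_mul (hA _) (hB _) (abs_nonneg _) ((abs_nonneg _).trans (hA _))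

lemma lc_abs (α : ℝ) (m : ℕ) : |lc α m| ≤ lc |α| m := by
  unfold lc
  rw [Finset.abs_prod]
  refine Finset.prod_le_prod (fun i _ => abs_nonneg _) fun i _ => ?_
  have hi : (0:ℝ) < (i:ℝ) + 1 := by positivity
  rw [abs_div, abs_of_pos hi]
  refine div_le_div_of_nonneg_right ?_ hi.le
  refine (abs_add_le _ _).trans ?_
  rw [abs_of_nonneg (Nat.cast_nonneg i : (0:ℝ) ≤ i)]

lemma dv_abs (α : ℝ) (n : ℕ) : |dv α n| ≤ dv |α| n := by
  unfold dv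
  split_ifs
  · simp
  · unfold Finsupp.prod
    rw [Finset.abs_prod]
    exact Finset.prod_le_prod (fun p _ => abs_nonneg _) fun p _ => lc_abs _ _

lemma dv_abs_le {α K : ℝ} (h : |α| ≤ K) (n : ℕ) : |dv α n| ≤ dv K n :=
  (dv_abs α n).trans (dv_mono (abs_nonneg _) h n)

/-- the polynomials -/
def Dy (N : ℕ) (y : ℝ) (s : ℂ) : ℂ := Dp (tr N (dA y)) N s

lemma Dy_zero {N : ℕ} (hN : 1 ≤ N) (s : ℂ) : Dy N 0 s = 1 := by
  unfold Dy
  rw [Dp_natCast, sum_eq_single 1]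
  · rw [tr_apply, if_pos hN, dA_apply, dv_one]; simp
  · intro n hn h1
    rw [tr_apply, dA_zero, ArithmeticFunction.one_apply_ne h1]; simp
  · intro h
    exact absurd (mem_Icc.mpr ⟨le_rfl, hN⟩) h

/-- coefficients of `D_{a+b} - D_a D_b` -/
def gd (N : ℕ) (a b : ℝ) (n : ℕ) : ℝ := tr N (dA (a + b)) n - (tr N (dA a) * tr N (dA b)) n

lemma gd_eval {N : ℕ} (hN : 1 ≤ N) (a b : ℝ) (s : ℂ) :
    Dp (gd N a b) ((N * N : ℕ) : ℝ) s = Dy N (a + b) s - Dy N a s * Dy N b s := by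
  unfold gd
  rw [Dp_sub]
  have hle : ((N : ℕ) : ℝ) ≤ ((N * N : ℕ) : ℝ) := by exact_mod_cast Nat.le_mul_of_pos_left N hN
  rw [Dp_mono _ _ _ hle (tr_vanish N _)]
  have h := (Dp_mul (tr N (dA a)) (tr N (dA b)) N N (by positivity) (by positivity) (tr_vanish N _) (tr_vanish N _) s).2
  rw [Nat.cast_mul, h]
  rfl

lemma gd_low {N n : ℕ} (hn : n ≤ N) (a b : ℝ) : gd N a b n = 0 := by
  unfold gd
  rw [tr_mul_low hn, dA_mul, tr_apply, if_pos hn, sub_self]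

lemma gd_abs {N : ℕ} {K a b : ℝ} (ha : |a| ≤ K) (hb : |b| ≤ K) (n : ℕ) : |gd N a b n| ≤ dv (K + K) n := by
  rcases le_or_gt n N with h | h
  · rw [gd_low h, abs_zero]
    exact dv_nonneg (by linarith [(abs_nonneg a).trans ha]) n
  · unfold gd
    rw [tr_apply, if_neg (by omega), zero_sub, abs_neg]
    have := mul_abs_le (A := tr N (dA a)) (B := tr N (dA b)) (A' := dA K) (B' := dA K)
      (tr_abs_le (fun n => dv_abs_le ha n)) (tr_abs_le (fun n => dv_abs_le hb n)) n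
    rwa [dA_mul] at this

/-- polynomial growth -/
lemma dv_poly {K : ℕ} (n : ℕ) : dv K n ≤ (n:ℝ) ^ K := by
  have h := PB_dA (α := (K:ℝ)) (J := K) (Nat.cast_nonneg K) le_rfl n
  exact (le_abs_self _).trans h

lemma l1_poly {g : ℕ → ℝ} {K : ℕ} (hg : ∀ n, |g n| ≤ dv K n) (M : ℕ) :
    ∑ n ∈ Icc 1 M, |g n| ≤ (M:ℝ) ^ (K + 1) := by
  have h1 : ∀ n ∈ Icc 1 M, |g n| ≤ (M:ℝ) ^ K := by
    intro n hn
    rw [mem_Icc] at hn
    refine ((hg n).trans (dv_poly n)).trans ?_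
    exact pow_le_pow_left₀ (by positivity) (by exact_mod_cast hn.2) K
  refine (sum_le_card_nsmul _ _ _ h1).trans (le_of_eq ?_)
  rw [Nat.card_Icc, nsmul_eq_mul, pow_succ]
  simp only [Nat.add_sub_cancel]
  ring

/-- the sum of the coefficients of `ζ^J` -/
lemma dvJ_sum (J : ℕ) {δ : ℝ} (hδ : 0 < δ) (hδ1 : δ ≤ 1) (F : Finset ℕ) :
    ∑ n ∈ F, dv J n * (n:ℝ) ^ (-1 - δ) ≤ (2 / δ) ^ J := by
  have hz := zetaA_hasSum J 1 1 (by
    intro n hn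
    rw [ArithmeticFunction.one_apply_ne]
    rintro rfl
    simp at hn) ((1 + δ : ℝ) : ℂ) (by simp [hδ])
  have hD : Dp (1 : ArithmeticFunction ℝ) 1 ((1 + δ : ℝ) : ℂ) = 1 := by
    unfold Dp; simp
  rw [hD] at hz
  simp only [mul_one] at hz
  have hre := Complex.hasSum_re hz
  have e1 : ∀ n : ℕ, (((zR ^ J : ArithmeticFunction ℝ) n : ℂ) * (n : ℂ) ^ (-((1 + δ : ℝ) : ℂ))).re =
      dv J n * (n:ℝ) ^ (-1 - δ) := by
    intro n
    rw [← dA_nat, dA_apply]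
    have : (n : ℂ) ^ (-((1 + δ : ℝ) : ℂ)) = (((n:ℝ) ^ (-1 - δ) : ℝ) : ℂ) := by
      rw [Complex.ofReal_cpow (by positivity)]
      push_cast
      congr 1
      ring
    rw [this, ← Complex.ofReal_mul, Complex.ofReal_re]
  have hre2 : HasSum (fun n : ℕ => dv J n * (n:ℝ) ^ (-1 - δ)) (riemannZeta ((1 + δ : ℝ) : ℂ) ^ J).re :=
    HasSum.congr_fun hre (fun n => (e1 n).symm)
  have h1 := sum_le_hasSum F (fun n _ => mul_nonneg (dv_nonneg (Nat.cast_nonneg J) n) (by positivity)) hre2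
  refine h1.trans ((Complex.re_le_norm _).trans ?_)
  rw [norm_pow]
  refine pow_le_pow_left₀ (norm_nonneg _) ?_ J
  have h2 : riemannZeta ((1 + δ : ℝ) : ℂ) = ((∑' n : ℕ, (n:ℝ) ^ (-(1 + δ)) : ℝ) : ℂ) := by
    rw [zeta_eq_tsum_one_div_nat_cpow (by simp [hδ]), Complex.ofReal_tsum]
    refine tsum_congr fun n => ?_
    rw [Complex.ofReal_cpow (by positivity)]
    rcases Nat.eq_zero_or_pos n with h0 | h0
    · subst h0
      rw [Nat.cast_zero, Complex.zero_cpow (by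
        intro h
        have := congrArg Complex.re h
        simp at this; linarith)]
      rw [Complex.ofReal_natCast, Nat.cast_zero, Complex.zero_cpow (by
        intro h
        have := congrArg Complex.re h
        simp at this; linarith)]
      simp
    · rw [one_div, ← Complex.cpow_neg]
      push_cast; rfl
  rw [h2, Complex.norm_real, Real.norm_of_nonneg (tsum_nonneg fun n => by positivity)]
  refine (Pool.Agent.Y705.QT0.zeta_le (by linarith : 1 < 1 + δ)).trans ?_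
  rw [show 1 + δ - 1 = δ by ring, le_div_iff₀ hδ]
  field_simp
  linarith

lemma rpow_shift {n : ℕ} (hn : 1 ≤ n) (δ : ℝ) :
    (n:ℝ) ^ (-(2 * (1 / 2 + δ))) = (n:ℝ) ^ (-1 - δ) * (n:ℝ) ^ (-δ) := by
  rw [← Real.rpow_add (by exact_mod_cast hn)]
  congr 1; ring

/-- tails in mean square -/
lemma tail_sq {K : ℕ} {g : ℕ → ℝ} (hg : ∀ n, |g n| ≤ dv K n) {N : ℕ} (hN : 1 ≤ N) {δ : ℝ} (hδ : 0 < δ)
    (hδ1 : δ ≤ 1) {F : Finset ℕ} (hF : ∀ n ∈ F, N ≤ n) :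
    ∑ n ∈ F, g n ^ 2 * (n:ℝ) ^ (-(2 * (1 / 2 + δ))) ≤ (N:ℝ) ^ (-δ) * (2 / δ) ^ (K ^ 2) := by
  have h1 : ∀ n ∈ F, g n ^ 2 * (n:ℝ) ^ (-(2 * (1 / 2 + δ))) ≤
      (N:ℝ) ^ (-δ) * (dv ((K ^ 2 : ℕ) : ℝ) n * (n:ℝ) ^ (-1 - δ)) := by
    intro n hn
    have hn1 : 1 ≤ n := hN.trans (hF n hn)
    have hn0 : (0:ℝ) < n := by exact_mod_cast hn1
    have hN0 : (0:ℝ) < N := by exact_mod_cast hN
    rw [rpow_shift hn1]
    have h2 : g n ^ 2 ≤ dv ((K ^ 2 : ℕ) : ℝ) n := by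
      have h3 : g n ^ 2 ≤ dv K n ^ 2 := by
        rw [← sq_abs]
        exact pow_le_pow_left₀ (abs_nonneg _) (hg n) 2
      refine h3.trans ?_
      have := dv_sq_le (Nat.cast_nonneg K) n
      push_cast
      exact this
    have h3 : (n:ℝ) ^ (-δ) ≤ (N:ℝ) ^ (-δ) :=
      Real.rpow_le_rpow_of_nonpos hN0 (by exact_mod_cast hF n hn) (by linarith)
    have h4 : 0 ≤ dv ((K ^ 2 : ℕ) : ℝ) n := dv_nonneg (by positivity) n
    calc g n ^ 2 * ((n:ℝ) ^ (-1 - δ) * (n:ℝ) ^ (-δ)) ≤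
        dv ((K ^ 2 : ℕ) : ℝ) n * ((n:ℝ) ^ (-1 - δ) * (N:ℝ) ^ (-δ)) := by gcongr
      _ = _ := by ring
  refine (sum_le_sum h1).trans ?_
  rw [← mul_sum]
  exact mul_le_mul_of_nonneg_left (dvJ_sum _ hδ hδ1 F) (by positivity)

/-- mean square of a polynomial supported on `[N, M]` -/
lemma ms_tail {K : ℕ} {g : ℕ → ℝ} (hg : ∀ n, |g n| ≤ dv K n) {N M : ℕ} (hN : 1 ≤ N)
    (h0 : ∀ n, n < N → g n = 0) {δ : ℝ} (hδ : 0 < δ) (hδ1 : δ ≤ 1) {T : ℝ} (hT : 0 ≤ T) :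
    ∫ t in (0:ℝ)..T, ‖Dp g M (((1 / 2 + δ : ℝ) : ℂ) + (t : ℂ) * Complex.I)‖ ^ 2 ≤
      T * ((N:ℝ) ^ (-δ) * (2 / δ) ^ (K ^ 2)) + 4 * M ^ (2 * K + 3) := by
  have h1 := mvD g M (σ := 1 / 2 + δ) (by linarith) 0 T
  have h2 := (abs_le.mp h1).2
  rw [sub_zero] at h2
  have h3 : ∑ n ∈ Icc 1 M, g n ^ 2 * (n:ℝ) ^ (-(2 * (1 / 2 + δ))) ≤ (N:ℝ) ^ (-δ) * (2 / δ) ^ (K ^ 2) := by
    have h4 : ∑ n ∈ Icc 1 M, g n ^ 2 * (n:ℝ) ^ (-(2 * (1 / 2 + δ))) =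
        ∑ n ∈ (Icc 1 M).filter (fun n => N ≤ n), g n ^ 2 * (n:ℝ) ^ (-(2 * (1 / 2 + δ))) := by
      rw [sum_filter]
      refine sum_congr rfl fun n _ => ?_
      split_ifs with h
      · rfl
      · rw [h0 n (by omega)]; ring
    rw [h4]
    exact tail_sq hg hN hδ hδ1 fun n hn => (mem_filter.mp hn).2
  have h5 : 4 * (M:ℝ) * (∑ n ∈ Icc 1 M, |g n|) ^ 2 ≤ 4 * M ^ (2 * K + 3) := by
    have h6 := l1_poly hg M
    calc 4 * (M:ℝ) * (∑ n ∈ Icc 1 M, |g n|) ^ 2 ≤ 4 * (M:ℝ) * ((M:ℝ) ^ (K + 1)) ^ 2 := by gcongr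
      _ = _ := by ring
  have h6 := mul_le_mul_of_nonneg_left h3 hT
  linarith

end

end Pool.Agent.Y746.OA
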