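import Pool.Agent.Y755.HPl
import Pool.Agent.TH570.GS.SM
import Pool.Agent.Y746.OA.AR

set_option autoImplicit false

/-! Mean square of `ζ - D_1` near the line. -/

namespace Pool.Agent.Y746.OA

open Finset MeasureTheory
open Pool.Agent.H306R2 Pool.Agent.W184 Pool.Agent.Y755

lemma dA_one_apply {n : ℕ} (hn : 1 ≤ n) : dA 1 n = 1 := by
  rw [dA_one]
  simp only [zR, ArithmeticFunction.natCoe_apply, ArithmeticFunction.zeta_apply]
  rw [if_neg (by omega)]; simp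

lemma Dy1_eq (N : ℕ) (s : ℂ) : Dy N 1 s = ∑ n ∈ Icc 1 N, (n:ℂ) ^ (-s) := by
  unfold Dy
  rw [Dp_natCast]
  refine sum_congr rfl fun n hn => ?_
  rw [mem_Icc] at hn
  rw [tr_apply, if_pos hn.2, dA_one_apply hn.1]
  push_cast; ring

lemma Dy_diff (N : ℕ) (y : ℝ) : Differentiable ℂ (Dy N y) := by
  have : Dy N y = fun s => ∑ m ∈ Icc 1 N, (tr N (dA y) m : ℂ) * (m : ℂ) ^ (-s) := by
    funext s; unfold Dy; exact Dp_natCast _ _ _
  rw [this]
  refine Differentiable.fun_sum fun n hn => ?_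
  rw [mem_Icc] at hn
  refine Differentiable.const_mul ?_ _
  intro s
  refine DifferentiableAt.const_cpow (by fun_prop) (Or.inl ?_)
  exact_mod_cast (by omega : n ≠ 0)

lemma Dy1_norm_le (N : ℕ) {s : ℂ} (hs : 0 ≤ s.re) : ‖Dy N 1 s‖ ≤ N := by
  rw [Dy1_eq]
  refine (norm_sum_le _ _).trans ?_
  have h : ∀ n ∈ Icc 1 N, ‖(n:ℂ) ^ (-s)‖ ≤ 1 := by
    intro n hn
    rw [mem_Icc] at hn
    rw [Complex.norm_natCast_cpow_of_pos hn.1]
    exact Real.rpow_le_one_of_one_le_of_nonpos (by exact_mod_cast hn.1) (by simpa using hs)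
  refine (sum_le_card_nsmul _ _ _ h).trans ?_
  rw [Nat.card_Icc]; simp

lemma zeta_sub_far (N : ℕ) (hN : 1 ≤ N) : ∃ C : ℝ, ∀ z : ℂ, 2 ≤ z.re →
    ‖riemannZeta z - Dy N 1 z‖ * (N:ℝ) ^ z.re ≤ C := by
  refine ⟨(N:ℝ) ^ 2 * ∑' n : ℕ, 1 / (n:ℝ) ^ 2, fun z hz => ?_⟩
  have hN0 : (0:ℝ) < N := by exact_mod_cast hN
  have h1 : HasSum (fun n : ℕ => (n:ℂ) ^ (-z)) (riemannZeta z) := by
    have h2 := zeta_eq_tsum_one_div_nat_cpow (s := z) (by linarith)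
    have h3 : Summable (fun n : ℕ => 1 / (n:ℂ) ^ z) := Complex.summable_one_div_nat_cpow.mpr (by linarith)
    have h4 := h3.hasSum
    rw [← h2] at h4
    refine h4.congr_fun fun n => ?_
    rw [one_div, Complex.cpow_neg]
  have h2 : HasSum (fun n : ℕ => if n ∈ Icc 1 N then (n:ℂ) ^ (-z) else 0) (Dy N 1 z) := by
    rw [Dy1_eq]
    have h5 : HasSum (fun n : ℕ => if n ∈ Icc 1 N then (n:ℂ) ^ (-z) else 0)
        (∑ n ∈ Icc 1 N, if n ∈ Icc 1 N then (n:ℂ) ^ (-z) else 0) :=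
      hasSum_sum_of_ne_finset_zero (fun n hn => if_neg hn)
    rwa [sum_congr rfl (fun n hn => if_pos hn)] at h5
  have h3 := h1.sub h2
  have hs : Summable (fun n : ℕ => (N:ℝ) ^ 2 * (1 / (n:ℝ) ^ 2) * (N:ℝ) ^ (-z.re)) :=
    ((Real.summable_one_div_nat_pow.mpr (by norm_num : 1 < 2)).mul_left _).mul_right _
  have h4 : ‖riemannZeta z - Dy N 1 z‖ ≤ ∑' n : ℕ, (N:ℝ) ^ 2 * (1 / (n:ℝ) ^ 2) * (N:ℝ) ^ (-z.re) := by
    refine h3.norm_le_of_bounded hs.hasSum fun n => ?_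
    by_cases hn : n ∈ Icc 1 N
    · rw [if_pos hn, sub_self, norm_zero]; positivity
    · rw [if_neg hn, sub_zero]
      rcases Nat.eq_zero_or_pos n with h0 | h0
      · subst h0
        rw [Nat.cast_zero, Complex.zero_cpow (by
          intro h
          have := congrArg Complex.re h
          simp at this; linarith)]
        simp
      · have hnN : N < n := by
          rw [mem_Icc] at hn; omega
        have hn0 : (0:ℝ) < n := by exact_mod_cast h0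
        rw [Complex.norm_natCast_cpow_of_pos h0, Complex.neg_re]
        have e1 : (n:ℝ) ^ (-z.re) = (n:ℝ) ^ (-(z.re - 2)) * (1 / (n:ℝ) ^ 2) := by
          rw [one_div, ← Real.rpow_natCast, ← Real.rpow_neg hn0.le, ← Real.rpow_add hn0]
          congr 1; push_cast; ring
        have e2 : (N:ℝ) ^ (-z.re) = (N:ℝ) ^ (-(z.re - 2)) * (1 / (N:ℝ) ^ 2) := by
          rw [one_div, ← Real.rpow_natCast, ← Real.rpow_neg hN0.le, ← Real.rpow_add hN0]
          congr 1; push_cast; ring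
        rw [e1, e2]
        have h5 : (n:ℝ) ^ (-(z.re - 2)) ≤ (N:ℝ) ^ (-(z.re - 2)) :=
          Real.rpow_le_rpow_of_nonpos hN0 (by exact_mod_cast hnN.le) (by linarith)
        calc (n:ℝ) ^ (-(z.re - 2)) * (1 / (n:ℝ) ^ 2) ≤ (N:ℝ) ^ (-(z.re - 2)) * (1 / (n:ℝ) ^ 2) := by gcongr
          _ = _ := by field_simp
  rw [tsum_mul_right, tsum_mul_left] at h4
  have h6 : (N:ℝ) ^ (-z.re) * (N:ℝ) ^ z.re = 1 := by
    rw [← Real.rpow_add hN0]; simp
  calc ‖riemannZeta z - Dy N 1 z‖ * (N:ℝ) ^ z.re ≤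
      (N:ℝ) ^ 2 * (∑' n : ℕ, 1 / (n:ℝ) ^ 2) * (N:ℝ) ^ (-z.re) * (N:ℝ) ^ z.re := by gcongr
    _ = _ := by rw [mul_assoc, h6, mul_one]

/-- second moment on the line, both sides -/
lemma sm_line : ∃ C T0 : ℝ, 0 < C ∧ 4 ≤ T0 ∧ ∀ T U : ℝ, T0 ≤ T → 0 ≤ U → U ≤ T →
    ∫ t in (-U)..(T + U), zn (1 / 2) t ^ 2 ≤ C * T * Real.log T := by
  obtain ⟨C, T0, hC, hT0, h⟩ := Pool.Agent.TH570.GS.t_SM
  refine ⟨2 * C, max T0 4, by positivity, le_max_right _ _, fun T U hT hU hUT => ?_⟩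
  have hT4 : 4 ≤ T := (le_max_right _ _).trans hT
  have h1 := h T ((le_max_left _ _).trans hT)
  have e : (fun u : ℝ => ‖Pool.Agent.TH612.GS.z u‖ ^ 2) = fun u => zn (1 / 2) u ^ 2 := by
    funext u
    unfold Pool.Agent.TH612.GS.z zn
    push_cast
    rw [mul_comm Complex.I]
  rw [e] at h1
  have hcont : Continuous (fun u : ℝ => zn (1 / 2) u ^ 2) := (zn_cont (by norm_num)).pow 2
  have hi : ∀ a b : ℝ, IntervalIntegrable (fun u : ℝ => zn (1 / 2) u ^ 2) volume a b :=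
    fun a b => hcont.intervalIntegrable a b
  have hneg : ∫ t in (-U)..0, zn (1 / 2) t ^ 2 = ∫ t in (0:ℝ)..U, zn (1 / 2) t ^ 2 := by
    have := intervalIntegral.integral_comp_neg (a := 0) (b := U) (fun t => zn (1 / 2) t ^ 2)
    simp only [zn_neg, neg_zero] at this
    exact this.symm
  have hm : ∀ b : ℝ, 0 ≤ b → b ≤ 2 * T → ∫ t in (0:ℝ)..b, zn (1 / 2) t ^ 2 ≤ ∫ t in (0:ℝ)..(2 * T), zn (1 / 2) t ^ 2 := by
    intro b hb hb2
    rw [← intervalIntegral.integral_add_adjacent_intervals (hi 0 b) (hi b (2 * T))]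
    have := intervalIntegral.integral_nonneg (f := fun t => zn (1 / 2) t ^ 2) (μ := volume) hb2
      (fun u _ => by positivity)
    linarith
  rw [← intervalIntegral.integral_add_adjacent_intervals (hi (-U) 0) (hi 0 (T + U)), hneg]
  have a1 := hm U hU (by linarith)
  have a2 := hm (T + U) (by linarith) (by linarith)
  linarith

lemma ms_line {N : ℕ} (hN : 1 ≤ N) {T U : ℝ} (hT : 4 ≤ T) (hNT : (N:ℝ) ^ 3 ≤ T) (_hU : 0 ≤ U) (hUT : U ≤ T) :
    ∫ t in (-U)..(T + U), ‖Dy N 1 (((1 / 2 : ℝ) : ℂ) + (t : ℂ) * Complex.I)‖ ^ 2 ≤ 10 * T * Real.log T := by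
  have h1 := mvD (tr N (dA 1)) N (σ := 1 / 2) (by norm_num) (-U) (T + U)
  have h2 := (abs_le.mp h1).2
  have hL : 1 ≤ Real.log T := by
    rw [Real.le_log_iff_exp_le (by linarith)]
    linarith [Real.exp_one_lt_d9]
  have h3 : ∑ n ∈ Icc 1 N, tr N (dA 1) n ^ 2 * (n:ℝ) ^ (-(2 * (1 / 2 : ℝ))) ≤ 1 + Real.log T := by
    have e : ∑ n ∈ Icc 1 N, tr N (dA 1) n ^ 2 * (n:ℝ) ^ (-(2 * (1 / 2 : ℝ))) = ∑ n ∈ Icc 1 N, (1:ℝ) / n := by
      refine sum_congr rfl fun n hn => ?_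
      rw [mem_Icc] at hn
      rw [tr_apply, if_pos hn.2, dA_one_apply hn.1]
      norm_num
      rw [Real.rpow_neg_one]
    rw [e]
    refine (harm_le N).trans ?_
    have hN0 : (1:ℝ) ≤ N := by exact_mod_cast hN
    have : (N:ℝ) ≤ T := by
      refine le_trans ?_ hNT
      calc (N:ℝ) = (N:ℝ) ^ 1 := (pow_one _).symm
        _ ≤ (N:ℝ) ^ 3 := pow_le_pow_right₀ hN0 (by norm_num)
    have := Real.log_le_log (by linarith) this
    linarith
  have h4 : ∑ n ∈ Icc 1 N, |tr N (dA 1) n| = N := by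
    have e : ∀ n ∈ Icc 1 N, |tr N (dA 1) n| = 1 := by
      intro n hn
      rw [mem_Icc] at hn
      rw [tr_apply, if_pos hn.2, dA_one_apply hn.1, abs_one]
    rw [sum_congr rfl e, sum_const, Nat.card_Icc]; simp
  rw [h4] at h2
  have h5 : (T + U - -U) * ∑ n ∈ Icc 1 N, tr N (dA 1) n ^ 2 * (n:ℝ) ^ (-(2 * (1 / 2 : ℝ))) ≤
      (3 * T) * (1 + Real.log T) := by
    refine mul_le_mul (by linarith) h3 ?_ (by linarith)
    exact sum_nonneg fun n _ => by positivity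
  have h6 : 4 * (N:ℝ) * (N:ℝ) ^ 2 ≤ 4 * T := by
    calc 4 * (N:ℝ) * (N:ℝ) ^ 2 = 4 * (N:ℝ) ^ 3 := by ring
      _ ≤ _ := by linarith
  have h7 : T ≤ T * Real.log T := le_mul_of_one_le_right (by linarith) hL
  unfold Dy
  nlinarith

/-- the mean square of `ζ - D_1` -/
theorem zeta_ms : ∃ C T0 : ℝ, 0 < C ∧ 4 ≤ T0 ∧ ∀ T : ℝ, T0 ≤ T → ∀ N : ℕ, 1 ≤ N → (N:ℝ) ^ 3 ≤ T →
    ∀ δ : ℝ, 1 / Real.log T ≤ δ → δ ≤ 1 / 16 →
    ∫ t in (0:ℝ)..T, ‖riemannZeta (((1 / 2 + δ : ℝ) : ℂ) + (t : ℂ) * Complex.I) -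
      Dy N 1 (((1 / 2 + δ : ℝ) : ℂ) + (t : ℂ) * Complex.I)‖ ^ 2 ≤ C * (N:ℝ) ^ (-(2 * δ)) * (T * Real.log T) := by
  obtain ⟨C, T0, hC, hT0, hsm⟩ := sm_line
  refine ⟨36 * (2 * C + 21 + 30000), max T0 100, by positivity, le_trans (by norm_num) (le_max_right _ _), ?_⟩
  intro T hT N hN hNT δ hδ hδ1
  have hT100 : 100 ≤ T := (le_max_right _ _).trans hT
  have hT1 : T0 ≤ T := (le_max_left _ _).trans hT
  have hL : 1 ≤ Real.log T := by
    rw [Real.le_log_iff_exp_le (by linarith)]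
    linarith [Real.exp_one_lt_d9]
  have hδ0 : 0 < δ := lt_of_lt_of_le (by positivity) hδ
  have hN0 : (1:ℝ) ≤ N := by exact_mod_cast hN
  have hNT1 : (N:ℝ) ^ 2 ≤ T := le_trans (pow_le_pow_right₀ hN0 (by norm_num)) hNT
  set U : ℝ := Real.sqrt T with hUd
  have hU0 : 0 ≤ U := Real.sqrt_nonneg T
  have hU2 : U ^ 2 = T := Real.sq_sqrt (by linarith)
  have hU1 : 1 ≤ U := by
    rw [hUd, Real.one_le_sqrt]; linarith
  have hUT : U ≤ T := by nlinarith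
  obtain ⟨C2, hC2⟩ := zeta_sub_far N hN
  have hGB : ∀ x, qd (fun _ => (1:ℂ)) (Dy N 1) (1 / 2) x ≤ (600 * T) * (1 + x ^ 2) := by
    intro x
    unfold qd
    rw [mul_one]
    have a1 : ‖riemannZeta (((1 / 2 : ℝ) : ℂ) + x * Complex.I)‖ ≤ 12 * (1 + |x|) :=
      zn_le' (σ := 1 / 2) (by norm_num) (by norm_num)
    have a2 : ‖Dy N 1 (((1 / 2 : ℝ) : ℂ) + x * Complex.I)‖ ≤ N := Dy1_norm_le N (by simp)
    have a3 := (norm_sub_le (riemannZeta (((1 / 2 : ℝ) : ℂ) + x * Complex.I))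
      (Dy N 1 (((1 / 2 : ℝ) : ℂ) + x * Complex.I))).trans (add_le_add a1 a2)
    have a4 := pow_le_pow_left₀ (norm_nonneg _) a3 2
    refine a4.trans ?_
    have hx := abs_nonneg x
    have hx2 := sq_abs x
    nlinarith [sq_nonneg (12 * (1 + |x|) - N), sq_nonneg (1 - |x|), mul_nonneg (by linarith : 0 ≤ T - 100) (sq_nonneg x)]
  have hmain := hp_win (Q := Dy N 1) (A := fun _ => 1) (N := N) (C1 := N) (C2 := C2) (CA := 1) (Δ := δ)
    (a := 0) (b := T) (U := U) (B := 600 * T) hN0 (differentiable_const _) (fun z _ => by simp) (Dy_diff N 1)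
    (fun z hz => Dy1_norm_le N (by linarith)) (fun z hz => by rw [mul_one]; exact hC2 z hz) hδ0 (by linarith)
    (by linarith) hU1 (by positivity) hGB
  rw [zero_sub] at hmain
  have hqd : ∀ σ t : ℝ, qd (fun _ => (1:ℂ)) (Dy N 1) σ t =
      ‖riemannZeta ((σ : ℂ) + (t : ℂ) * Complex.I) - Dy N 1 ((σ : ℂ) + (t : ℂ) * Complex.I)‖ ^ 2 := by
    intro σ t; unfold qd; rw [mul_one]
  -- the line
  have hline : ∫ t in (-U)..(T + U), qd (fun _ => (1:ℂ)) (Dy N 1) (1 / 2) t ≤ (2 * C + 20) * (T * Real.log T) := by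
    have b1 := hsm T U hT1 hU0 hUT
    have b2 := ms_line hN (by linarith : 4 ≤ T) hNT hU0 hUT
    have hc1 : Continuous (fun t : ℝ => zn (1 / 2) t ^ 2) := (zn_cont (by norm_num)).pow 2
    have hc2 : Continuous (fun t : ℝ => ‖Dy N 1 (((1 / 2 : ℝ) : ℂ) + (t : ℂ) * Complex.I)‖ ^ 2) :=
      (((Dy_diff N 1).continuous.comp (by fun_prop : Continuous fun t : ℝ =>
        (((1 / 2 : ℝ) : ℂ) + (t : ℂ) * Complex.I))).norm).pow 2
    have b3 : ∫ t in (-U)..(T + U), qd (fun _ => (1:ℂ)) (Dy N 1) (1 / 2) t ≤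
        ∫ t in (-U)..(T + U), (2 * zn (1 / 2) t ^ 2 + 2 * ‖Dy N 1 (((1 / 2 : ℝ) : ℂ) + (t : ℂ) * Complex.I)‖ ^ 2) := by
      refine intervalIntegral.integral_mono_on (by linarith)
        ((qd_cont (differentiable_const _) (Dy_diff N 1) (by norm_num)).intervalIntegrable _ _)
        (((continuous_const.mul hc1).add (continuous_const.mul hc2)).intervalIntegrable _ _) fun t _ => ?_
      rw [hqd]
      unfold zn
      have a3 := norm_sub_le (riemannZeta (((1 / 2 : ℝ) : ℂ) + t * Complex.I))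
        (Dy N 1 (((1 / 2 : ℝ) : ℂ) + t * Complex.I))
      have a4 := pow_le_pow_left₀ (norm_nonneg _) a3 2
      nlinarith [sq_nonneg (‖riemannZeta (((1 / 2 : ℝ) : ℂ) + t * Complex.I)‖ -
        ‖Dy N 1 (((1 / 2 : ℝ) : ℂ) + t * Complex.I)‖)]
    have hc1' : Continuous (fun t : ℝ => 2 * zn (1 / 2) t ^ 2) := continuous_const.mul hc1
    have hc2' : Continuous (fun t : ℝ => 2 * ‖Dy N 1 (((1 / 2 : ℝ) : ℂ) + (t : ℂ) * Complex.I)‖ ^ 2) :=
      continuous_const.mul hc2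
    rw [intervalIntegral.integral_add (hc1'.intervalIntegrable _ _)
      (hc2'.intervalIntegrable _ _), intervalIntegral.integral_const_mul,
      intervalIntegral.integral_const_mul] at b3
    linarith
  -- the tiny term
  have htiny : (T - 0) * (2 * (2 * (600 * T) * (1 + 0 ^ 2)) * (1 + (T - 0) ^ 2)) *
      (Real.pi * (1 / δ) * (U ^ 28)⁻¹) ≤ 30000 * (T * Real.log T) := by
    have e1 : U ^ 28 = T ^ 14 := by rw [← hU2]; ring
    rw [e1, sub_zero]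
    have c1 : 1 / δ ≤ Real.log T := by
      rw [div_le_iff₀ hδ0]
      rw [div_le_iff₀ (by linarith)] at hδ
      linarith
    have c2 : Real.pi ≤ 4 := Real.pi_le_four
    have c3 : 1 + T ^ 2 ≤ 2 * T ^ 2 := by nlinarith
    have c4 : (T ^ 14)⁻¹ ≤ (T ^ 4)⁻¹ := by
      refine inv_anti₀ (by positivity) ?_
      exact pow_le_pow_right₀ (by linarith) (by norm_num)
    calc T * (2 * (2 * (600 * T) * (1 + 0 ^ 2)) * (1 + T ^ 2)) * (Real.pi * (1 / δ) * (T ^ 14)⁻¹) ≤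
        T * (2 * (2 * (600 * T) * (1 + 0 ^ 2)) * (2 * T ^ 2)) * (4 * Real.log T * (T ^ 4)⁻¹) := by
          gcongr
      _ = 19200 * Real.log T := by field_simp; ring
      _ ≤ 30000 * (T * Real.log T) := by nlinarith
  have hfac : ((N:ℝ) ^ (2 * δ)) / 36 ≤ ((1 - 8 * δ) * (N:ℝ) ^ δ / (1 + δ) ^ 16) ^ 2 := by
    have d1 : (N:ℝ) ^ (2 * δ) = ((N:ℝ) ^ δ) ^ 2 := by
      rw [← Real.rpow_natCast ((N:ℝ) ^ δ), ← Real.rpow_mul (by positivity)]
      congr 1; push_cast; ring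
    have d2 : (1 + δ) ^ 16 ≤ 3 := by
      have := Real.add_one_le_exp δ
      calc (1 + δ) ^ 16 ≤ (Real.exp δ) ^ 16 := pow_le_pow_left₀ (by linarith) (by linarith) 16
        _ = Real.exp (16 * δ) := by rw [← Real.exp_nat_mul]; norm_num
        _ ≤ Real.exp 1 := Real.exp_le_exp.mpr (by linarith)
        _ ≤ 3 := by linarith [Real.exp_one_lt_d9]
    have d3 : (N:ℝ) ^ δ / 6 ≤ (1 - 8 * δ) * (N:ℝ) ^ δ / (1 + δ) ^ 16 := by
      rw [div_le_div_iff₀ (by norm_num) (by positivity)]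
      have : 0 < (N:ℝ) ^ δ := by positivity
      nlinarith
    calc (N:ℝ) ^ (2 * δ) / 36 = ((N:ℝ) ^ δ / 6) ^ 2 := by rw [d1]; ring
      _ ≤ _ := pow_le_pow_left₀ (by positivity) d3 2
  have hI : 0 ≤ ∫ t in (0:ℝ)..T, qd (fun _ => (1:ℂ)) (Dy N 1) (1 / 2 + δ) t :=
    intervalIntegral.integral_nonneg (by linarith) fun t _ => qd_nonneg _ _ _ _
  have hfin : (N:ℝ) ^ (2 * δ) / 36 * ∫ t in (0:ℝ)..T, qd (fun _ => (1:ℂ)) (Dy N 1) (1 / 2 + δ) t ≤
      (2 * C + 21 + 30000) * (T * Real.log T) := by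
    have hTL : 0 ≤ T * Real.log T := by positivity
    calc _ ≤ _ := mul_le_mul_of_nonneg_right hfac hI
      _ ≤ _ := hmain
      _ ≤ (2 * C + 20) * (T * Real.log T) + 30000 * (T * Real.log T) := add_le_add hline htiny
      _ ≤ _ := by nlinarith
  simp_rw [hqd] at hfin
  have hNp : 0 < (N:ℝ) ^ (2 * δ) := by positivity
  rw [Real.rpow_neg (by positivity)]
  rw [div_mul_eq_mul_div, div_le_iff₀ (by norm_num)] at hfin
  set II := ∫ t in (0:ℝ)..T, ‖riemannZeta (((1 / 2 + δ : ℝ) : ℂ) + (t : ℂ) * Complex.I) -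
      Dy N 1 (((1 / 2 + δ : ℝ) : ℂ) + (t : ℂ) * Complex.I)‖ ^ 2
  calc II = ((N:ℝ) ^ (2 * δ))⁻¹ * ((N:ℝ) ^ (2 * δ) * II) := by field_simp
    _ ≤ ((N:ℝ) ^ (2 * δ))⁻¹ * ((2 * C + 21 + 30000) * (T * Real.log T) * 36) :=
        mul_le_mul_of_nonneg_left hfin (by positivity)
    _ = _ := by ring

end Pool.Agent.Y746.OA
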