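import Pool.Agent.Y746.OA.PW
import Pool.Agent.Y746.OA.SM

set_option autoImplicit false

/-! The truncated moment against the mean square of a polynomial. -/

namespace Pool.Agent.Y746.OA

open Finset MeasureTheory
open Pool.Agent.H306R2 Pool.Agent.W184 Pool.Agent.Y755

noncomputable section

/-- the point -/
def sp (δ t : ℝ) : ℂ := ((1 / 2 + δ : ℝ) : ℂ) + (t : ℂ) * Complex.I

lemma sp_cont (δ : ℝ) : Continuous (sp δ) := by unfold sp; fun_prop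

lemma Dy_cont (N : ℕ) (y δ : ℝ) : Continuous fun t => Dy N y (sp δ t) :=
  (Dy_diff N y).continuous.comp (sp_cont δ)

lemma zeta_sp_cont {δ : ℝ} (hδ : δ ≤ 1 / 16) : Continuous fun t => riemannZeta (sp δ t) := by
  unfold sp
  exact zeta_cont (σ := 1 / 2 + δ) (by linarith)

/-- mean squares -/
def I2 (N : ℕ) (a δ T : ℝ) : ℝ := ∫ t in (0:ℝ)..T, ‖Dy N a (sp δ t)‖ ^ 2
def I4 (N : ℕ) (a δ T : ℝ) : ℝ := ∫ t in (0:ℝ)..T, ‖Dy N a (sp δ t)‖ ^ 4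
def GG (N : ℕ) (a b δ T : ℝ) : ℝ := ∫ t in (0:ℝ)..T, ‖Dy N (a + b) (sp δ t) - Dy N a (sp δ t) * Dy N b (sp δ t)‖ ^ 2
def ZZ (N : ℕ) (δ T : ℝ) : ℝ := ∫ t in (0:ℝ)..T, ‖riemannZeta (sp δ t) - Dy N 1 (sp δ t)‖ ^ 2

/-- exponents -/
def S1 (b α : ℝ) (J : ℕ) : Finset ℝ :=
  ((range (J + 1)).image (fun j => (step b)^[j] α) ∪ (range (J + 1)).image (fun j => (step b)^[j] 1)) ∪ {0, b}
def S2 (b α : ℝ) (J : ℕ) : Finset ℝ := S1 b α J ∪ (S1 b α J).image (fun x => 2 * x)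
def Ex (b α : ℝ) (J : ℕ) : Finset ℝ := S2 b α J ∪ (S2 b α J).image (fun x => -x)

lemma S1_card (b α : ℝ) (J : ℕ) : #(S1 b α J) ≤ 2 * J + 4 := by
  unfold S1
  refine (card_union_le _ _).trans ?_
  have h1 := card_union_le ((range (J + 1)).image (fun j => (step b)^[j] α)) ((range (J + 1)).image (fun j => (step b)^[j] 1))
  have h2 := card_image_le (s := range (J + 1)) (f := fun j => (step b)^[j] α)
  have h3 := card_image_le (s := range (J + 1)) (f := fun j => (step b)^[j] 1)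
  rw [card_range] at h2 h3
  have h4 : #({0, b} : Finset ℝ) ≤ 2 := card_le_two
  omega

lemma Ex_card (b α : ℝ) (J : ℕ) : #(Ex b α J) ≤ 8 * J + 16 := by
  have h1 := S1_card b α J
  have h2 : #(S2 b α J) ≤ #(S1 b α J) + #(S1 b α J) :=
    (card_union_le _ _).trans (Nat.add_le_add le_rfl card_image_le)
  have h3 : #(Ex b α J) ≤ #(S2 b α J) + #(S2 b α J) :=
    (card_union_le _ _).trans (Nat.add_le_add le_rfl card_image_le)
  omega

lemma S1_bd {b α : ℝ} (hb : 1 ≤ b) (hα : |α| ≤ b) {J : ℕ} {a : ℝ} (ha : a ∈ S1 b α J) : |a| ≤ b := by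
  unfold S1 at ha
  rw [mem_union, mem_union, mem_image, mem_image, mem_insert, mem_singleton] at ha
  rcases ha with (⟨j, _, rfl⟩ | ⟨j, _, rfl⟩) | rfl | rfl
  · exact iter_bd hα j
  · exact iter_bd (by rwa [abs_one]) j
  · rw [abs_zero]; linarith
  · rw [abs_of_pos (by linarith)]

lemma Ex_bd {b α : ℝ} (hb : 1 ≤ b) (hα : |α| ≤ b) {J : ℕ} {a : ℝ} (ha : a ∈ Ex b α J) : |a| ≤ 2 * b := by
  have h2 : ∀ x ∈ S2 b α J, |x| ≤ 2 * b := by
    intro x hx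
    unfold S2 at hx
    rw [mem_union, mem_image] at hx
    rcases hx with hx | ⟨y, hy, rfl⟩
    · linarith [S1_bd hb hα hx]
    · rw [abs_mul, abs_two]; linarith [S1_bd hb hα hy]
  unfold Ex at ha
  rw [mem_union, mem_image] at ha
  rcases ha with ha | ⟨y, hy, rfl⟩
  · exact h2 a ha
  · rw [abs_neg]; exact h2 y hy

lemma S1_sub {b α : ℝ} {J : ℕ} {a : ℝ} (ha : a ∈ S1 b α J) : a ∈ Ex b α J :=
  mem_union_left _ (mem_union_left _ ha)

lemma S1_two {b α : ℝ} {J : ℕ} {a : ℝ} (ha : a ∈ S1 b α J) : 2 * a ∈ Ex b α J :=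
  mem_union_left _ (mem_union_right _ (mem_image_of_mem _ ha))

lemma Ex_neg {b α : ℝ} {J : ℕ} {a : ℝ} (ha : a ∈ Ex b α J) : -a ∈ Ex b α J := by
  unfold Ex at ha ⊢
  rw [mem_union, mem_image] at ha
  rcases ha with ha | ⟨y, hy, rfl⟩
  · exact mem_union_right _ (mem_image_of_mem _ ha)
  · rw [neg_neg]; exact mem_union_left _ hy

lemma S1_iter {b α : ℝ} {J j : ℕ} (hj : j ≤ J) : (step b)^[j] α ∈ S1 b α J :=
  mem_union_left _ (mem_union_left _ (mem_image_of_mem (fun j => (step b)^[j] α) (mem_range.mpr (by omega))))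

lemma S1_iter1 {b α : ℝ} {J j : ℕ} (hj : j ≤ J) : (step b)^[j] 1 ∈ S1 b α J :=
  mem_union_left _ (mem_union_right _ (mem_image_of_mem (fun j => (step b)^[j] 1) (mem_range.mpr (by omega))))

lemma S1_zero (b α : ℝ) (J : ℕ) : 0 ∈ S1 b α J := mem_union_right _ (by simp)
lemma S1_b (b α : ℝ) (J : ℕ) : b ∈ S1 b α J := mem_union_right _ (by simp)

/-- the cost of exceptional points -/
def Rt (N : ℕ) (E : Finset ℝ) (W e δ t : ℝ) : ℝ :=
  (∑ a ∈ E, ∑ b ∈ E, ‖Dy N (a + b) (sp δ t) - Dy N a (sp δ t) * Dy N b (sp δ t)‖ ^ 2 / e ^ 2) +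
    (∑ a ∈ E, ‖Dy N a (sp δ t)‖ ^ 2 / W ^ 2) + ‖riemannZeta (sp δ t) - Dy N 1 (sp δ t)‖ ^ 2 / e ^ 2

lemma Rt_nonneg (N : ℕ) (E : Finset ℝ) (W e δ t : ℝ) : 0 ≤ Rt N E W e δ t := by
  unfold Rt
  have h1 : 0 ≤ ∑ a ∈ E, ∑ b ∈ E, ‖Dy N (a + b) (sp δ t) - Dy N a (sp δ t) * Dy N b (sp δ t)‖ ^ 2 / e ^ 2 :=
    sum_nonneg fun _ _ => sum_nonneg fun _ _ => by positivity
  have h2 : 0 ≤ ∑ a ∈ E, ‖Dy N a (sp δ t)‖ ^ 2 / W ^ 2 := sum_nonneg fun _ _ => by positivity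
  exact add_nonneg (add_nonneg h1 h2) (div_nonneg (sq_nonneg _) (sq_nonneg _))

lemma Rt_lt {N : ℕ} {E : Finset ℝ} {W e δ t : ℝ} (hW : 0 < W) (he : 0 < e) (h : Rt N E W e δ t < 1) :
    (∀ a ∈ E, ∀ b ∈ E, ‖Dy N (a + b) (sp δ t) - Dy N a (sp δ t) * Dy N b (sp δ t)‖ ≤ e) ∧
    (∀ a ∈ E, ‖Dy N a (sp δ t)‖ ≤ W) ∧ ‖riemannZeta (sp δ t) - Dy N 1 (sp δ t)‖ ≤ e := by
  have h1 : 0 ≤ ∑ a ∈ E, ∑ b ∈ E, ‖Dy N (a + b) (sp δ t) - Dy N a (sp δ t) * Dy N b (sp δ t)‖ ^ 2 / e ^ 2 :=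
    sum_nonneg fun _ _ => sum_nonneg fun _ _ => by positivity
  have h2 : 0 ≤ ∑ a ∈ E, ‖Dy N a (sp δ t)‖ ^ 2 / W ^ 2 := sum_nonneg fun _ _ => by positivity
  have h3 : 0 ≤ ‖riemannZeta (sp δ t) - Dy N 1 (sp δ t)‖ ^ 2 / e ^ 2 := by positivity
  have key : ∀ x y : ℝ, 0 ≤ x → 0 < y → x ^ 2 / y ^ 2 ≤ 1 → x ≤ y := by
    intro x y hx hy h
    rw [div_le_one (by positivity)] at h
    exact (pow_le_pow_iff_left₀ hx hy.le (by norm_num)).mp h
  unfold Rt at h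
  refine ⟨fun a ha b hb => key _ _ (norm_nonneg _) he ?_, fun a ha => key _ _ (norm_nonneg _) hW ?_,
    key _ _ (norm_nonneg _) he ?_⟩
  · have h4 : ‖Dy N (a + b) (sp δ t) - Dy N a (sp δ t) * Dy N b (sp δ t)‖ ^ 2 / e ^ 2 ≤
        ∑ b ∈ E, ‖Dy N (a + b) (sp δ t) - Dy N a (sp δ t) * Dy N b (sp δ t)‖ ^ 2 / e ^ 2 :=
      single_le_sum (f := fun b => ‖Dy N (a + b) (sp δ t) - Dy N a (sp δ t) * Dy N b (sp δ t)‖ ^ 2 / e ^ 2)
        (fun _ _ => by positivity) hb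
    have h5 : ∑ b ∈ E, ‖Dy N (a + b) (sp δ t) - Dy N a (sp δ t) * Dy N b (sp δ t)‖ ^ 2 / e ^ 2 ≤
        ∑ a ∈ E, ∑ b ∈ E, ‖Dy N (a + b) (sp δ t) - Dy N a (sp δ t) * Dy N b (sp δ t)‖ ^ 2 / e ^ 2 :=
      single_le_sum (f := fun a => ∑ b ∈ E, ‖Dy N (a + b) (sp δ t) - Dy N a (sp δ t) * Dy N b (sp δ t)‖ ^ 2 / e ^ 2)
        (fun _ _ => sum_nonneg fun _ _ => by positivity) ha
    linarith
  · have h4 : ‖Dy N a (sp δ t)‖ ^ 2 / W ^ 2 ≤ ∑ a ∈ E, ‖Dy N a (sp δ t)‖ ^ 2 / W ^ 2 :=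
      single_le_sum (f := fun a => ‖Dy N a (sp δ t)‖ ^ 2 / W ^ 2) (fun _ _ => by positivity) ha
    linarith
  · linarith

/-- pointwise inequality -/
lemma ptw {N : ℕ} (hN : 1 ≤ N) {α b : ℝ} (hαb : |α| + 1 ≤ b) {J : ℕ} {V W e Y δ t : ℝ} (hV : 1 ≤ V) (hW : 1 ≤ W)
    (he : 0 < e) (hWe : 8 * W ^ 2 * e ≤ 1) (hY : 0 < Y) (hρ : rho b W e J ≤ 1 / 4) :
    |clip V ‖riemannZeta (sp δ t)‖ ^ (2 * α) - ‖Dy N α (sp δ t)‖ ^ 2| ≤
      4 * rho b W e J * ‖Dy N α (sp δ t)‖ ^ 2 +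
      8 * (V ^ 2)⁻¹ * (‖Dy N b (sp δ t)‖ ^ 2 + ‖Dy N (-b) (sp δ t)‖ ^ 2) +
      (V ^ |2 * α| + Y) * Rt N (Ex b α J) W e δ t + ‖Dy N α (sp δ t)‖ ^ 4 / Y := by
  have hR := Rt_nonneg N (Ex b α J) W e δ t
  have hb1 : 1 ≤ b := by have := abs_nonneg α; linarith
  have hρ0 : 0 ≤ rho b W e J := by
    unfold rho
    have : 0 ≤ Real.log (2 * W) := Real.log_nonneg (by linarith)
    positivity
  have hVp : 0 < V ^ |2 * α| := by positivity
  have p1 : 0 ≤ 4 * rho b W e J * ‖Dy N α (sp δ t)‖ ^ 2 := by positivity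
  have p2 : 0 ≤ 8 * (V ^ 2)⁻¹ * (‖Dy N b (sp δ t)‖ ^ 2 + ‖Dy N (-b) (sp δ t)‖ ^ 2) := by positivity
  have p3 : 0 ≤ ‖Dy N α (sp δ t)‖ ^ 4 / Y := by positivity
  have p4 : 0 ≤ (V ^ |2 * α| + Y) * Rt N (Ex b α J) W e δ t := by positivity
  rcases lt_or_ge (Rt N (Ex b α J) W e δ t) 1 with hc | hc
  · obtain ⟨g1, g2, g3⟩ := Rt_lt (by linarith) he hc
    have hG : Good (fun y => Dy N y (sp δ t)) (Ex b α J) W e :=
      { z0 := Dy_zero hN _, W1 := hW, e0 := he.le, small := hWe, zero := S1_sub (S1_zero b α J),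
        neg := fun a ha => Ex_neg ha, mul := g1, bd := g2 }
    obtain ⟨m1, m2, m3, m4⟩ := hG.main hb1 (by linarith) (S1_sub (S1_b b α J)) J
      (fun j hj => ⟨S1_sub (S1_iter hj), S1_two (S1_iter hj)⟩)
      (fun j hj => ⟨S1_sub (S1_iter1 hj), S1_two (S1_iter1 hj)⟩) g3
    have hαE : α ∈ Ex b α J := S1_sub (S1_iter (j := 0) (by omega))
    have hbE : b ∈ Ex b α J := S1_sub (S1_b b α J)
    have := good_ineq hV m1 (hG.pos hαE) (hG.pos hbE) (hG.pos (Ex_neg hbE)) hαb hρ0 hρ m2 m3 m4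
    linarith
  · have h1 : clip V ‖riemannZeta (sp δ t)‖ ^ (2 * α) ≤ V ^ |2 * α| := clip_pow_le hV _
    have h2 : 0 ≤ clip V ‖riemannZeta (sp δ t)‖ ^ (2 * α) := Real.rpow_nonneg (clip_pos hV).le _
    set A := ‖Dy N α (sp δ t)‖ with hA
    have hA0 : 0 ≤ A := norm_nonneg _
    have h3 : A ^ 2 ≤ Y + A ^ 4 / Y := by
      rcases le_or_gt (A ^ 2) Y with h | h
      · linarith
      · have : A ^ 2 ≤ A ^ 4 / Y := by
          rw [le_div_iff₀ hY]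
          calc A ^ 2 * Y ≤ A ^ 2 * A ^ 2 := mul_le_mul_of_nonneg_left h.le (by positivity)
            _ = A ^ 4 := by ring
        linarith
    have h4 : V ^ |2 * α| + Y ≤ (V ^ |2 * α| + Y) * Rt N (Ex b α J) W e δ t :=
      le_mul_of_one_le_right (by positivity) hc
    have h5 : 0 ≤ A ^ 2 := by positivity
    rw [abs_le]
    constructor <;> linarith

lemma clip_cont {V δ α : ℝ} (hV : 1 ≤ V) (hδ : δ ≤ 1 / 16) :
    Continuous fun t => clip V ‖riemannZeta (sp δ t)‖ ^ (2 * α) := by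
  refine Continuous.rpow_const ?_ fun t => Or.inl (clip_pos hV).ne'
  unfold clip
  exact continuous_const.max ((zeta_sp_cont hδ).norm.min continuous_const)

/-- the integrated inequality -/
theorem core {N : ℕ} (hN : 1 ≤ N) {α b : ℝ} (hαb : |α| + 1 ≤ b) {J : ℕ} {V W e Y δ T : ℝ} (hT : 0 ≤ T)
    (hδ : δ ≤ 1 / 16) (hV : 1 ≤ V) (hW : 1 ≤ W)
    (he : 0 < e) (hWe : 8 * W ^ 2 * e ≤ 1) (hY : 0 < Y) (hρ : rho b W e J ≤ 1 / 4) :
    |(∫ t in (0:ℝ)..T, clip V ‖riemannZeta (sp δ t)‖ ^ (2 * α)) - I2 N α δ T| ≤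
      4 * rho b W e J * I2 N α δ T + 8 * (V ^ 2)⁻¹ * (I2 N b δ T + I2 N (-b) δ T) +
      (V ^ |2 * α| + Y) * ((∑ a ∈ Ex b α J, ∑ b' ∈ Ex b α J, GG N a b' δ T / e ^ 2) +
        (∑ a ∈ Ex b α J, I2 N a δ T / W ^ 2) + ZZ N δ T / e ^ 2) + I4 N α δ T / Y := by
  set E := Ex b α J with hE
  have c2 : ∀ a, Continuous fun t => ‖Dy N a (sp δ t)‖ ^ 2 := fun a => (Dy_cont N a δ).norm.pow 2
  have c4 : Continuous fun t => ‖Dy N α (sp δ t)‖ ^ 4 := (Dy_cont N α δ).norm.pow 4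
  have cG : ∀ a b, Continuous fun t => ‖Dy N (a + b) (sp δ t) - Dy N a (sp δ t) * Dy N b (sp δ t)‖ ^ 2 :=
    fun a b => (((Dy_cont N (a + b) δ).sub ((Dy_cont N a δ).mul (Dy_cont N b δ))).norm).pow 2
  have cZ : Continuous fun t => ‖riemannZeta (sp δ t) - Dy N 1 (sp δ t)‖ ^ 2 :=
    (((zeta_sp_cont hδ).sub (Dy_cont N 1 δ)).norm).pow 2
  have cc := clip_cont (α := α) hV hδ
  have cR : Continuous fun t => Rt N E W e δ t := by
    unfold Rt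
    refine ((continuous_finsetSum _ fun a _ => continuous_finsetSum _ fun b _ => (cG a b).div_const _).add
      (continuous_finsetSum _ fun a _ => (c2 a).div_const _)).add (cZ.div_const _)
  have iR : ∫ t in (0:ℝ)..T, Rt N E W e δ t = (∑ a ∈ E, ∑ b' ∈ E, GG N a b' δ T / e ^ 2) +
        (∑ a ∈ E, I2 N a δ T / W ^ 2) + ZZ N δ T / e ^ 2 := by
    unfold Rt
    have d1 : Continuous fun t => ∑ a ∈ E, ∑ b ∈ E,
        ‖Dy N (a + b) (sp δ t) - Dy N a (sp δ t) * Dy N b (sp δ t)‖ ^ 2 / e ^ 2 :=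
      continuous_finsetSum _ fun a _ => continuous_finsetSum _ fun b _ => (cG a b).div_const _
    have d2 : Continuous fun t => ∑ a ∈ E, ‖Dy N a (sp δ t)‖ ^ 2 / W ^ 2 :=
      continuous_finsetSum _ fun a _ => (c2 a).div_const _
    have d3 : Continuous fun t => ‖riemannZeta (sp δ t) - Dy N 1 (sp δ t)‖ ^ 2 / e ^ 2 := cZ.div_const _
    have d12 : Continuous fun t => (∑ a ∈ E, ∑ b ∈ E,
        ‖Dy N (a + b) (sp δ t) - Dy N a (sp δ t) * Dy N b (sp δ t)‖ ^ 2 / e ^ 2) +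
        ∑ a ∈ E, ‖Dy N a (sp δ t)‖ ^ 2 / W ^ 2 := d1.add d2
    rw [intervalIntegral.integral_add (d12.intervalIntegrable _ _) (d3.intervalIntegrable _ _),
      intervalIntegral.integral_add (d1.intervalIntegrable _ _) (d2.intervalIntegrable _ _),
      intervalIntegral.integral_div]
    congr 1
    congr 1
    · rw [intervalIntegral.integral_finsetSum fun a _ => (continuous_finsetSum _ fun b _ =>
        (cG a b).div_const _).intervalIntegrable _ _]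
      refine sum_congr rfl fun a _ => ?_
      rw [intervalIntegral.integral_finsetSum fun b _ => ((cG a b).div_const _).intervalIntegrable _ _]
      refine sum_congr rfl fun b _ => ?_
      rw [intervalIntegral.integral_div]
      rfl
    · rw [intervalIntegral.integral_finsetSum fun a _ => ((c2 a).div_const _).intervalIntegrable _ _]
      refine sum_congr rfl fun a _ => ?_
      rw [intervalIntegral.integral_div]
      rfl
  have h1 : (∫ t in (0:ℝ)..T, clip V ‖riemannZeta (sp δ t)‖ ^ (2 * α)) - I2 N α δ T =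
      ∫ t in (0:ℝ)..T, (clip V ‖riemannZeta (sp δ t)‖ ^ (2 * α) - ‖Dy N α (sp δ t)‖ ^ 2) := by
    rw [intervalIntegral.integral_sub (cc.intervalIntegrable _ _) ((c2 α).intervalIntegrable _ _)]
    rfl
  rw [h1]
  have f1 : Continuous fun t => 4 * rho b W e J * ‖Dy N α (sp δ t)‖ ^ 2 := continuous_const.mul (c2 α)
  have f2 : Continuous fun t => 8 * (V ^ 2)⁻¹ * (‖Dy N b (sp δ t)‖ ^ 2 + ‖Dy N (-b) (sp δ t)‖ ^ 2) :=
    continuous_const.mul ((c2 b).add (c2 (-b)))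
  have f3 : Continuous fun t => (V ^ |2 * α| + Y) * Rt N E W e δ t := continuous_const.mul cR
  have f4 : Continuous fun t => ‖Dy N α (sp δ t)‖ ^ 4 / Y := c4.div_const _
  have h2 : |∫ t in (0:ℝ)..T, (clip V ‖riemannZeta (sp δ t)‖ ^ (2 * α) - ‖Dy N α (sp δ t)‖ ^ 2)| ≤
      ∫ t in (0:ℝ)..T, (4 * rho b W e J * ‖Dy N α (sp δ t)‖ ^ 2 +
      8 * (V ^ 2)⁻¹ * (‖Dy N b (sp δ t)‖ ^ 2 + ‖Dy N (-b) (sp δ t)‖ ^ 2) +
      (V ^ |2 * α| + Y) * Rt N E W e δ t + ‖Dy N α (sp δ t)‖ ^ 4 / Y) := by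
    refine (intervalIntegral.abs_integral_le_integral_abs hT).trans ?_
    refine intervalIntegral.integral_mono_on hT ((cc.sub (c2 α)).abs.intervalIntegrable _ _)
      ((((f1.add f2).add f3).add f4).intervalIntegrable _ _) fun t _ => ?_
    exact ptw hN hαb hV hW he hWe hY hρ
  refine h2.trans (le_of_eq ?_)
  have f12 : Continuous fun t => 4 * rho b W e J * ‖Dy N α (sp δ t)‖ ^ 2 +
      8 * (V ^ 2)⁻¹ * (‖Dy N b (sp δ t)‖ ^ 2 + ‖Dy N (-b) (sp δ t)‖ ^ 2) := f1.add f2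
  have f123 : Continuous fun t => 4 * rho b W e J * ‖Dy N α (sp δ t)‖ ^ 2 +
      8 * (V ^ 2)⁻¹ * (‖Dy N b (sp δ t)‖ ^ 2 + ‖Dy N (-b) (sp δ t)‖ ^ 2) +
      (V ^ |2 * α| + Y) * Rt N E W e δ t := f12.add f3
  rw [intervalIntegral.integral_add (f123.intervalIntegrable _ _) (f4.intervalIntegrable _ _),
    intervalIntegral.integral_add (f12.intervalIntegrable _ _) (f3.intervalIntegrable _ _),
    intervalIntegral.integral_add (f1.intervalIntegrable _ _) (f2.intervalIntegrable _ _),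
    intervalIntegral.integral_const_mul, intervalIntegral.integral_const_mul, intervalIntegral.integral_const_mul,
    intervalIntegral.integral_div, iR,
    intervalIntegral.integral_add ((c2 b).intervalIntegrable _ _) ((c2 (-b)).intervalIntegrable _ _)]
  rfl

end

end Pool.Agent.Y746.OA
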