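import Pool.Agent.H306R2.EPLim
import Pool.Agent.Y746.OA.SSum

set_option autoImplicit false

/-! Size of the diagonal sums near the line. -/

namespace Pool.Agent.Y746.OA

open Finset Filter Topology
open Pool.Agent.H306R2

noncomputable section

lemma SS_eq_cf (α δ : ℝ) : SS α δ = ∑' n : ℕ, cf (fun _ : Fin 1 => α) (fun _ => 2 * δ) n := by
  unfold SS
  refine tsum_congr fun n => ?_
  unfold cf Gs
  simp only [univ_unique, sum_const, card_singleton, one_smul, prod_const, pow_one]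
  rw [tw_apply]
  rcases Nat.eq_zero_or_pos n with h0 | h0
  · subst h0; simp [dv]
  · have hn : (0:ℝ) < n := by exact_mod_cast h0
    have e : (n:ℝ) ^ (-(2 * (1 / 2 + δ))) = (n:ℝ) ^ (-(2 * δ)) / n := by
      rw [← Real.rpow_sub_one hn.ne']; congr 1; ring
    rw [e]; ring

/-- the size of the diagonal sum -/
theorem SS_asym {α : ℝ} (hα : 0 < α) :
    Tendsto (fun δ : ℝ => (2 * δ) ^ (α ^ 2) * SS α δ) (𝓝[>] 0) (𝓝 (aF α)) := by
  have h := cf_tsum_tendsto (fun _ : Fin 1 => α) (fun _ => hα) (fun _ => 1) (fun _ => one_pos)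
  simp only [univ_unique, sum_const, card_singleton, one_smul, prod_const, pow_one, Real.one_rpow, mul_one] at h
  have h2 : Tendsto (fun δ : ℝ => (2 * δ)⁻¹) (𝓝[>] 0) atTop := by
    refine Tendsto.inv_tendsto_nhdsGT_zero ?_
    rw [tendsto_nhdsWithin_iff]
    refine ⟨?_, ?_⟩
    · have : Tendsto (fun δ : ℝ => 2 * δ) (𝓝 0) (𝓝 (2 * 0)) := tendsto_id.const_mul 2
      rw [mul_zero] at this
      exact this.mono_left nhdsWithin_le_nhds
    · filter_upwards [self_mem_nhdsWithin] with δ hδ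
      have : (0:ℝ) < δ := hδ
      show 0 < 2 * δ
      linarith
  refine (h.comp h2).congr' ?_
  filter_upwards [self_mem_nhdsWithin] with δ hδ
  have hδ0 : (0:ℝ) < δ := hδ
  simp only [Function.comp]
  have e1 : (fun _ : Fin 1 => 1 / (2 * δ)⁻¹) = fun _ => 2 * δ := by
    funext i; field_simp
  rw [e1, ← SS_eq_cf]
  have hp : 0 < 2 * δ := by linarith
  rw [Real.inv_rpow hp.le, div_inv_eq_mul, mul_comm]

/-- two-sided power bounds -/
theorem SS_power {α ε : ℝ} (hα : 0 < α) (hε : 0 < ε) : ∀ᶠ δ : ℝ in 𝓝[>] 0,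
    δ ^ (-α ^ 2 + ε) ≤ SS α δ ∧ SS α δ ≤ δ ^ (-α ^ 2 - ε) := by
  have h := SS_asym hα
  have ha := aF_pos hα
  have hsm : ∀ c : ℝ, 0 < c → ∀ᶠ δ : ℝ in 𝓝[>] 0, δ ^ ε ≤ c := by
    intro c hc
    have h1 : Tendsto (fun δ : ℝ => δ ^ ε) (𝓝 0) (𝓝 (0 ^ ε)) :=
      (Real.continuousAt_rpow_const 0 ε (Or.inr hε.le)).tendsto
    rw [Real.zero_rpow hε.ne'] at h1
    exact (h1.mono_left nhdsWithin_le_nhds).eventually (ge_mem_nhds hc)
  have h2p : 0 < (2:ℝ) ^ (α ^ 2) := by positivity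
  filter_upwards [self_mem_nhdsWithin, h.eventually (ge_mem_nhds (show aF α < 2 * aF α by linarith)),
    h.eventually (le_mem_nhds (show aF α / 2 < aF α by linarith)), hsm (2 ^ (α ^ 2) / (2 * aF α)) (by positivity),
    hsm (aF α / 2 / 2 ^ (α ^ 2)) (by positivity)] with δ hδ h1 h2 h3 h4
  have hδ0 : (0:ℝ) < δ := hδ
  rw [Real.mul_rpow (by norm_num) hδ0.le] at h1 h2
  have hx : 0 < δ ^ (α ^ 2) := by positivity
  have hE : 0 < δ ^ ε := by positivity
  have e1 : δ ^ (-α ^ 2 + ε) = δ ^ ε / δ ^ (α ^ 2) := by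
    rw [Real.rpow_add hδ0, Real.rpow_neg hδ0.le]; field_simp
  have e2 : δ ^ (-α ^ 2 - ε) = 1 / (δ ^ (α ^ 2) * δ ^ ε) := by
    rw [Real.rpow_sub hδ0, Real.rpow_neg hδ0.le]; field_simp
  rw [e1, e2]
  constructor
  · rw [div_le_iff₀ hx]
    rw [le_div_iff₀ h2p] at h4
    have : δ ^ ε * 2 ^ (α ^ 2) ≤ SS α δ * δ ^ (α ^ 2) * 2 ^ (α ^ 2) := by linarith
    exact le_of_mul_le_mul_right this h2p
  · rw [le_div_iff₀ (by positivity)]
    rw [le_div_iff₀ (by positivity)] at h3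
    have hS : 0 ≤ SS α δ := by
      have := SS_ge_one α hδ0; linarith
    have h5 : (SS α δ * (δ ^ (α ^ 2) * δ ^ ε)) * (2 * aF α) = (SS α δ * δ ^ (α ^ 2)) * (δ ^ ε * (2 * aF α)) := by ring
    have h6 : (SS α δ * δ ^ (α ^ 2)) * (δ ^ ε * (2 * aF α)) ≤ (SS α δ * δ ^ (α ^ 2)) * 2 ^ (α ^ 2) :=
      mul_le_mul_of_nonneg_left h3 (by positivity)
    have h7 : (SS α δ * (δ ^ (α ^ 2) * δ ^ ε)) * (2 * aF α) ≤ 1 * (2 * aF α) := by
      rw [h5]; linarith
    exact le_of_mul_le_mul_right h7 (by positivity)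

end

end Pool.Agent.Y746.OA
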