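import Pool.Agent.Y746.OA.Asy
import Pool.Agent.Y746.OA.MainA

set_option autoImplicit false

/-! One-sided truncation and limits. -/

namespace Pool.Agent.Y746.OA

open Finset Filter Topology MeasureTheory

noncomputable section

lemma min_clip {V v β : ℝ} (hV : 1 ≤ V) (hv : 0 ≤ v) (hβ : 0 < β) :
    0 ≤ clip V v ^ β - min v V ^ β ∧ clip V v ^ β - min v V ^ β ≤ V ^ (-β) := by
  have hV0 : 0 < V := by linarith
  have hm : 0 ≤ min v V := le_min hv hV0.le
  unfold clip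
  rcases le_total V⁻¹ (min v V) with h | h
  · rw [max_eq_right h, sub_self]
    exact ⟨le_rfl, by positivity⟩
  · rw [max_eq_left h]
    have h1 : min v V ^ β ≤ V⁻¹ ^ β := Real.rpow_le_rpow hm h hβ.le
    have h2 : 0 ≤ min v V ^ β := Real.rpow_nonneg hm _
    have h3 : V⁻¹ ^ β = V ^ (-β) := by rw [Real.inv_rpow hV0.le, Real.rpow_neg hV0.le]
    rw [h3] at h1 ⊢
    exact ⟨by linarith, by linarith⟩

lemma min_cont {V δ β : ℝ} (hβ : 0 < β) (hδ : δ ≤ 1 / 16) :
    Continuous fun t => min ‖riemannZeta (sp δ t)‖ V ^ β :=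
  ((zeta_sp_cont hδ).norm.min continuous_const).rpow_const fun _ => Or.inr hβ.le

/-- positive orders: only large values are truncated -/
theorem mainP {β : ℝ} (hβ : 0 < β) : ∃ c : ℝ, 0 < c ∧ ∀ B : ℕ, ∃ (A : ℕ) (C T0 : ℝ), 0 < C ∧ ∀ T : ℝ, T0 ≤ T →
    ∀ δ : ℝ, C * Real.log (Real.log T) / Real.log T ≤ δ → δ ≤ 1 / 16 → ∀ V : ℝ, Real.log T ^ A ≤ V →
    V ≤ T ^ (c * δ) →
    |(∫ t in (0:ℝ)..T, min ‖riemannZeta (sp δ t)‖ V ^ β) - T * SS (β / 2) δ| ≤ T * SS (β / 2) δ / Real.log T ^ B := by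
  obtain ⟨c, hc, h⟩ := mainA (β / 2)
  refine ⟨c, hc, fun B => ?_⟩
  obtain ⟨A, C, T0, hC, hm⟩ := h (B + 1)
  obtain ⟨A', hA'⟩ := exists_nat_ge (((B:ℝ) + 1) / β)
  refine ⟨max A A', C, max T0 (Real.exp (Real.exp 1)), hC, fun T hT δ hδ hδ1 V hV1 hV2 => ?_⟩
  have hT0 : T0 ≤ T := (le_max_left _ _).trans hT
  have hTe : Real.exp (Real.exp 1) ≤ T := (le_max_right _ _).trans hT
  have hTp : 0 < T := lt_of_lt_of_le (Real.exp_pos _) hTe
  have hL : Real.exp 1 ≤ Real.log T := by rwa [Real.le_log_iff_exp_le hTp]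
  have hL0 : 0 < Real.log T := lt_of_lt_of_le (Real.exp_pos _) hL
  have hL2 : 2 ≤ Real.log T := by linarith [Real.add_one_le_exp (1:ℝ)]
  have hlL : 1 ≤ Real.log (Real.log T) := by rwa [Real.le_log_iff_exp_le hL0]
  have hδ0 : 0 < δ := lt_of_lt_of_le (by positivity) hδ
  have hVA : Real.log T ^ A ≤ V := (pow_le_pow_right₀ (by linarith) (le_max_left _ _)).trans hV1
  have hVA' : Real.log T ^ A' ≤ V := (pow_le_pow_right₀ (by linarith) (le_max_right _ _)).trans hV1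
  have hVone : 1 ≤ V := (one_le_pow₀ (by linarith)).trans hVA
  have h1 := hm T hT0 δ hδ hδ1 V hVA hV2
  have e2 : 2 * (β / 2) = β := by ring
  rw [e2] at h1
  have hS := SS_ge_one (β / 2) hδ0
  have hcl := clip_cont (V := V) (δ := δ) (α := β / 2) hVone hδ1
  rw [e2] at hcl
  have hmn := min_cont (V := V) (δ := δ) hβ hδ1
  have h2 : |(∫ t in (0:ℝ)..T, clip V ‖riemannZeta (sp δ t)‖ ^ β) - ∫ t in (0:ℝ)..T, min ‖riemannZeta (sp δ t)‖ V ^ β| ≤
      T * V ^ (-β) := by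
    rw [← intervalIntegral.integral_sub (hcl.intervalIntegrable _ _) (hmn.intervalIntegrable _ _)]
    have := intervalIntegral.norm_integral_le_of_norm_le_const (a := 0) (b := T) (C := V ^ (-β))
      (f := fun t => clip V ‖riemannZeta (sp δ t)‖ ^ β - min ‖riemannZeta (sp δ t)‖ V ^ β) (fun t _ => by
        have h3 := min_clip hVone (norm_nonneg (riemannZeta (sp δ t))) hβ
        rw [Real.norm_eq_abs, abs_of_nonneg h3.1]
        exact h3.2)
    rw [Real.norm_eq_abs, sub_zero, abs_of_pos hTp] at this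
    linarith
  have hq : 0 < Real.log T ^ B := by positivity
  have h4 : V ^ (-β) ≤ 1 / Real.log T ^ (B + 1) := by
    have h5 : V ^ (-β) ≤ (Real.log T ^ A') ^ (-β) :=
      Real.rpow_le_rpow_of_nonpos (by positivity) hVA' (by linarith)
    refine h5.trans ?_
    rw [← Real.rpow_natCast, ← Real.rpow_mul hL0.le, one_div, ← Real.rpow_natCast, ← Real.rpow_neg hL0.le]
    refine Real.rpow_le_rpow_of_exponent_le (by linarith) ?_
    rw [div_le_iff₀ hβ] at hA'
    push_cast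
    linarith
  have h6 : T * V ^ (-β) ≤ T * SS (β / 2) δ / Real.log T ^ (B + 1) := by
    calc T * V ^ (-β) ≤ T * (1 / Real.log T ^ (B + 1)) := mul_le_mul_of_nonneg_left h4 hTp.le
      _ = T * 1 / Real.log T ^ (B + 1) := by ring
      _ ≤ _ := by gcongr
  have h7 := abs_sub_le (∫ t in (0:ℝ)..T, min ‖riemannZeta (sp δ t)‖ V ^ β)
    (∫ t in (0:ℝ)..T, clip V ‖riemannZeta (sp δ t)‖ ^ β) (T * SS (β / 2) δ)
  rw [abs_sub_comm] at h2
  refine h7.trans ((add_le_add (h2.trans h6) h1).trans ?_)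
  rw [← add_div, div_le_div_iff₀ (by positivity) hq, pow_succ]
  have hTS : 0 < T * SS (β / 2) δ := by positivity
  have : (T * SS (β / 2) δ + T * SS (β / 2) δ) * Real.log T ^ B = T * SS (β / 2) δ * (Real.log T ^ B * 2) := by ring
  rw [this]
  gcongr

/-- lower bound for the full moment -/
theorem full_low {β : ℝ} (hβ : 0 < β) (B : ℕ) : ∃ C T0 : ℝ, 0 < C ∧ ∀ T : ℝ, T0 ≤ T →
    ∀ δ : ℝ, C * Real.log (Real.log T) / Real.log T ≤ δ → δ ≤ 1 / 16 →
    T * SS (β / 2) δ * (1 - 1 / Real.log T ^ B) ≤ ∫ t in (0:ℝ)..T, ‖riemannZeta (sp δ t)‖ ^ β := by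
  obtain ⟨c, hc, h⟩ := mainP hβ
  obtain ⟨A, C, T0, hC, hm⟩ := h B
  refine ⟨max C (A / c), max T0 (Real.exp (Real.exp 1)), lt_of_lt_of_le hC (le_max_left _ _), fun T hT δ hδ hδ1 => ?_⟩
  have hT0 : T0 ≤ T := (le_max_left _ _).trans hT
  have hTe : Real.exp (Real.exp 1) ≤ T := (le_max_right _ _).trans hT
  have hTp : 0 < T := lt_of_lt_of_le (Real.exp_pos _) hTe
  have hL : Real.exp 1 ≤ Real.log T := by rwa [Real.le_log_iff_exp_le hTp]
  have hL0 : 0 < Real.log T := lt_of_lt_of_le (Real.exp_pos _) hL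
  have hlL : 1 ≤ Real.log (Real.log T) := by rwa [Real.le_log_iff_exp_le hL0]
  have hlL0 : 0 ≤ Real.log (Real.log T) := by linarith
  have h1 : C * Real.log (Real.log T) / Real.log T ≤ δ := by
    refine le_trans ?_ hδ
    gcongr
    exact le_max_left _ _
  have h2 : A / c * Real.log (Real.log T) / Real.log T ≤ δ := by
    refine le_trans ?_ hδ
    gcongr
    exact le_max_right _ _
  have hV : Real.log T ^ A ≤ T ^ (c * δ) := by
    rw [← Real.exp_log (show 0 < T ^ (c * δ) by positivity), Real.log_rpow hTp,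
      ← Real.exp_log (show 0 < Real.log T ^ A by positivity), Real.log_pow]
    refine Real.exp_le_exp.mpr ?_
    rw [div_le_iff₀ hL0, div_mul_eq_mul_div, div_le_iff₀ hc] at h2
    linarith
  have h3 := (abs_le.mp (hm T hT0 δ h1 hδ1 _ le_rfl hV)).1
  have h4 : ∫ t in (0:ℝ)..T, min ‖riemannZeta (sp δ t)‖ (Real.log T ^ A) ^ β ≤ ∫ t in (0:ℝ)..T, ‖riemannZeta (sp δ t)‖ ^ β := by
    refine intervalIntegral.integral_mono_on hTp.le ((min_cont hβ hδ1).intervalIntegrable _ _)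
      (((zeta_sp_cont hδ1).norm.rpow_const fun t => Or.inr hβ.le).intervalIntegrable _ _) fun t _ => ?_
    exact Real.rpow_le_rpow (le_min (norm_nonneg _) (by positivity)) (min_le_left _ _) hβ.le
  have e : T * SS (β / 2) δ * (1 - 1 / Real.log T ^ B) = T * SS (β / 2) δ - T * SS (β / 2) δ / Real.log T ^ B := by ring
  rw [e]
  linarith

/-- limits along a path -/
theorem limP {β : ℝ} (hβ : 0 < β) : ∃ A0 : ℕ, ∀ A : ℕ, A0 ≤ A → ∀ δ : ℝ → ℝ, Tendsto δ atTop (𝓝 0) →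
    Tendsto (fun T => δ T * Real.log T / Real.log (Real.log T)) atTop atTop →
    Tendsto (fun T => (2 * δ T) ^ (β ^ 2 / 4) *
      (1 / T * ∫ t in (0:ℝ)..T, min ‖riemannZeta (sp (δ T) t)‖ (Real.log T ^ A) ^ β)) atTop
      (𝓝 (Pool.Agent.H306R2.aF (β / 2))) := by
  obtain ⟨c, hc, h⟩ := mainP hβ
  obtain ⟨A0, C, T0, hC, hm⟩ := h 1
  refine ⟨A0, fun A hA δ hδ hδ2 => ?_⟩
  have hev : ∀ᶠ T : ℝ in atTop, 0 < δ T ∧ 0 < T ∧ 1 ≤ Real.log T ∧ 
      |(∫ t in (0:ℝ)..T, min ‖riemannZeta (sp (δ T) t)‖ (Real.log T ^ A) ^ β) - T * SS (β / 2) (δ T)| ≤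
        T * SS (β / 2) (δ T) / Real.log T := by
    filter_upwards [hδ2.eventually_ge_atTop C, hδ2.eventually_ge_atTop (A / c), eventually_ge_atTop T0,
      eventually_ge_atTop (Real.exp (Real.exp 1)), hδ.eventually (ge_mem_nhds (show (0:ℝ) < 1 / 16 by norm_num))] with
      T h1 h2 h3 hTe h5
    have hTp : 0 < T := lt_of_lt_of_le (Real.exp_pos _) hTe
    have hL : Real.exp 1 ≤ Real.log T := by rwa [Real.le_log_iff_exp_le hTp]
    have hL0 : 0 < Real.log T := lt_of_lt_of_le (Real.exp_pos _) hL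
    have hL1 : 1 ≤ Real.log T := by linarith [Real.add_one_le_exp (1:ℝ)]
    have hlL : 1 ≤ Real.log (Real.log T) := by rwa [Real.le_log_iff_exp_le hL0]
    have hlL0 : 0 < Real.log (Real.log T) := by linarith
    rw [le_div_iff₀ hlL0] at h1 h2
    have g1 : C * Real.log (Real.log T) / Real.log T ≤ δ T := by rwa [div_le_iff₀ hL0]
    have hV : Real.log T ^ A ≤ T ^ (c * δ T) := by
      rw [← Real.exp_log (show 0 < T ^ (c * δ T) by positivity), Real.log_rpow hTp,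
        ← Real.exp_log (show 0 < Real.log T ^ A by positivity), Real.log_pow]
      refine Real.exp_le_exp.mpr ?_
      rw [div_mul_eq_mul_div, div_le_iff₀ hc] at h2
      linarith
    have h3' := hm T h3 (δ T) g1 h5 (Real.log T ^ A) (pow_le_pow_right₀ hL1 hA) hV
    rw [pow_one] at h3'
    exact ⟨lt_of_lt_of_le (by positivity) g1, hTp, hL1, h3'⟩
  have hδ3 : Tendsto δ atTop (𝓝[>] 0) := by
    rw [tendsto_nhdsWithin_iff]
    exact ⟨hδ, hev.mono fun T h => h.1⟩
  have hD := (SS_asym (show 0 < β / 2 by positivity)).comp hδ3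
  have hr : Tendsto (fun T => (∫ t in (0:ℝ)..T, min ‖riemannZeta (sp (δ T) t)‖ (Real.log T ^ A) ^ β) /
      (T * SS (β / 2) (δ T))) atTop (𝓝 1) := by
    rw [tendsto_iff_norm_sub_tendsto_zero]
    have hz : Tendsto (fun T : ℝ => 1 / Real.log T) atTop (𝓝 0) :=
      tendsto_const_nhds.div_atTop Real.tendsto_log_atTop
    refine squeeze_zero' (Eventually.of_forall fun T => norm_nonneg _) ?_ hz
    filter_upwards [hev] with T h
    obtain ⟨g1, g2, g3, g4⟩ := h
    have hS := SS_ge_one (β / 2) g1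
    have hTS : 0 < T * SS (β / 2) (δ T) := by positivity
    rw [Real.norm_eq_abs, div_sub_one hTS.ne', abs_div, abs_of_pos hTS, div_le_iff₀ hTS]
    refine g4.trans (le_of_eq ?_)
    ring
  have h3 := hD.mul hr
  rw [mul_one] at h3
  refine h3.congr' ?_
  filter_upwards [hev] with T h
  obtain ⟨g1, g2, g3, g4⟩ := h
  have hS := SS_ge_one (β / 2) g1
  have hS0 : SS (β / 2) (δ T) ≠ 0 := by linarith
  have e : (β / 2) ^ 2 = β ^ 2 / 4 := by ring
  simp only [Function.comp]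
  rw [e]
  field_simp

end

end Pool.Agent.Y746.OA
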