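import Pool.Agent.Y746.OA.SSum

set_option autoImplicit false

/-! The truncated moments of all orders. -/

namespace Pool.Agent.Y746.OA

open Finset MeasureTheory Filter

noncomputable section

/-- assembly with explicit sizes -/
lemma assemble {N : ℕ} (hN : 1 ≤ N) {α b T δ L H X V C1 : ℝ} {B : ℕ} (hαb : |α| + 1 ≤ b) (hT : 0 < T) (hδ0 : 0 < δ)
    (hδ : δ ≤ 1 / 16) (hL : 24 ≤ L) (hH : 1 ≤ H) (hX8 : 8 ≤ X) (hC1 : 0 ≤ C1) (hV1 : 1 ≤ V)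
    (hXL : H * L ^ (B + 3) ≤ X) (hVL : H * L ^ (B + 1) ≤ V) (hVX : V ^ |2 * α| ≤ X)
    (hρ1 : rho b X ((X ^ 3)⁻¹) ⌈L⌉₊ ≤ 28 * (b + 1) / L ^ (B + 1))
    (hG : ∀ a b' : ℝ, |a| ≤ 2 * b → |b'| ≤ 2 * b → GG N a b' δ T ≤ T * (2 * H * (X ^ 16)⁻¹))
    (hI : ∀ a : ℝ, |a| ≤ 2 * b → I2 N a δ T ≤ T * (2 * H)) (hI4 : I4 N α δ T ≤ T * (2 * H))
    (hM : |I2 N α δ T - T * SS α δ| ≤ T * (2 * H * (X ^ 16)⁻¹)) (hZ : ZZ N δ T ≤ T * (C1 * L * (X ^ 16)⁻¹))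
    (hbig : 112 * (b + 1) + 38 + (360 + 2 * C1) ≤ L) :
    |(∫ t in (0:ℝ)..T, clip V ‖riemannZeta (sp δ t)‖ ^ (2 * α)) - T * SS α δ| ≤ T * SS α δ / L ^ B := by
  have hL0 : 0 < L := by linarith
  have hX0 : 0 < X := by linarith
  have hX1 : 1 ≤ X := by linarith
  have hb1 : 1 ≤ b := by have := abs_nonneg α; linarith
  have hS := SS_ge_one α hδ0
  set q := L ^ (B + 1) with hq
  have hq1 : 1 ≤ q := one_le_pow₀ (by linarith)
  have hq0 : 0 < q := by linarith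
  have hqL : L ≤ q := by
    calc L = L ^ 1 := (pow_one L).symm
      _ ≤ q := pow_le_pow_right₀ (by linarith) (by omega)
  set ρ := rho b X ((X ^ 3)⁻¹) ⌈L⌉₊ with hρ
  have hρ0 : 0 ≤ ρ := by
    rw [hρ]; unfold rho
    have : 0 ≤ Real.log (2 * X) := Real.log_nonneg (by linarith)
    positivity
  have hρ4 : ρ ≤ 1 / 4 := by
    refine hρ1.trans ?_
    rw [div_le_div_iff₀ hq0 (by norm_num)]
    nlinarith
  have hWe : 8 * X ^ 2 * (X ^ 3)⁻¹ ≤ 1 := by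
    have : 8 * X ^ 2 * (X ^ 3)⁻¹ = 8 / X := by field_simp
    rw [this, div_le_one hX0]; exact hX8
  have hcore := core hN hαb (J := ⌈L⌉₊) (V := V) (W := X) (e := (X ^ 3)⁻¹) (Y := X) (δ := δ) (T := T) hT.le hδ
    hV1 hX1 (by positivity) hWe hX0 hρ4
  rw [← hρ] at hcore
  -- sizes
  have hHX : H / X ≤ 1 / q := by
    rw [div_le_div_iff₀ hX0 hq0, one_mul]
    refine le_trans ?_ hXL
    refine mul_le_mul_of_nonneg_left ?_ (by linarith)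
    exact pow_le_pow_right₀ (by linarith) (by omega)
  have hHLX : H * L ^ 2 / X ≤ 1 / q := by
    rw [div_le_div_iff₀ hX0 hq0, one_mul]
    refine le_trans (le_of_eq ?_) hXL
    rw [hq]; ring
  have hLX : L / X ≤ 1 / q := by
    refine le_trans ?_ hHLX
    refine div_le_div_of_nonneg_right ?_ hX0.le
    nlinarith
  have hHV : H * (V ^ 2)⁻¹ ≤ 1 / q := by
    have hV0 : 0 < V := by linarith
    rw [← div_eq_mul_inv, div_le_div_iff₀ (by positivity) hq0, one_mul]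
    exact hVL.trans (by nlinarith)
  have hX16 : (X ^ 16)⁻¹ ≤ X⁻¹ := inv_anti₀ hX0 (by
    calc X = X ^ 1 := (pow_one X).symm
      _ ≤ X ^ 16 := pow_le_pow_right₀ hX1 (by norm_num))
  have hHX16 : H * (X ^ 16)⁻¹ ≤ 1 / q := by
    refine le_trans ?_ hHX
    rw [div_eq_mul_inv]
    exact mul_le_mul_of_nonneg_left hX16 (by linarith)
  obtain ⟨m1, m2⟩ := abs_le.mp hM
  have hIα : I2 N α δ T ≤ T * (SS α δ + 2 * (1 / q)) := by
    have : T * (2 * H * (X ^ 16)⁻¹) ≤ T * (2 * (1 / q)) := by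
      refine mul_le_mul_of_nonneg_left ?_ hT.le
      linarith
    linarith
  -- term 1
  have t1 : 4 * ρ * I2 N α δ T ≤ T * SS α δ * (112 * (b + 1) / q) + T * (2 * (1 / q)) := by
    have a1 : 4 * ρ * I2 N α δ T ≤ 4 * ρ * (T * (SS α δ + 2 * (1 / q))) := mul_le_mul_of_nonneg_left hIα (by positivity)
    have a2 : 4 * ρ * (T * SS α δ) ≤ (112 * (b + 1) / q) * (T * SS α δ) := by
      refine mul_le_mul_of_nonneg_right ?_ (by positivity)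
      calc 4 * ρ ≤ 4 * (28 * (b + 1) / q) := by linarith
        _ = _ := by ring
    have a3 : 4 * ρ * (T * (2 * (1 / q))) ≤ 1 * (T * (2 * (1 / q))) :=
      mul_le_mul_of_nonneg_right (by linarith) (by positivity)
    nlinarith
  -- term 2
  have hIb : I2 N b δ T ≤ T * (2 * H) := hI b (by rw [abs_of_pos (by linarith)]; linarith)
  have hIb' : I2 N (-b) δ T ≤ T * (2 * H) := hI (-b) (by rw [abs_neg, abs_of_pos (by linarith)]; linarith)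
  have t2 : 8 * (V ^ 2)⁻¹ * (I2 N b δ T + I2 N (-b) δ T) ≤ T * (32 * (1 / q)) := by
    have hVi : 0 ≤ (V ^ 2)⁻¹ := by positivity
    calc 8 * (V ^ 2)⁻¹ * (I2 N b δ T + I2 N (-b) δ T) ≤ 8 * (V ^ 2)⁻¹ * (T * (2 * H) + T * (2 * H)) := by
          refine mul_le_mul_of_nonneg_left (by linarith) (by positivity)
      _ = T * (32 * (H * (V ^ 2)⁻¹)) := by ring
      _ ≤ _ := by
        refine mul_le_mul_of_nonneg_left ?_ hT.le
        linarith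
  -- term 3
  set E := Ex b α ⌈L⌉₊ with hE
  have hcard : (#E : ℝ) ≤ 9 * L := by
    have h1 := Ex_card b α ⌈L⌉₊
    have h2 : (#E : ℝ) ≤ 8 * (⌈L⌉₊ : ℝ) + 16 := by exact_mod_cast h1
    have h3 := Nat.ceil_lt_add_one hL0.le
    linarith
  have hcard0 : (0:ℝ) ≤ #E := Nat.cast_nonneg _
  have hEbd : ∀ a ∈ E, |a| ≤ 2 * b := fun a ha => Ex_bd hb1 (by linarith) ha
  have s1 : ∑ a ∈ E, ∑ b' ∈ E, GG N a b' δ T / ((X ^ 3)⁻¹) ^ 2 ≤ T * (162 * (H * L ^ 2) * (X ^ 10)⁻¹) := by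
    have h1 : ∀ a ∈ E, ∑ b' ∈ E, GG N a b' δ T / ((X ^ 3)⁻¹) ^ 2 ≤ (#E : ℝ) * (T * (2 * H * (X ^ 10)⁻¹)) := by
      intro a ha
      have h2 : ∀ b' ∈ E, GG N a b' δ T / ((X ^ 3)⁻¹) ^ 2 ≤ T * (2 * H * (X ^ 10)⁻¹) := by
        intro b' hb'
        have h3 := hG a b' (hEbd a ha) (hEbd b' hb')
        rw [div_le_iff₀ (by positivity)]
        refine h3.trans (le_of_eq ?_)
        field_simp
      refine (sum_le_card_nsmul _ _ _ h2).trans (le_of_eq ?_)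
      rw [nsmul_eq_mul]
    refine (sum_le_card_nsmul _ _ _ h1).trans ?_
    rw [nsmul_eq_mul]
    have hn2 : (#E : ℝ) * #E ≤ 81 * L ^ 2 := by nlinarith
    calc (#E : ℝ) * ((#E : ℝ) * (T * (2 * H * (X ^ 10)⁻¹))) = ((#E : ℝ) * #E) * (T * (2 * H * (X ^ 10)⁻¹)) := by ring
      _ ≤ (81 * L ^ 2) * (T * (2 * H * (X ^ 10)⁻¹)) := mul_le_mul_of_nonneg_right hn2 (by positivity)
      _ = _ := by ring
  have s2 : ∑ a ∈ E, I2 N a δ T / X ^ 2 ≤ T * (18 * (H * L ^ 2) * (X ^ 2)⁻¹) := by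
    have h1 : ∀ a ∈ E, I2 N a δ T / X ^ 2 ≤ T * (2 * H * (X ^ 2)⁻¹) := by
      intro a ha
      rw [div_eq_mul_inv]
      calc I2 N a δ T * (X ^ 2)⁻¹ ≤ (T * (2 * H)) * (X ^ 2)⁻¹ :=
            mul_le_mul_of_nonneg_right (hI a (hEbd a ha)) (by positivity)
        _ = _ := by ring
    refine (sum_le_card_nsmul _ _ _ h1).trans ?_
    rw [nsmul_eq_mul]
    have hn2 : (#E : ℝ) ≤ 9 * L ^ 2 := by nlinarith
    calc (#E : ℝ) * (T * (2 * H * (X ^ 2)⁻¹)) ≤ (9 * L ^ 2) * (T * (2 * H * (X ^ 2)⁻¹)) :=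
          mul_le_mul_of_nonneg_right hn2 (by positivity)
      _ = _ := by ring
  have s3 : ZZ N δ T / ((X ^ 3)⁻¹) ^ 2 ≤ T * (C1 * (H * L ^ 2) * (X ^ 10)⁻¹) := by
    rw [div_le_iff₀ (by positivity)]
    have hLH : L ≤ H * L ^ 2 := by nlinarith
    calc ZZ N δ T ≤ T * (C1 * L * (X ^ 16)⁻¹) := hZ
      _ ≤ T * (C1 * (H * L ^ 2) * (X ^ 16)⁻¹) := by gcongr
      _ = _ := by field_simp
  have hX10 : (X ^ 10)⁻¹ ≤ (X ^ 2)⁻¹ := inv_anti₀ (by positivity) (pow_le_pow_right₀ hX1 (by norm_num))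
  have hHL0 : 0 ≤ H * L ^ 2 := by positivity
  have s4 : (∑ a ∈ E, ∑ b' ∈ E, GG N a b' δ T / ((X ^ 3)⁻¹) ^ 2) + (∑ a ∈ E, I2 N a δ T / X ^ 2) +
      ZZ N δ T / ((X ^ 3)⁻¹) ^ 2 ≤ T * ((180 + C1) * (H * L ^ 2) * (X ^ 2)⁻¹) := by
    have b1 : T * (162 * (H * L ^ 2) * (X ^ 10)⁻¹) ≤ T * (162 * (H * L ^ 2) * (X ^ 2)⁻¹) := by gcongr
    have b2 : T * (C1 * (H * L ^ 2) * (X ^ 10)⁻¹) ≤ T * (C1 * (H * L ^ 2) * (X ^ 2)⁻¹) := by gcongr
    calc _ ≤ T * (162 * (H * L ^ 2) * (X ^ 2)⁻¹) + T * (18 * (H * L ^ 2) * (X ^ 2)⁻¹) +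
        T * (C1 * (H * L ^ 2) * (X ^ 2)⁻¹) := add_le_add (add_le_add (s1.trans b1) s2) (s3.trans b2)
      _ = _ := by ring
  have t3 : (V ^ |2 * α| + X) * ((∑ a ∈ E, ∑ b' ∈ E, GG N a b' δ T / ((X ^ 3)⁻¹) ^ 2) +
      (∑ a ∈ E, I2 N a δ T / X ^ 2) + ZZ N δ T / ((X ^ 3)⁻¹) ^ 2) ≤ T * ((360 + 2 * C1) * (1 / q)) := by
    calc _ ≤ (V ^ |2 * α| + X) * (T * ((180 + C1) * (H * L ^ 2) * (X ^ 2)⁻¹)) :=
          mul_le_mul_of_nonneg_left s4 (by positivity)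
      _ ≤ (X + X) * (T * ((180 + C1) * (H * L ^ 2) * (X ^ 2)⁻¹)) := by
          refine mul_le_mul_of_nonneg_right (by linarith) (by positivity)
      _ = T * ((360 + 2 * C1) * (H * L ^ 2 / X)) := by field_simp; ring
      _ ≤ _ := by gcongr
  -- term 4
  have t4 : I4 N α δ T / X ≤ T * (2 * (1 / q)) := by
    rw [div_le_iff₀ hX0]
    refine hI4.trans ?_
    rw [div_le_iff₀ hX0] at hHX
    calc T * (2 * H) ≤ T * (2 * (1 / q * X)) := by gcongr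
      _ = _ := by ring
  have t5 : |I2 N α δ T - T * SS α δ| ≤ T * (2 * (1 / q)) := by
    refine hM.trans (mul_le_mul_of_nonneg_left (by linarith) hT.le)
  have hsum : |(∫ t in (0:ℝ)..T, clip V ‖riemannZeta (sp δ t)‖ ^ (2 * α)) - T * SS α δ| ≤
      T * SS α δ * (112 * (b + 1) / q) + T * ((38 + (360 + 2 * C1)) * (1 / q)) := by
    have h1 := abs_sub_le (∫ t in (0:ℝ)..T, clip V ‖riemannZeta (sp δ t)‖ ^ (2 * α)) (I2 N α δ T) (T * SS α δ)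
    refine h1.trans ?_
    have h2 := hcore.trans (add_le_add (add_le_add (add_le_add t1 t2) t3) t4)
    linarith
  refine hsum.trans ?_
  have hTS : T ≤ T * SS α δ := le_mul_of_one_le_right hT.le hS
  have h6 : T * ((38 + (360 + 2 * C1)) * (1 / q)) ≤ T * SS α δ * ((38 + (360 + 2 * C1)) * (1 / q)) :=
    mul_le_mul_of_nonneg_right hTS (by positivity)
  have h7 : T * SS α δ * (112 * (b + 1) / q) + T * SS α δ * ((38 + (360 + 2 * C1)) * (1 / q)) =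
      T * SS α δ * ((112 * (b + 1) + 38 + (360 + 2 * C1)) / q) := by ring
  have h8 : (112 * (b + 1) + 38 + (360 + 2 * C1)) / q ≤ 1 / L ^ B := by
    rw [div_le_div_iff₀ hq0 (by positivity), one_mul, hq, pow_succ, mul_comm]
    exact mul_le_mul_of_nonneg_left hbig (by positivity)
  calc _ ≤ T * SS α δ * ((112 * (b + 1) + 38 + (360 + 2 * C1)) / q) := by linarith
    _ ≤ T * SS α δ * (1 / L ^ B) := mul_le_mul_of_nonneg_left h8 (by positivity)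
    _ = _ := by ring

end

end Pool.Agent.Y746.OA
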