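import Mathlib

set_option autoImplicit false

/-! Pointwise comparison of approximately multiplicative families. -/

namespace Pool.Agent.Y746.OA

open Finset

lemma log_close {u w e : ℝ} (hw : 0 < w) (h : |u - w| ≤ e) (h2 : 2 * e ≤ w) :
    |Real.log u - Real.log w| ≤ 2 * e / w := by
  have he : 0 ≤ e := (abs_nonneg _).trans h
  obtain ⟨h3, h4⟩ := abs_le.mp h
  have hu : w / 2 ≤ u := by linarith
  have hu0 : 0 < u := by linarith
  rw [abs_le]
  constructor
  · have h5 := Real.log_le_sub_one_of_pos (x := w / u) (by positivity)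
    rw [Real.log_div hw.ne' hu0.ne'] at h5
    have h6 : w / u - 1 ≤ 2 * e / w := by
      rw [div_sub_one hu0.ne', div_le_div_iff₀ hu0 hw]
      nlinarith
    linarith
  · have h5 := Real.log_le_sub_one_of_pos (x := u / w) (by positivity)
    rw [Real.log_div hu0.ne' hw.ne'] at h5
    have h6 : u / w - 1 ≤ 2 * e / w := by
      rw [div_sub_one hw.ne', div_le_div_iff₀ hw hw]
      nlinarith
    linarith

/-- approximately multiplicative family at a point -/
structure Good (z : ℝ → ℂ) (E : Finset ℝ) (W e : ℝ) : Prop where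
  z0 : z 0 = 1
  W1 : 1 ≤ W
  e0 : 0 ≤ e
  small : 8 * W ^ 2 * e ≤ 1
  zero : (0:ℝ) ∈ E
  neg : ∀ a ∈ E, -a ∈ E
  mul : ∀ a ∈ E, ∀ b ∈ E, ‖z (a + b) - z a * z b‖ ≤ e
  bd : ∀ a ∈ E, ‖z a‖ ≤ W

section
variable {z : ℝ → ℂ} {E : Finset ℝ} {W e : ℝ}

lemma Good.e_half (h : Good z E W e) : e ≤ 1 / 8 := by
  have h1 := h.small
  have h2 := h.W1
  have h3 := h.e0
  have : 1 ≤ W ^ 2 := one_le_pow₀ h2
  nlinarith

lemma Good.low (h : Good z E W e) {a : ℝ} (ha : a ∈ E) : 1 / (2 * W) ≤ ‖z a‖ := by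
  have h1 := h.mul a ha (-a) (h.neg a ha)
  rw [add_neg_cancel, h.z0] at h1
  have h2 := norm_sub_norm_le (1:ℂ) (z a * z (-a))
  rw [norm_one, norm_mul] at h2
  have h3 := h.bd (-a) (h.neg a ha)
  have h4 := h.e_half
  have hW := h.W1
  rw [div_le_iff₀ (by linarith)]
  have h5 : ‖z a‖ * ‖z (-a)‖ ≤ ‖z a‖ * W := mul_le_mul_of_nonneg_left h3 (norm_nonneg _)
  nlinarith

lemma Good.pos (h : Good z E W e) {a : ℝ} (ha : a ∈ E) : 0 < ‖z a‖ := by
  have := h.low ha
  have hW := h.W1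
  have : 0 < 1 / (2 * W) := by positivity
  linarith

lemma Good.Labs (h : Good z E W e) {a : ℝ} (ha : a ∈ E) : |Real.log ‖z a‖| ≤ Real.log (2 * W) := by
  have h1 := h.low ha
  have h2 := h.bd a ha
  have hW := h.W1
  have h3 := h.pos ha
  rw [abs_le]
  constructor
  · rw [← Real.log_inv, ← one_div]
    exact Real.log_le_log (by positivity) h1
  · exact Real.log_le_log h3 (by linarith)

lemma Good.Ladd (h : Good z E W e) {a b : ℝ} (ha : a ∈ E) (hb : b ∈ E) :
    |Real.log ‖z (a + b)‖ - (Real.log ‖z a‖ + Real.log ‖z b‖)| ≤ 8 * W ^ 2 * e := by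
  have hW := h.W1
  have h1 := h.low ha
  have h2 := h.low hb
  have hp1 := h.pos ha
  have hp2 := h.pos hb
  have h3 : 1 / (4 * W ^ 2) ≤ ‖z a‖ * ‖z b‖ := by
    calc 1 / (4 * W ^ 2) = (1 / (2 * W)) * (1 / (2 * W)) := by field_simp; norm_num
      _ ≤ _ := mul_le_mul h1 h2 (by positivity) hp1.le
  have h4 : |‖z (a + b)‖ - ‖z a‖ * ‖z b‖| ≤ e := by
    rw [← norm_mul]
    exact (abs_norm_sub_norm_le _ _).trans (h.mul a ha b hb)
  have h5 : 2 * e ≤ 1 / (4 * W ^ 2) := by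
    rw [le_div_iff₀ (by positivity)]
    have := h.small
    linarith
  have h6 := log_close (by positivity : 0 < ‖z a‖ * ‖z b‖) h4 (h5.trans h3)
  rw [Real.log_mul hp1.ne' hp2.ne'] at h6
  refine h6.trans ?_
  rw [div_le_iff₀ (by positivity)]
  have he := h.e0
  calc 2 * e = 8 * W ^ 2 * e * (1 / (4 * W ^ 2)) := by field_simp; ring
    _ ≤ _ := mul_le_mul_of_nonneg_left h3 (by positivity)

/-- doubling map -/
noncomputable def step (b x : ℝ) : ℝ := if b < 2 * x then 2 * x - b else if 2 * x < -b then 2 * x + b else 2 * x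

lemma step_bd {b x : ℝ} (hx : |x| ≤ b) : |step b x| ≤ b := by
  obtain ⟨h1, h2⟩ := abs_le.mp hx
  unfold step
  split_ifs with h3 h4 <;> rw [abs_le] <;> constructor <;> linarith

lemma iter_bd {b x : ℝ} (hx : |x| ≤ b) (j : ℕ) : |(step b)^[j] x| ≤ b := by
  induction j with
  | zero => simpa using hx
  | succ j ih => rw [Function.iterate_succ_apply']; exact step_bd ih

lemma Good.step (h : Good z E W e) {b x : ℝ} (hb0 : 0 < b) (hb : b ∈ E) (hx : x ∈ E) (hx2 : 2 * x ∈ E)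
    (hs : step b x ∈ E) :
    |Real.log ‖z x‖ - x / b * Real.log ‖z b‖| ≤
      (1 / 2) * |Real.log ‖z (OA.step b x)‖ - (OA.step b x) / b * Real.log ‖z b‖| + 8 * W ^ 2 * e := by
  have h1 := h.Ladd hx hx
  rw [← two_mul] at h1
  set L := fun y => Real.log ‖z y‖ with hL
  have hρ : 0 ≤ 8 * W ^ 2 * e := (abs_nonneg _).trans h1
  have key : |(L (2 * x) - 2 * x / b * L b) - (L (OA.step b x) - (OA.step b x) / b * L b)| ≤ 8 * W ^ 2 * e := by
    unfold OA.step at hs ⊢
    split_ifs at hs ⊢ with h3 h4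
    · have h5 := h.Ladd hs hb
      rw [sub_add_cancel] at h5
      have e1 : (L (2 * x) - 2 * x / b * L b) - (L (2 * x - b) - (2 * x - b) / b * L b) =
          L (2 * x) - (L (2 * x - b) + L b) := by field_simp; ring
      rw [e1]; exact h5
    · have h5 := h.Ladd hx2 hb
      have e1 : (L (2 * x) - 2 * x / b * L b) - (L (2 * x + b) - (2 * x + b) / b * L b) =
          -(L (2 * x + b) - (L (2 * x) + L b)) := by field_simp; ring
      rw [e1, abs_neg]; exact h5
    · rw [sub_self, abs_zero]; exact hρ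
  have e2 : 2 * (L x - x / b * L b) = (L (OA.step b x) - (OA.step b x) / b * L b) +
      ((L (2 * x) - 2 * x / b * L b) - (L (OA.step b x) - (OA.step b x) / b * L b)) -
      (L (2 * x) - (L x + L x)) := by ring
  have h6 : 2 * |L x - x / b * L b| ≤ |L (OA.step b x) - (OA.step b x) / b * L b| + 8 * W ^ 2 * e + 8 * W ^ 2 * e := by
    have e3 : 2 * |L x - x / b * L b| = |2 * (L x - x / b * L b)| := by rw [abs_mul]; norm_num
    rw [e3, e2]
    refine (abs_sub _ _).trans ?_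
    refine add_le_add ((abs_add_le _ _).trans (add_le_add le_rfl key)) h1
  show |L x - x / b * L b| ≤ _
  linarith

lemma Good.iter (h : Good z E W e) {b : ℝ} (hb0 : 0 < b) (hb : b ∈ E) (J : ℕ) : ∀ x : ℝ,
    (∀ j ≤ J, (OA.step b)^[j] x ∈ E ∧ 2 * (OA.step b)^[j] x ∈ E) →
    |Real.log ‖z x‖ - x / b * Real.log ‖z b‖| ≤
      (1 / 2) ^ J * |Real.log ‖z ((OA.step b)^[J] x)‖ - ((OA.step b)^[J] x) / b * Real.log ‖z b‖| +
        2 * (8 * W ^ 2 * e) := by
  have hρ : 0 ≤ 8 * W ^ 2 * e := by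
    have := h.e0; have := h.W1; positivity
  induction J with
  | zero =>
    intro x _
    simp only [pow_zero, one_mul, Function.iterate_zero, id]
    linarith
  | succ J ih =>
    intro x hx
    have h0 := hx 0 (by omega)
    have h1 := hx 1 (by omega)
    simp only [Function.iterate_zero, id, Function.iterate_one] at h0 h1
    have h2 := h.step hb0 hb h0.1 h0.2 h1.1
    have h3 := ih (OA.step b x) (fun j hj => by
      have := hx (j + 1) (by omega)
      rwa [Function.iterate_succ_apply] at this)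
    rw [Function.iterate_succ_apply, pow_succ]
    set A := |Real.log ‖z ((OA.step b)^[J] (OA.step b x))‖ - ((OA.step b)^[J] (OA.step b x)) / b * Real.log ‖z b‖|
    nlinarith

lemma Good.lin (h : Good z E W e) {b : ℝ} (hb0 : 0 < b) (hb : b ∈ E) (J : ℕ) {x : ℝ} (hxb : |x| ≤ b)
    (hx : ∀ j ≤ J, (OA.step b)^[j] x ∈ E ∧ 2 * (OA.step b)^[j] x ∈ E) :
    |Real.log ‖z x‖ - x / b * Real.log ‖z b‖| ≤
      (1 / 2) ^ J * (2 * Real.log (2 * W)) + 2 * (8 * W ^ 2 * e) := by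
  refine (h.iter hb0 hb J x hx).trans (add_le_add (mul_le_mul_of_nonneg_left ?_ (by positivity)) le_rfl)
  have h1 := h.Labs (hx J le_rfl).1
  have h2 := h.Labs hb
  have h3 := iter_bd hxb J
  set y := (OA.step b)^[J] x
  have h4 : |y / b * Real.log ‖z b‖| ≤ Real.log (2 * W) := by
    rw [abs_mul, abs_div, abs_of_pos hb0]
    have h5 : |y| / b ≤ 1 := by rw [div_le_one hb0]; exact h3
    calc |y| / b * |Real.log ‖z b‖| ≤ 1 * |Real.log ‖z b‖| := mul_le_mul_of_nonneg_right h5 (abs_nonneg _)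
      _ ≤ _ := by rw [one_mul]; exact h2
  refine (abs_sub _ _).trans ?_
  linarith

/-- the size of the error -/
noncomputable def rho (b W e : ℝ) (J : ℕ) : ℝ := (b + 1) * ((1 / 2) ^ J * (2 * Real.log (2 * W)) + 3 * (8 * W ^ 2 * e))

lemma Good.main (h : Good z E W e) {b α : ℝ} (hb1 : 1 ≤ b) (hαb : |α| ≤ b) (hb : b ∈ E) (J : ℕ)
    (hx : ∀ j ≤ J, (OA.step b)^[j] α ∈ E ∧ 2 * (OA.step b)^[j] α ∈ E)
    (hy : ∀ j ≤ J, (OA.step b)^[j] 1 ∈ E ∧ 2 * (OA.step b)^[j] 1 ∈ E) {ζ : ℂ} (hζ : ‖ζ - z 1‖ ≤ e) :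
    0 < ‖ζ‖ ∧ |Real.log ‖z α‖ - α * Real.log ‖ζ‖| ≤ rho b W e J ∧
      |Real.log ‖z b‖ - b * Real.log ‖ζ‖| ≤ rho b W e J ∧
      |Real.log ‖z (-b)‖ + b * Real.log ‖ζ‖| ≤ rho b W e J := by
  have hb0 : 0 < b := by linarith
  have h1E : (1:ℝ) ∈ E := (hy 0 (by omega)).1
  have g1 := h.lin hb0 hb J hαb hx
  have g2 := h.lin hb0 hb J (x := 1) (by rwa [abs_one]) hy
  have hW := h.W1
  have he := h.e0
  have hlow := h.low h1E
  have hp := h.pos h1E
  have hsm := h.small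
  have h3 : |‖ζ‖ - ‖z 1‖| ≤ e := (abs_norm_sub_norm_le _ _).trans hζ
  have h5 : 2 * e ≤ 1 / (2 * W) := by
    rw [le_div_iff₀ (by positivity)]
    have : W ≤ W ^ 2 := by nlinarith
    nlinarith
  have h6 := log_close hp h3 (h5.trans hlow)
  have h7 : 2 * e / ‖z 1‖ ≤ 8 * W ^ 2 * e := by
    rw [div_le_iff₀ hp]
    calc 2 * e = 4 * W * e * (1 / (2 * W)) := by field_simp; ring
      _ ≤ 4 * W * e * ‖z 1‖ := mul_le_mul_of_nonneg_left hlow (by positivity)
      _ ≤ _ := by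
        refine mul_le_mul_of_nonneg_right ?_ hp.le
        have : W ≤ W ^ 2 := by nlinarith
        nlinarith
  have h8 := h6.trans h7
  have hv : 0 < ‖ζ‖ := by
    have := (abs_le.mp h3).1
    have : 0 < 1 / (2 * W) := by positivity
    linarith
  set R1 := (1 / 2 : ℝ) ^ J * (2 * Real.log (2 * W)) with hR1
  set r := 8 * W ^ 2 * e with hr
  have hr0 : 0 ≤ r := by positivity
  have hR10 : 0 ≤ R1 := by
    have : 0 ≤ Real.log (2 * W) := Real.log_nonneg (by linarith)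
    positivity
  have hrho : rho b W e J = (b + 1) * (R1 + 3 * r) := rfl
  set Lb := Real.log ‖z b‖ with hLb
  set L1 := Real.log ‖z 1‖ with hL1
  set Lv := Real.log ‖ζ‖ with hLv
  have g3 : |Lb - b * Lv| ≤ b * (R1 + 3 * r) := by
    have e1 : Lb - b * Lv = -(b * (L1 - 1 / b * Lb)) - b * (Lv - L1) := by field_simp; ring
    rw [e1]
    refine (abs_sub _ _).trans ?_
    rw [abs_neg, abs_mul, abs_mul, abs_of_pos hb0]
    have a1 := mul_le_mul_of_nonneg_left g2 hb0.le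
    have a2 := mul_le_mul_of_nonneg_left h8 hb0.le
    calc _ ≤ b * (R1 + 2 * r) + b * r := add_le_add a1 a2
      _ = _ := by ring
  refine ⟨hv, ?_, ?_, ?_⟩
  · rw [hrho]
    have e1 : Real.log ‖z α‖ - α * Lv = (Real.log ‖z α‖ - α / b * Lb) + (α / b) * (Lb - b * Lv) := by
      field_simp; ring
    rw [e1]
    refine (abs_add_le _ _).trans ?_
    rw [abs_mul, abs_div, abs_of_pos hb0]
    have h9 : |α| / b ≤ 1 := by rw [div_le_one hb0]; exact hαb
    have a1 : |α| / b * |Lb - b * Lv| ≤ 1 * (b * (R1 + 3 * r)) :=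
      mul_le_mul h9 g3 (abs_nonneg _) (by norm_num)
    calc _ ≤ (R1 + 2 * r) + 1 * (b * (R1 + 3 * r)) := add_le_add g1 a1
      _ ≤ _ := by nlinarith
  · rw [hrho]
    refine g3.trans ?_
    nlinarith
  · rw [hrho]
    have h10 := h.Ladd hb (h.neg b hb)
    rw [add_neg_cancel, h.z0, norm_one, Real.log_one, zero_sub, abs_neg] at h10
    have e1 : Real.log ‖z (-b)‖ + b * Lv = (Lb + Real.log ‖z (-b)‖) - (Lb - b * Lv) := by ring
    rw [e1]
    refine (abs_sub _ _).trans ?_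
    nlinarith

end

/-- truncation to `[1/V, V]` -/
noncomputable def clip (V v : ℝ) : ℝ := max V⁻¹ (min v V)

lemma clip_pos {V v : ℝ} (hV : 1 ≤ V) : 0 < clip V v :=
  lt_of_lt_of_le (inv_pos.mpr (by linarith)) (le_max_left _ _)

lemma clip_le {V v : ℝ} (hV : 1 ≤ V) : clip V v ≤ V :=
  max_le ((inv_le_one_of_one_le₀ hV).trans hV) (min_le_right _ _)

lemma clip_ge {V v : ℝ} : V⁻¹ ≤ clip V v := le_max_left _ _

lemma clip_pow_le {V v : ℝ} (hV : 1 ≤ V) (γ : ℝ) : clip V v ^ γ ≤ V ^ |γ| := by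
  have h0 := clip_pos (v := v) hV
  rcases le_total 0 γ with h | h
  · rw [abs_of_nonneg h]
    exact Real.rpow_le_rpow h0.le (clip_le hV) h
  · rw [abs_of_nonpos h]
    have h1 : clip V v ^ γ ≤ V⁻¹ ^ γ := Real.rpow_le_rpow_of_nonpos (inv_pos.mpr (by linarith)) clip_ge h
    rwa [Real.inv_rpow (by linarith), ← Real.rpow_neg (by linarith)] at h1

lemma exp_two_rho {ρ : ℝ} (h0 : 0 ≤ ρ) (h1 : ρ ≤ 1 / 4) : Real.exp (2 * ρ) ≤ 1 + 4 * ρ := by
  have h := Real.abs_exp_sub_one_le (x := 2 * ρ) (by rw [abs_of_nonneg (by linarith)]; linarith)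
  rw [abs_of_nonneg (by linarith : 0 ≤ 2 * ρ)] at h
  linarith [(abs_le.mp h).2]

/-- outside the window -/
lemma out_case {v V A B α b ρ : ℝ} (hV : 1 ≤ V) (hvV : V ≤ v) (hA : 0 < A) (hB : 0 < B) (hαb : α + 1 ≤ b)
    (hb0 : 0 ≤ b)
    (h0 : 0 ≤ ρ) (h1 : ρ ≤ 1 / 4) (hAv : |Real.log A - α * Real.log v| ≤ ρ)
    (hBv : |Real.log B - b * Real.log v| ≤ ρ) :
    |V ^ (2 * α) - A ^ 2| ≤ 8 * (V ^ 2)⁻¹ * B ^ 2 := by
  have hV0 : 0 < V := by linarith
  have hv0 : 0 < v := by linarith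
  have hv1 : 1 ≤ v := hV.trans hvV
  have he := exp_two_rho h0 h1
  have he2 : Real.exp (2 * ρ) ≤ 2 := by linarith
  have hlV : 0 ≤ Real.log V := Real.log_nonneg hV
  have hlv : Real.log V ≤ Real.log v := Real.log_le_log hV0 hvV
  obtain ⟨a1, a2⟩ := abs_le.mp hAv
  obtain ⟨b1, b2⟩ := abs_le.mp hBv
  have eB : B ^ 2 = Real.exp (2 * Real.log B) := by
    rw [← Real.exp_log hB, Real.log_exp, ← Real.exp_nat_mul]; norm_num
  have eA : A ^ 2 = Real.exp (2 * Real.log A) := by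
    rw [← Real.exp_log hA, Real.log_exp, ← Real.exp_nat_mul]; norm_num
  have eV : (V ^ 2)⁻¹ = Real.exp (-(2 * Real.log V)) := by
    rw [Real.exp_neg]; congr 1
    rw [← Real.exp_log hV0, Real.log_exp, ← Real.exp_nat_mul]; norm_num
  have hVp : V ^ (2 * α) = Real.exp (2 * α * Real.log V) := by
    rw [Real.rpow_def_of_pos hV0]; congr 1; ring
  have k1 : V ^ (2 * α) ≤ 2 * ((V ^ 2)⁻¹ * B ^ 2) := by
    rw [hVp, eV, eB, ← Real.exp_add]
    have : Real.exp (2 * α * Real.log V) ≤ Real.exp (2 * ρ) * Real.exp (-(2 * Real.log V) + 2 * Real.log B) := by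
      rw [← Real.exp_add]
      refine Real.exp_le_exp.mpr ?_
      nlinarith [mul_nonneg hb0 (sub_nonneg.mpr hlv), mul_nonneg (by linarith : 0 ≤ b - α - 1) hlV]
    refine this.trans (mul_le_mul_of_nonneg_right he2 (Real.exp_pos _).le)
  have k2 : A ^ 2 ≤ 4 * ((V ^ 2)⁻¹ * B ^ 2) := by
    rw [eA, eV, eB, ← Real.exp_add]
    have : Real.exp (2 * Real.log A) ≤ (Real.exp (2 * ρ) * Real.exp (2 * ρ)) *
        Real.exp (-(2 * Real.log V) + 2 * Real.log B) := by
      rw [← Real.exp_add, ← Real.exp_add]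
      refine Real.exp_le_exp.mpr ?_
      nlinarith [mul_nonneg (by linarith : 0 ≤ b - α - 1) (hlV.trans hlv)]
    refine this.trans (mul_le_mul_of_nonneg_right ?_ (Real.exp_pos _).le)
    nlinarith [Real.exp_pos (2 * ρ)]
  have hVB : 0 ≤ (V ^ 2)⁻¹ * B ^ 2 := by positivity
  have hp : 0 ≤ V ^ (2 * α) := by positivity
  have hA2 : 0 ≤ A ^ 2 := by positivity
  rw [abs_le]
  constructor <;> nlinarith

lemma good_ineq {v V A B B' α b ρ : ℝ} (hV : 1 ≤ V) (hv : 0 < v) (hA : 0 < A) (hB : 0 < B) (hB' : 0 < B')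
    (hαb : |α| + 1 ≤ b) (h0 : 0 ≤ ρ) (h1 : ρ ≤ 1 / 4) (hAv : |Real.log A - α * Real.log v| ≤ ρ)
    (hBv : |Real.log B - b * Real.log v| ≤ ρ) (hBv' : |Real.log B' + b * Real.log v| ≤ ρ) :
    |clip V v ^ (2 * α) - A ^ 2| ≤ 4 * ρ * A ^ 2 + 8 * (V ^ 2)⁻¹ * (B ^ 2 + B' ^ 2) := by
  have hV0 : 0 < V := by linarith
  have hVB : 0 ≤ 8 * (V ^ 2)⁻¹ * B ^ 2 := by positivity
  have hVB' : 0 ≤ 8 * (V ^ 2)⁻¹ * B' ^ 2 := by positivity
  have hr : 0 ≤ 4 * ρ * A ^ 2 := by positivity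
  have hb0 : 0 ≤ b := by have := abs_nonneg α; linarith
  rcases le_or_gt V v with hc | hc
  · have e1 : clip V v = V := by
      unfold clip
      rw [min_eq_right hc, max_eq_right]
      exact (inv_le_one_of_one_le₀ hV).trans hV
    rw [e1]
    have := out_case hV hc hA hB (by have := le_abs_self α; linarith) hb0 h0 h1 hAv hBv
    rw [mul_add]
    linarith
  · rcases le_or_gt v V⁻¹ with hd | hd
    · have e1 : clip V v = V⁻¹ := by
        unfold clip
        rw [min_eq_left hc.le, max_eq_left hd]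
      rw [e1]
      have h3 : V ≤ v⁻¹ := by rw [le_inv_comm₀ hV0 hv]; exact hd
      have := out_case (v := v⁻¹) (α := -α) (b := b) (ρ := ρ) hV h3 hA hB'
        (by have := neg_le_abs α; linarith) hb0 h0 h1
        (by rw [Real.log_inv]; simpa using hAv) (by rw [Real.log_inv]; simpa using hBv')
      have e2 : V⁻¹ ^ (2 * α) = V ^ (2 * -α) := by
        rw [Real.inv_rpow hV0.le, ← Real.rpow_neg hV0.le]; congr 1; ring
      rw [e2, mul_add]
      linarith
    · have e1 : clip V v = v := by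
        unfold clip
        rw [min_eq_left hc.le, max_eq_right hd.le]
      rw [e1]
      have he := exp_two_rho h0 h1
      obtain ⟨a1, a2⟩ := abs_le.mp hAv
      have eA : A ^ 2 = Real.exp (2 * Real.log A) := by
        rw [← Real.exp_log hA, Real.log_exp, ← Real.exp_nat_mul]; norm_num
      have ev : v ^ (2 * α) = A ^ 2 * Real.exp (2 * (α * Real.log v - Real.log A)) := by
        rw [Real.rpow_def_of_pos hv, eA, ← Real.exp_add]; congr 1; ring
      have h5 : |v ^ (2 * α) - A ^ 2| ≤ 4 * ρ * A ^ 2 := by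
        rw [ev]
        set x := 2 * (α * Real.log v - Real.log A) with hx
        have hx1 : |x| ≤ 2 * ρ := by
          rw [hx, abs_le]; constructor <;> linarith
        have h6 := Real.abs_exp_sub_one_le (x := x) (by linarith)
        have e3 : A ^ 2 * Real.exp x - A ^ 2 = A ^ 2 * (Real.exp x - 1) := by ring
        rw [e3, abs_mul, abs_of_pos (by positivity : 0 < A ^ 2), mul_comm]
        refine mul_le_mul_of_nonneg_right ?_ (by positivity)
        linarith
      rw [mul_add]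
      linarith

end Pool.Agent.Y746.OA
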